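import Mathlib

/-!
# A Tauberian lemma of Cesàro type (helper75 for helper31)
-/

set_option autoImplicit false

namespace Pool.Agent.K4H31.MZ

open Finset Filter Topology

theorem cesaro (u e : ℕ → ℝ) (C : ℝ) (hu0 : ∀ k, 0 ≤ u k) (hu1 : ∀ k, u k ≤ C)
    (he : Summable fun n => |e n|)
    (h : ∀ k : ℕ, 1 ≤ k → (k : ℝ) * u k ≤ ∑ n ∈ Icc 1 k, (1 + e n) * u (k - n)) :
    ∃ γ : ℝ, 0 ≤ γ ∧ Tendsto (fun N : ℕ => (∑ k ∈ range N, u k) / (N : ℝ)) atTop (𝓝 γ) ∧
      (∀ ε : ℝ, 0 < ε → ∀ᶠ k in atTop, u k ≤ γ + ε) ∧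
      (∀ ε : ℝ, 0 < ε → Tendsto (fun N : ℕ =>
        (((range N).filter fun k => u k < γ - ε).card : ℝ) / (N : ℝ)) atTop (𝓝 0)) := by
  have hC : 0 ≤ C := (hu0 0).trans (hu1 0)
  obtain ⟨S, hS⟩ : ∃ S : ℕ → ℝ, S = fun k => ∑ j ∈ range k, u j := ⟨_, rfl⟩
  obtain ⟨C', hC'⟩ : ∃ C' : ℝ, C' = C * ∑' n, |e n| := ⟨_, rfl⟩
  have hSv : ∀ k, S k = ∑ j ∈ range k, u j := fun k => by rw [hS]
  have hC'0 : 0 ≤ C' := by rw [hC']; exact mul_nonneg hC (tsum_nonneg fun n => abs_nonneg _)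
  have hS0 : ∀ k, 0 ≤ S k := fun k => by rw [hSv]; exact Finset.sum_nonneg fun j _ => hu0 j
  have hrefl : ∀ k : ℕ, ∑ n ∈ Icc 1 k, u (k - n) = S k := by
    intro k
    rw [hSv]
    refine Finset.sum_bij' (fun n _ => k - n) (fun j _ => k - j) ?_ ?_ ?_ ?_ ?_
    · intro n hn
      simp only [mem_Icc, mem_range] at hn ⊢
      omega
    · intro n hn
      simp only [mem_Icc, mem_range] at hn ⊢
      omega
    · intro n hn
      simp only [mem_Icc, mem_range] at hn ⊢
      omega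
    · intro n hn
      simp only [mem_Icc, mem_range] at hn ⊢
      omega
    · intro n hn
      rfl
  have key : ∀ k : ℕ, 1 ≤ k → (k : ℝ) * u k ≤ S k + C' := by
    intro k hk
    refine (h k hk).trans ?_
    have h1 : ∑ n ∈ Icc 1 k, (1 + e n) * u (k - n) = ∑ n ∈ Icc 1 k, u (k - n) + ∑ n ∈ Icc 1 k, e n * u (k - n) := by
      rw [← Finset.sum_add_distrib]
      apply Finset.sum_congr rfl
      intro n _
      ring
    rw [h1, hrefl]
    have h2 : ∑ n ∈ Icc 1 k, e n * u (k - n) ≤ C' := by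
      calc ∑ n ∈ Icc 1 k, e n * u (k - n) ≤ ∑ n ∈ Icc 1 k, C * |e n| := by
            apply Finset.sum_le_sum
            intro n _
            calc e n * u (k - n) ≤ |e n| * u (k - n) := mul_le_mul_of_nonneg_right (le_abs_self _) (hu0 _)
              _ ≤ |e n| * C := mul_le_mul_of_nonneg_left (hu1 _) (abs_nonneg _)
              _ = C * |e n| := mul_comm _ _
        _ = C * ∑ n ∈ Icc 1 k, |e n| := by rw [Finset.mul_sum]
        _ ≤ C * ∑' n, |e n| := mul_le_mul_of_nonneg_left (he.sum_le_tsum _ (fun n _ => abs_nonneg _)) hC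
        _ = C' := hC'.symm
    linarith
  obtain ⟨a, ha⟩ : ∃ a : ℕ → ℝ, ∀ k, a k = (S (k + 1) + C') / ((k : ℝ) + 1) := ⟨_, fun k => rfl⟩
  have hSs : ∀ k, S (k + 1) = S k + u k := by
    intro k
    rw [hSv, hSv, Finset.sum_range_succ]
  have hanti : Antitone a := by
    refine antitone_nat_of_succ_le fun k => ?_
    rw [ha, ha]
    have h1 := key (k + 1) (by omega)
    have h2 := hSs (k + 1)
    push_cast at h1 ⊢
    rw [div_le_div_iff₀ (by positivity) (by positivity), h2]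
    nlinarith
  have ha0 : ∀ k, 0 ≤ a k := by
    intro k
    rw [ha]
    have := hS0 (k + 1)
    positivity
  have hlim : Tendsto a atTop (𝓝 (⨅ k, a k)) :=
    tendsto_atTop_ciInf hanti ⟨0, by rintro _ ⟨k, rfl⟩; exact ha0 k⟩
  obtain ⟨γ, hγ⟩ : ∃ γ : ℝ, γ = ⨅ k, a k := ⟨_, rfl⟩
  rw [← hγ] at hlim
  have hγ0 : 0 ≤ γ := ge_of_tendsto' hlim ha0
  have hmean : Tendsto (fun N : ℕ => (∑ k ∈ range N, u k) / (N : ℝ)) atTop (𝓝 γ) := by
    rw [← tendsto_add_atTop_iff_nat 1]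
    have h1 : (fun N : ℕ => (∑ k ∈ range (N + 1), u k) / ((N + 1 : ℕ) : ℝ)) =
        fun N : ℕ => a N - C' / ((N : ℝ) + 1) := by
      funext N
      rw [ha, hSv]
      push_cast
      ring
    rw [h1]
    have h2 : Tendsto (fun N : ℕ => C' / ((N : ℝ) + 1)) atTop (𝓝 0) := by
      have := (tendsto_one_div_add_atTop_nhds_zero_nat (𝕜 := ℝ)).const_mul C'
      simpa [div_eq_mul_inv] using this
    simpa using hlim.sub h2
  have hup : ∀ ε : ℝ, 0 < ε → ∀ᶠ k in atTop, u k ≤ γ + ε := by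
    intro ε hε
    have h1 : ∀ᶠ k in atTop, a k < γ + ε := hlim.eventually (gt_mem_nhds (by linarith))
    obtain ⟨k0, hk0⟩ := eventually_atTop.1 h1
    refine eventually_atTop.2 ⟨k0 + 1, fun k hk => ?_⟩
    obtain ⟨j, rfl⟩ : ∃ j, k = j + 1 := ⟨k - 1, by omega⟩
    have h2 := hk0 j (by omega)
    rw [ha] at h2
    have h3 := key (j + 1) (by omega)
    push_cast at h3
    have h4 : u (j + 1) ≤ (S (j + 1) + C') / ((j : ℝ) + 1) := by
      rw [le_div_iff₀ (by positivity)]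
      linarith
    linarith
  refine ⟨γ, hγ0, hmean, hup, ?_⟩
  intro ε hε
  rw [Metric.tendsto_atTop]
  intro δ hδ
  obtain ⟨η, hη⟩ : ∃ η : ℝ, η = δ * ε / 4 := ⟨_, rfl⟩
  have hη0 : 0 < η := by rw [hη]; positivity
  obtain ⟨k0, hk0⟩ := eventually_atTop.1 (hup η hη0)
  obtain ⟨n1, hn1⟩ := Metric.tendsto_atTop.1 hmean η hη0
  obtain ⟨K, hK⟩ : ∃ K : ℝ, K = (k0 : ℝ) * (C + ε + η) := ⟨_, rfl⟩
  have hK0 : 0 ≤ K := by rw [hK]; positivity
  obtain ⟨n2, hn2⟩ := exists_nat_gt (K / η)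
  refine ⟨max (max n1 n2) 1, fun N hN => ?_⟩
  have hN1 : n1 ≤ N := le_trans (le_trans (le_max_left _ _) (le_max_left _ _)) hN
  have hN2 : n2 ≤ N := le_trans (le_trans (le_max_right _ _) (le_max_left _ _)) hN
  have hN3 : 1 ≤ N := le_trans (le_max_right _ _) hN
  have hNpos : (0 : ℝ) < N := by exact_mod_cast hN3
  obtain ⟨B, hB⟩ : ∃ B : ℕ, B = ((range N).filter fun k => u k < γ - ε).card := ⟨_, rfl⟩
  rw [← hB, Real.dist_eq, sub_zero, abs_of_nonneg (by positivity)]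
  have h1 := hn1 N hN1
  rw [Real.dist_eq] at h1
  have h2 : γ - η < (∑ k ∈ range N, u k) / (N : ℝ) := by linarith [(abs_lt.1 h1).1]
  -- pointwise bound
  have h3 : ∀ k ∈ range N, u k ≤ (γ + η) - (ε + η) * (if u k < γ - ε then 1 else 0) +
      (C + ε + η) * (if k < k0 then 1 else 0) := by
    intro k _
    by_cases hk : k < k0
    · rw [if_pos hk]
      have := hu1 k
      split_ifs <;> linarith
    · rw [if_neg hk]
      have := hk0 k (by omega)
      split_ifs with hlt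
      · linarith
      · linarith
  have h4 := Finset.sum_le_sum h3
  rw [Finset.sum_add_distrib, Finset.sum_sub_distrib, Finset.sum_const, card_range, ← Finset.mul_sum, ← Finset.mul_sum,
    ← Finset.sum_filter, ← Finset.sum_filter, Finset.sum_const, Finset.sum_const, ← hB] at h4
  simp only [nsmul_eq_mul, mul_one] at h4
  have h5 : (((range N).filter fun k => k < k0).card : ℝ) ≤ k0 := by
    have : ((range N).filter fun k => k < k0).card ≤ (range k0).card :=
      Finset.card_le_card (fun k hk => by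
        simp only [Finset.mem_filter, Finset.mem_range] at hk ⊢
        exact hk.2)
    rw [card_range] at this
    exact_mod_cast this
  have h6 : (C + ε + η) * (((range N).filter fun k => k < k0).card : ℝ) ≤ K := by
    rw [hK, mul_comm]
    exact mul_le_mul_of_nonneg_right h5 (by positivity)
  have h7 : (γ - η) * N < ∑ k ∈ range N, u k := by
    rwa [lt_div_iff₀ hNpos] at h2
  have h8 : K < η * N := by
    have h9 : K / η < N := hn2.trans_le (by exact_mod_cast hN2)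
    rwa [div_lt_iff₀ hη0, mul_comm] at h9
  have hBnn : (0 : ℝ) ≤ B := Nat.cast_nonneg B
  have h10 : ε * B < 3 * η * N := by nlinarith
  rw [div_lt_iff₀ hNpos]
  have h11 : 3 * η * N < ε * (δ * N) := by
    rw [hη]
    have : 0 < δ * ε * N := by positivity
    nlinarith
  have h12 : ε * B < ε * (δ * N) := h10.trans h11
  exact lt_of_mul_lt_mul_left h12 hε.le

end Pool.Agent.K4H31.MZ
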