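import Mathlib

/-!
# Counting exponents of given weight
-/

set_option autoImplicit false

open Finset Filter Topology

namespace Pool.Agent.K4H31.MZ

/-- number of exponents with support in `P` and weight `k` -/
noncomputable def cnt {J : Type} (d : J → ℕ) (P : Set J) (k : ℕ) : ℕ :=
  {e : J →₀ ℕ | (∀ j ∈ e.support, j ∈ P) ∧ Finsupp.weight d e = k}.ncard

namespace CntAux

lemma le_weight {J : Type} (d : J → ℕ) (e : J →₀ ℕ) (j : J) :
    e j * d j ≤ Finsupp.weight d e := by
  rw [Finsupp.weight_apply, Finsupp.sum]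
  by_cases hj : j ∈ e.support
  · exact Finset.single_le_sum (f := fun i => e i • d i) (fun _ _ => Nat.zero_le _) hj
  · rw [Finsupp.notMem_support_iff.1 hj, zero_mul]
    exact Nat.zero_le _

lemma weight_erase {J : Type} [DecidableEq J] (d : J → ℕ) (e : J →₀ ℕ) (j : J) :
    Finsupp.weight d e = e j * d j + Finsupp.weight d (e.erase j) := by
  conv_lhs => rw [← Finsupp.single_add_erase j e]
  rw [map_add, Finsupp.weight_single]
  rfl

lemma finite_finset {J : Type} (d : J → ℕ) (hd : ∀ j, 2 ≤ d j) (S : Finset J) (k : ℕ) :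
    {e : J →₀ ℕ | (∀ j ∈ e.support, j ∈ (S : Set J)) ∧ Finsupp.weight d e = k}.Finite := by
  classical
  refine Set.Finite.subset (Finset.finite_toSet (S.finsupp fun _ => range (k + 1))) ?_
  rintro e ⟨he, hk⟩
  rw [Finset.mem_coe, Finset.mem_finsupp_iff]
  refine ⟨fun j hj => he j hj, fun j _ => ?_⟩
  rw [mem_range]
  have h1 := le_weight d e j
  have h2 : e j * 1 ≤ e j * d j := Nat.mul_le_mul_left _ (by have := hd j; omega)
  omega

end CntAux

open CntAux

theorem cnt_finite {J : Type} (d : J → ℕ) (hd : ∀ j, 2 ≤ d j) (hfin : ∀ n, {j | d j = n}.Finite)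
    (P : Set J) (k : ℕ) :
    {e : J →₀ ℕ | (∀ j ∈ e.support, j ∈ P) ∧ Finsupp.weight d e = k}.Finite := by
  classical
  have hT : {j | d j ≤ k}.Finite := by
    have : {j | d j ≤ k} = ⋃ n ∈ range (k + 1), {j | d j = n} := by
      ext j
      simp
    rw [this]
    exact Set.Finite.biUnion (Finset.finite_toSet _) fun n _ => hfin n
  refine Set.Finite.subset (finite_finset d hd hT.toFinset k) ?_
  rintro e ⟨-, hk⟩
  refine ⟨fun j hj => ?_, hk⟩
  have h1 := le_weight d e j
  have h2 : 1 * d j ≤ e j * d j :=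
    Nat.mul_le_mul_right _ (Nat.one_le_iff_ne_zero.2 (Finsupp.mem_support_iff.1 hj))
  simp only [Set.Finite.coe_toFinset, Set.mem_ofPred_eq]
  omega

theorem cnt_upper {J : Type} (d : J → ℕ) (hd : ∀ j, 2 ≤ d j) (S : Finset J) (s : ℕ)
    (hs : S.card = s + 1) (k : ℕ) : cnt d S k ≤ (k + 1) ^ s := by
  classical
  obtain ⟨j0, hj0⟩ : S.Nonempty := by
    rw [← Finset.card_pos]
    omega
  have h1 : ((S.erase j0).finsupp fun _ => range (k + 1)).card = (k + 1) ^ s := by
    rw [Finset.card_finsupp, Finset.prod_const, card_range, Finset.card_erase_of_mem hj0, hs]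
    rfl
  rw [← h1, ← Set.ncard_coe_finset]
  refine Set.ncard_le_ncard_of_injOn (fun e => e.erase j0) ?_ ?_ (Finset.finite_toSet _)
  · rintro e ⟨he, hk⟩
    rw [Finset.mem_coe, Finset.mem_finsupp_iff]
    refine ⟨?_, fun j hj => ?_⟩
    · rw [Finsupp.support_erase]
      exact Finset.erase_subset_erase _ fun j hj => he j hj
    · rw [mem_range]
      have h2 := le_weight d e j
      have h3 : e j * 1 ≤ e j * d j := Nat.mul_le_mul_left _ (by have := hd j; omega)
      have h4 : (e.erase j0) j = e j := Finsupp.erase_ne (Finset.ne_of_mem_erase hj)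
      rw [h4]
      omega
  · rintro e ⟨-, hk⟩ e' ⟨-, hk'⟩ (hee : e.erase j0 = e'.erase j0)
    have h2 := weight_erase d e j0
    have h3 := weight_erase d e' j0
    rw [hk, hee] at h2
    rw [hk'] at h3
    have h4 : e j0 * d j0 = e' j0 * d j0 := by omega
    have h5 : e j0 = e' j0 := Nat.eq_of_mul_eq_mul_right (by have := hd j0; omega) h4
    rw [← Finsupp.single_add_erase j0 e, ← Finsupp.single_add_erase j0 e', hee, h5]

theorem cnt_lower {J : Type} (d : J → ℕ) (hd : ∀ j, 2 ≤ d j) (S : Finset J) (s : ℕ)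
    (hs : S.card = s + 1) (a b : J) (ha : a ∈ S) (hb : b ∈ S) (hda : d a = 2) (hdb : d b = 3) :
    ∃ η : ℝ, 0 < η ∧ ∀ᶠ k : ℕ in atTop, η * (k : ℝ) ^ s ≤ (cnt d S k : ℝ) := by
  classical
  have hab : a ≠ b := by
    rintro rfl
    omega
  have hbS : b ∈ S.erase a := Finset.mem_erase.2 ⟨hab.symm, hb⟩
  have hs1 : 1 ≤ s := by
    have h1 : 0 < (S.erase a).card := Finset.card_pos.2 ⟨b, hbS⟩
    rw [Finset.card_erase_of_mem ha, hs] at h1
    omega
  set T : Finset J := (S.erase a).erase b with hT
  have hTc : T.card = s - 1 := by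
    rw [hT, Finset.card_erase_of_mem hbS, Finset.card_erase_of_mem ha, hs]
    omega
  have hTS : ∀ j ∈ T, j ∈ S ∧ j ≠ a ∧ j ≠ b := by
    intro j hj
    rw [hT, Finset.mem_erase, Finset.mem_erase] at hj
    exact ⟨hj.2.2, hj.2.1, hj.1⟩
  have haT : a ∉ T := fun h => (hTS a h).2.1 rfl
  have hbT : b ∉ T := fun h => (hTS b h).2.2 rfl
  set M : ℕ := ∑ j ∈ T, d j with hM
  set N : ℕ := 8 * M + 16 with hN
  have hN0 : (0 : ℝ) < N := by rw [hN]; positivity
  refine ⟨(1 / (2 * N : ℝ)) ^ s, by positivity, ?_⟩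
  filter_upwards [eventually_ge_atTop (2 * N + 6)] with k hk
  set q : ℕ := k / N with hq
  have hqN : q * N ≤ k := Nat.div_mul_le_self k N
  -- the choices
  have hcard : ((T.finsupp fun _ => range q) ×ˢ range q).card = q ^ s := by
    rw [Finset.card_product, Finset.card_finsupp, Finset.prod_const, card_range, hTc, ← pow_succ,
      Nat.sub_add_cancel hs1]
  -- the weight of a choice
  have hwt : ∀ e ∈ T.finsupp (fun _ => range q), Finsupp.weight d e ≤ q * M := by
    intro e he
    rw [Finset.mem_finsupp_iff] at he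
    rw [Finsupp.weight_apply, Finsupp.sum_of_support_subset e he.1 _ (by simp), hM, mul_sum]
    refine sum_le_sum fun j hj => ?_
    rw [smul_eq_mul]
    exact Nat.mul_le_mul_right _ (mem_range.1 (he.2 j hj)).le
  have hbound : q * M + (3 + 6 * q) ≤ k := by
    have h1 : q * N = 8 * (q * M) + 16 * q := by rw [hN]; ring
    omega
  let F : (J →₀ ℕ) × ℕ → (J →₀ ℕ) := fun c =>
    c.1 + (Finsupp.single b ((k - Finsupp.weight d c.1) % 2 + 2 * c.2) +
      Finsupp.single a ((k - Finsupp.weight d c.1 -
        3 * ((k - Finsupp.weight d c.1) % 2 + 2 * c.2)) / 2))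
  have hF : q ^ s ≤ cnt d S k := by
    rw [← hcard, ← Set.ncard_coe_finset]
    refine Set.ncard_le_ncard_of_injOn F ?_ ?_ (finite_finset d hd S k)
    · rintro ⟨e, t⟩ hc
      rw [Finset.mem_coe, Finset.mem_product] at hc
      obtain ⟨he, ht⟩ := hc
      have hw := hwt e he
      simp only [mem_range] at ht
      have hsup := (Finset.mem_finsupp_iff.1 he).1
      refine ⟨fun j hj => ?_, ?_⟩
      · rw [Finset.mem_coe]
        by_contra hjS
        rw [Finsupp.mem_support_iff] at hj
        apply hj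
        have h1 : j ≠ a := fun h => hjS (h ▸ ha)
        have h2 : j ≠ b := fun h => hjS (h ▸ hb)
        have h3 : e j = 0 := by
          by_contra h
          exact hjS (hTS j (hsup (Finsupp.mem_support_iff.2 h))).1
        simp [F, h1, h2, h3]
      · simp only [F, map_add, Finsupp.weight_single, hda, hdb, smul_eq_mul]
        generalize Finsupp.weight d e = W at hw ⊢
        omega
    · rintro ⟨e, t⟩ hc ⟨e', t'⟩ hc' (hFF : F (e, t) = F (e', t'))
      rw [Finset.mem_coe, Finset.mem_product] at hc hc'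
      have hsup := (Finset.mem_finsupp_iff.1 hc.1).1
      have hsup' := (Finset.mem_finsupp_iff.1 hc'.1).1
      have hz : ∀ j, j ∉ T → e j = 0 := fun j hj => by
        by_contra h
        exact hj (hsup (Finsupp.mem_support_iff.2 h))
      have hz' : ∀ j, j ∉ T → e' j = 0 := fun j hj => by
        by_contra h
        exact hj (hsup' (Finsupp.mem_support_iff.2 h))
      have hee : e = e' := by
        ext j
        by_cases hj : j ∈ T
        · have h1 := DFunLike.congr_fun hFF j
          have h2 := (hTS j hj).2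
          simpa [F, Finsupp.single_apply, h2.1, h2.2, Ne.symm h2.1, Ne.symm h2.2] using h1
        · rw [hz j hj, hz' j hj]
      subst hee
      have h1 := DFunLike.congr_fun hFF b
      have h3 : t = t' := by
        simpa [F, Finsupp.single_apply, hab, Ne.symm hab] using h1
      rw [h3]
  have hqk : (k : ℝ) / (2 * N) ≤ q := by
    have h1 : k < (q + 1) * N := by
      rw [hq]
      have := Nat.lt_div_mul_add (a := k) (b := N) (by omega)
      rw [Nat.succ_mul]
      omega
    have h2 : (k : ℝ) < (q + 1) * N := by exact_mod_cast h1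
    have h3 : 2 * (N : ℝ) ≤ k := by
      have : 2 * N ≤ k := by omega
      exact_mod_cast this
    rw [div_le_iff₀ (by positivity)]
    nlinarith
  calc (1 / (2 * N : ℝ)) ^ s * (k : ℝ) ^ s = ((k : ℝ) / (2 * N)) ^ s := by
        rw [← mul_pow]
        congr 1
        ring
    _ ≤ (q : ℝ) ^ s := pow_le_pow_left₀ (by positivity) hqk s
    _ ≤ (cnt d S k : ℝ) := by exact_mod_cast hF

end Pool.Agent.K4H31.MZ
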