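import Mathlib
import Pool.Agent.K4H54.MZ.Def

/-!
# The shuffle product by places: the recursion on the last letters
-/

set_option autoImplicit false

open Finset

namespace Pool.Agent.K4H31.MZ

noncomputable def shM (u v : List ℕ) : List ℕ →₀ ℚ :=
  ∑ S ∈ Finset.powersetCard u.length (Finset.univ : Finset (Fin (u.length + v.length))),
    Finsupp.single (Pool.Agent.K4H54.MZ.merge u v S) (1 : ℚ)

/-- merging with a free length -/
def mgN (u v : List ℕ) (n : ℕ) (S : Finset (Fin n)) : List ℕ :=
  List.ofFn fun i : Fin n =>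
    if i ∈ S then u.getD (S.filter fun j => j < i).card 0
    else v.getD (Sᶜ.filter fun j => j < i).card 0

/-- the sum with a free length -/
noncomputable def shN (u v : List ℕ) (p n : ℕ) : List ℕ →₀ ℚ :=
  ∑ S ∈ Finset.powersetCard p (Finset.univ : Finset (Fin n)), Finsupp.single (mgN u v n S) (1 : ℚ)

lemma shM_eq (u v : List ℕ) : shM u v = shN u v u.length (u.length + v.length) := rfl

lemma rk_compl {n : ℕ} (S : Finset (Fin n)) (i : Fin n) :
    (Sᶜ.filter fun j => j < i).card = i.val - (S.filter fun j => j < i).card := by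
  have h1 : (S.filter fun j => j < i) ∪ (Sᶜ.filter fun j => j < i) = Finset.Iio i := by
    ext j
    simp only [Finset.mem_union, Finset.mem_filter, Finset.mem_compl, Finset.mem_Iio]
    tauto
  have h2 : Disjoint (S.filter fun j => j < i) (Sᶜ.filter fun j => j < i) := by
    rw [Finset.disjoint_left]
    intro j hj hj'
    simp only [Finset.mem_filter, Finset.mem_compl] at hj hj'
    exact hj'.1 hj.1
  have h3 := Finset.card_union_of_disjoint h2
  rw [h1, Fin.card_Iio] at h3
  omega

lemma rk_lt {n : ℕ} (S : Finset (Fin n)) (i : Fin n) (hi : i ∈ S) :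
    (S.filter fun j => j < i).card < S.card := by
  refine Finset.card_lt_card ⟨Finset.filter_subset _ _, fun h => ?_⟩
  have := h hi
  simp at this

lemma rk_map {n : ℕ} (T : Finset (Fin n)) (i : Fin n) :
    ((T.map Fin.castSuccEmb).filter fun j => j < Fin.castSucc i).card =
      (T.filter fun j => j < i).card := by
  rw [Finset.filter_map, Finset.card_map]
  congr 1

lemma rk_map_last {n : ℕ} (T : Finset (Fin n)) :
    ((T.map Fin.castSuccEmb).filter fun j => j < Fin.last n).card = T.card := by
  rw [Finset.filter_map, Finset.card_map]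
  congr 1
  refine Finset.filter_true_of_mem fun j _ => ?_
  exact Fin.castSucc_lt_last j

lemma last_notMem {n : ℕ} (T : Finset (Fin n)) : Fin.last n ∉ T.map Fin.castSuccEmb := by
  intro h
  obtain ⟨j, -, hj⟩ := Finset.mem_map.1 h
  exact (Fin.castSucc_lt_last j).ne hj

lemma mem_map_iff {n : ℕ} (T : Finset (Fin n)) (i : Fin n) :
    Fin.castSucc i ∈ T.map Fin.castSuccEmb ↔ i ∈ T := by
  constructor
  · intro h
    obtain ⟨j, hj, hj'⟩ := Finset.mem_map.1 h
    have : j = i := Fin.castSucc_injective n hj'
    exact this ▸ hj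
  · intro h
    exact Finset.mem_map.2 ⟨i, h, rfl⟩

/-- the last place is not in `S` -/
lemma mgN_map {n : ℕ} (u v : List ℕ) (b : ℕ) (T : Finset (Fin n)) (hn : n = T.card + v.length) :
    mgN u (v ++ [b]) (n + 1) (T.map Fin.castSuccEmb) = mgN u v n T ++ [b] := by
  unfold mgN
  rw [List.ofFn_succ', List.concat_eq_append]
  congr 1
  · congr 1
    funext i
    rw [rk_compl, rk_compl, rk_map, Fin.val_castSucc]
    by_cases hi : i ∈ T
    · rw [if_pos ((mem_map_iff T i).2 hi), if_pos hi]
    · rw [if_neg (fun h => hi ((mem_map_iff T i).1 h)), if_neg hi]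
      have h1 := rk_lt Tᶜ i (Finset.mem_compl.2 hi)
      rw [rk_compl, Finset.card_compl, Fintype.card_fin] at h1
      rw [List.getD_append _ _ _ _ (by omega)]
  · rw [if_neg (last_notMem T), rk_compl, rk_map_last, Fin.val_last]
    rw [List.getD_append_right _ _ _ _ (by omega)]
    have : n - T.card - v.length = 0 := by omega
    rw [this]
    rfl

/-- the last place is in `S` -/
lemma mgN_insert {n : ℕ} (u v : List ℕ) (a : ℕ) (T : Finset (Fin n)) (hn : T.card = u.length) :
    mgN (u ++ [a]) v (n + 1) (insert (Fin.last n) (T.map Fin.castSuccEmb)) = mgN u v n T ++ [a] := by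
  have h1 : ∀ i : Fin n, (insert (Fin.last n) (T.map Fin.castSuccEmb)).filter
      (fun j => j < Fin.castSucc i) = (T.map Fin.castSuccEmb).filter (fun j => j < Fin.castSucc i) := by
    intro i
    rw [Finset.filter_insert, if_neg]
    exact not_lt.2 (Fin.le_last _)
  have h2 : (insert (Fin.last n) (T.map Fin.castSuccEmb)).filter
      (fun j => j < Fin.last n) = (T.map Fin.castSuccEmb).filter (fun j => j < Fin.last n) := by
    rw [Finset.filter_insert, if_neg (lt_irrefl _)]
  unfold mgN
  rw [List.ofFn_succ', List.concat_eq_append]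
  congr 1
  · congr 1
    funext i
    rw [rk_compl, rk_compl, h1, rk_map, Fin.val_castSucc]
    by_cases hi : i ∈ T
    · rw [if_pos (Finset.mem_insert_of_mem ((mem_map_iff T i).2 hi)), if_pos hi]
      have h3 := rk_lt T i hi
      rw [List.getD_append _ _ _ _ (by omega)]
    · rw [if_neg, if_neg hi]
      intro h
      rcases Finset.mem_insert.1 h with h4 | h4
      · exact (Fin.castSucc_lt_last i).ne h4
      · exact hi ((mem_map_iff T i).1 h4)
  · rw [if_pos (Finset.mem_insert_self _ _), h2, rk_map_last]
    rw [List.getD_append_right _ _ _ _ (by omega)]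
    have : T.card - u.length = 0 := by omega
    rw [this]
    rfl

lemma shN_snoc (u v : List ℕ) (a b p n : ℕ) (hp : p = u.length) (hn : n = u.length + v.length + 1) :
    shN (u ++ [a]) (v ++ [b]) (p + 1) (n + 1) =
      (shN u (v ++ [b]) p n).mapDomain (fun w => w ++ [a]) +
        (shN (u ++ [a]) v (p + 1) n).mapDomain (fun w => w ++ [b]) := by
  classical
  unfold shN
  rw [Finsupp.mapDomain_finsetSum, Finsupp.mapDomain_finsetSum]
  simp_rw [Finsupp.mapDomain_single]
  have hu : (Finset.univ : Finset (Fin (n + 1))) =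
      insert (Fin.last n) (Finset.univ.map Fin.castSuccEmb) := by
    rw [Fin.univ_castSuccEmb, Finset.cons_eq_insert]
  have hnot : Fin.last n ∉ (Finset.univ : Finset (Fin n)).map Fin.castSuccEmb := last_notMem _
  rw [hu, Finset.powersetCard_succ_insert hnot, Finset.sum_union, Finset.sum_image, add_comm]
  · congr 1
    · rw [Finset.powersetCard_map, Finset.sum_map]
      refine Finset.sum_congr rfl fun T hT => ?_
      have hT' := (Finset.mem_powersetCard.1 hT).2
      rw [← mgN_insert u (v ++ [b]) a T (by omega)]
      rfl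
    · rw [Nat.succ_eq_add_one, Finset.powersetCard_map, Finset.sum_map]
      refine Finset.sum_congr rfl fun T hT => ?_
      have hT' := (Finset.mem_powersetCard.1 hT).2
      rw [← mgN_map (u ++ [a]) v b T (by omega)]
      rfl
  · intro S hS S' hS' h
    have h1 : Fin.last n ∉ S := fun h2 => hnot ((Finset.mem_powersetCard.1 hS).1 h2)
    have h1' : Fin.last n ∉ S' := fun h2 => hnot ((Finset.mem_powersetCard.1 hS').1 h2)
    rw [← Finset.erase_insert h1, ← Finset.erase_insert h1', h]
  · rw [Finset.disjoint_left]
    intro S hS hS'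
    obtain ⟨S', -, rfl⟩ := Finset.mem_image.1 hS'
    exact hnot ((Finset.mem_powersetCard.1 hS).1 (Finset.mem_insert_self _ _))

theorem shM_nil_left (v : List ℕ) : shM [] v = Finsupp.single v 1 := by
  rw [shM_eq]
  unfold shN
  rw [List.length_nil, Finset.powersetCard_zero, Finset.sum_singleton]
  congr 1
  unfold mgN
  apply List.ext_getElem
  · simp
  · intro i h1 h2
    rw [List.getElem_ofFn, if_neg (Finset.notMem_empty _), rk_compl]
    simp [List.getElem?_eq_getElem h2]

theorem shM_nil_right (u : List ℕ) : shM u [] = Finsupp.single u 1 := by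
  rw [shM_eq]
  unfold shN
  have h0 : Finset.powersetCard u.length (Finset.univ : Finset (Fin (u.length + ([] : List ℕ).length))) =
      {Finset.univ} := by
    have := Finset.powersetCard_self (Finset.univ : Finset (Fin (u.length + ([] : List ℕ).length)))
    simpa using this
  rw [h0, Finset.sum_singleton]
  congr 1
  unfold mgN
  apply List.ext_getElem
  · simp
  · intro i h1 h2
    have h3 := rk_compl (∅ : Finset (Fin (u.length + ([] : List ℕ).length))) ⟨i, by simpa using h1⟩
    rw [Finset.compl_empty] at h3
    rw [List.getElem_ofFn, if_pos (Finset.mem_univ _), h3]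
    simp [List.getElem?_eq_getElem h2]

theorem shM_snoc (u v : List ℕ) (a b : ℕ) : shM (u ++ [a]) (v ++ [b]) =
    (shM u (v ++ [b])).mapDomain (fun w => w ++ [a]) +
      (shM (u ++ [a]) v).mapDomain (fun w => w ++ [b]) := by
  have h := shN_snoc u v a b u.length (u.length + v.length + 1) rfl rfl
  rw [shM_eq, shM_eq, shM_eq]
  have e1 : (u ++ [a]).length = u.length + 1 := by simp
  have e2 : (v ++ [b]).length = v.length + 1 := by simp
  rw [e1, e2]
  have e3 : u.length + 1 + (v.length + 1) = u.length + v.length + 1 + 1 := by omega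
  have e4 : u.length + (v.length + 1) = u.length + v.length + 1 := by omega
  have e5 : u.length + 1 + v.length = u.length + v.length + 1 := by omega
  rw [e3, e4, e5]
  exact h

end Pool.Agent.K4H31.MZ
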