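import Mathlib
import Pool.Agent.H569R3.HallShuf
import Pool.Agent.K4H31.MZ.Mrg

/-!
# The shuffle product by places as `ShData`
-/

set_option autoImplicit false

namespace Pool.Agent.K4H31.MZ

open H569R3.Hall

/-- linear extension from words -/
noncomputable def lin {M : Type} [AddCommGroup M] [Module ℚ M] (f : List ℕ → M) : V ℕ →ₗ[ℚ] M :=
  (Finsupp.linearCombination ℚ f : (List ℕ →₀ ℚ) →ₗ[ℚ] M)

lemma lin_e {M : Type} [AddCommGroup M] [Module ℚ M] (f : List ℕ → M) (w : List ℕ) :
    lin f (e w) = f w := by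
  change Finsupp.linearCombination ℚ f (Finsupp.single w (1 : ℚ)) = f w
  rw [Finsupp.linearCombination_single, one_smul]

/-- bilinear extension of `shM` -/
noncomputable def shL : V ℕ →ₗ[ℚ] V ℕ →ₗ[ℚ] V ℕ :=
  lin (fun u => lin (fun v => (shM u v : V ℕ)))

lemma shL_e (u v : List ℕ) : shL (e u) (e v) = (shM u v : V ℕ) := by
  unfold shL
  rw [lin_e, lin_e]

/-- the half shuffle with a word on the right -/
noncomputable def hsW (w : List ℕ) : V ℕ →ₗ[ℚ] V ℕ :=
  if h : w = [] then 0 else (snoc (w.getLast h)).comp (shL.flip (e w.dropLast))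

lemma hsW_snoc (v : List ℕ) (b : ℕ) (x : V ℕ) : hsW (v ++ [b]) x = snoc b (shL x (e v)) := by
  have h : v ++ [b] ≠ [] := by simp
  have h1 : (v ++ [b]).getLast h = b := by simp
  have h2 : (v ++ [b]).dropLast = v := by simp
  unfold hsW
  rw [dif_neg h, LinearMap.comp_apply, LinearMap.flip_apply, h1, h2]

/-- the half shuffle -/
noncomputable def hsL : V ℕ →ₗ[ℚ] V ℕ →ₗ[ℚ] V ℕ := (lin hsW).flip

/-- the shuffle product by places as `ShData` -/
noncomputable def D0 : ShData ℕ where
  sh := shL
  hs := hsL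
  one_sh := by
    intro x
    have h : shL (e []) = LinearMap.id := by
      apply V_lin_ext
      intro w
      rw [shL_e, shM_nil_left]
      rfl
    rw [h]
    rfl
  sh_one := by
    intro x
    have h : shL.flip (e []) = LinearMap.id := by
      apply V_lin_ext
      intro w
      rw [LinearMap.flip_apply, shL_e, shM_nil_right]
      rfl
    have h2 := congrArg (fun L => L x) h
    exact h2
  sh_snoc := by
    intro u v a b
    rw [shL_e, shL_e, shL_e, shM_snoc]
    rfl
  hs_nil := by
    intro x
    unfold hsL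
    rw [LinearMap.flip_apply, lin_e]
    unfold hsW
    rw [dif_pos rfl]
    rfl
  hs_snoc := by
    intro x v b
    unfold hsL
    rw [LinearMap.flip_apply, lin_e, hsW_snoc]

theorem D0_sh (u v : List ℕ) : D0.sh (e u) (e v) = (shM u v : List ℕ →₀ ℚ) := shL_e u v

end Pool.Agent.K4H31.MZ
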