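import Pool.Agent.K4H31.MZ.Lead
import Pool.Agent.K4H54.MZ.Main

/-! From a polynomial presentation of `ℚ[π²] ⊗ (shuffle algebra)` to the inequality for the dimensions
of the spaces of multiple zeta values. -/

set_option autoImplicit false
set_option linter.unusedSectionVars false

open Finset Module

namespace Pool.Agent.K4H31.MZ

open Pool.Agent.K4H54.MZ

/-- The Perrin numbers `3, 0, 2, 3, 2, 5, 5, 7, 10, 12, …`: `P (n + 3) = P (n + 1) + P n`. -/
def P : ℕ → ℕ
  | 0 => 3
  | 1 => 0
  | 2 => 2
  | n + 3 => P (n + 1) + P n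

/-- a presentation of `ℚ[π²] ⊗ (shuffle algebra)` as a graded polynomial algebra -/
structure Pres (J : Type) where
  d : J → ℕ
  Φ : MvPolynomial J ℚ →ₗ[ℚ] (Bas →₀ ℚ)
  bij : Function.Bijective Φ
  one : Φ 1 = Finsupp.single (0, []) 1
  mul : ∀ p q, Φ (p * q) = mulH (Φ p) (Φ q)
  mem : ∀ e : J →₀ ℕ, Φ (MvPolynomial.monomial e 1) ∈ H (Finsupp.weight d e)

variable {J : Type} [LinearOrder J] (T : Pres J)

/-- exponents of weight `k` -/
def Ex (k : ℕ) : Set (J →₀ ℕ) := {e | Finsupp.weight T.d e = k}

/-- polynomials of weight `k` -/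
noncomputable def R (k : ℕ) : Submodule ℚ (MvPolynomial J ℚ) :=
  Submodule.span ℚ ((fun e : J →₀ ℕ => MvPolynomial.monomial e (1 : ℚ)) '' Ex T k)

theorem mem_R {k : ℕ} {p : MvPolynomial J ℚ} :
    p ∈ R T k ↔ ∀ s ∈ p.support, Finsupp.weight T.d s = k := by
  constructor
  · intro hp
    induction hp using Submodule.span_induction with
    | mem x hx =>
      obtain ⟨e, he, rfl⟩ := hx
      intro s hs
      have := MvPolynomial.support_monomial_subset hs
      rw [mem_singleton] at this
      rw [this]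
      exact he
    | zero => simp
    | add x y _ _ hx hy =>
      intro s hs
      rcases mem_union.1 (MvPolynomial.support_add hs) with h | h
      · exact hx s h
      · exact hy s h
    | smul a x _ hx =>
      intro s hs
      exact hx s (MvPolynomial.support_smul hs)
  · intro h
    rw [p.as_sum]
    refine Submodule.sum_mem _ fun s hs => ?_
    have : MvPolynomial.monomial s (MvPolynomial.coeff s p) =
        MvPolynomial.coeff s p • MvPolynomial.monomial s (1 : ℚ) := by
      rw [MvPolynomial.smul_monomial, smul_eq_mul, mul_one]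
    rw [this]
    exact Submodule.smul_mem _ _ (Submodule.subset_span ⟨s, h s hs, rfl⟩)

theorem Phi_mem {k : ℕ} {p : MvPolynomial J ℚ} (hp : p ∈ R T k) : T.Φ p ∈ H k := by
  induction hp using Submodule.span_induction with
  | mem x hx =>
    obtain ⟨e, he, rfl⟩ := hx
    have h : Finsupp.weight T.d e = k := he
    rw [← h]
    exact T.mem e
  | zero => simp
  | add x y _ _ hx hy => rw [map_add]; exact add_mem hx hy
  | smul a x _ hx => rw [map_smul]; exact Submodule.smul_mem _ _ hx

/-- the part of weight `k` of a polynomial -/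
noncomputable def comp (k : ℕ) (p : MvPolynomial J ℚ) : MvPolynomial J ℚ :=
  ∑ s ∈ p.support.filter (fun s => Finsupp.weight T.d s = k),
    MvPolynomial.monomial s (MvPolynomial.coeff s p)

theorem comp_mem (k : ℕ) (p : MvPolynomial J ℚ) : comp T k p ∈ R T k := by
  unfold comp
  refine Submodule.sum_mem _ fun s hs => ?_
  rw [mem_filter] at hs
  rw [mem_R]
  intro t ht
  have := MvPolynomial.support_monomial_subset ht
  rw [mem_singleton] at this
  rw [this]
  exact hs.2

theorem Phi_surj {k : ℕ} {y : Bas →₀ ℚ} (hy : y ∈ H k) : ∃ p ∈ R T k, T.Φ p = y := by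
  classical
  obtain ⟨p, rfl⟩ := T.bij.2 y
  refine ⟨comp T k p, comp_mem T k p, ?_⟩
  -- `Φ p` is the sum of `Φ (comp p)` and terms of other weights
  have h1 : p = comp T k p + ∑ s ∈ p.support.filter (fun s => ¬ Finsupp.weight T.d s = k),
      MvPolynomial.monomial s (MvPolynomial.coeff s p) := by
    unfold comp
    rw [sum_filter_add_sum_filter_not]
    exact p.as_sum
  have h2 : T.Φ p = T.Φ (comp T k p) + T.Φ (∑ s ∈ p.support.filter
      (fun s => ¬ Finsupp.weight T.d s = k),
      MvPolynomial.monomial s (MvPolynomial.coeff s p)) := by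
    rw [← map_add, ← h1]
  have h3 := Phi_mem T (comp_mem T k p)
  have h4 : T.Φ p - T.Φ (comp T k p) ∈ H k := sub_mem hy h3
  have h5 : T.Φ p - T.Φ (comp T k p) = T.Φ (∑ s ∈ p.support.filter
      (fun s => ¬ Finsupp.weight T.d s = k),
      MvPolynomial.monomial s (MvPolynomial.coeff s p)) := by
    rw [h2, add_sub_cancel_left]
  have h6 : ∀ b : Bas, wt b = k → (T.Φ (∑ s ∈ p.support.filter
      (fun s => ¬ Finsupp.weight T.d s = k),
      MvPolynomial.monomial s (MvPolynomial.coeff s p))) b = 0 := by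
    intro b hb
    rw [map_sum, Finsupp.finsetSum_apply]
    refine sum_eq_zero fun s hs => ?_
    rw [mem_filter] at hs
    have h7 : T.Φ (MvPolynomial.monomial s (MvPolynomial.coeff s p)) ∈
        H (Finsupp.weight T.d s) := by
      have : MvPolynomial.monomial s (MvPolynomial.coeff s p) =
          MvPolynomial.coeff s p • MvPolynomial.monomial s (1 : ℚ) := by
        rw [MvPolynomial.smul_monomial, smul_eq_mul, mul_one]
      rw [this, map_smul]
      exact Submodule.smul_mem _ _ (T.mem s)
    by_contra hne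
    have h8 := mem_H.1 h7 b (Finsupp.mem_support_iff.2 hne)
    exact hs.2 (h8.symm.trans hb)
  have h9 : T.Φ p - T.Φ (comp T k p) = 0 := by
    ext b
    rw [Finsupp.zero_apply]
    by_cases hb : wt b = k
    · rw [h5]
      exact h6 b hb
    · by_contra hne
      exact hb (mem_H.1 h4 b (Finsupp.mem_support_iff.2 hne))
  exact (sub_eq_zero.1 h9).symm

/-- the presentation in weight `k` -/
noncomputable def equivR (k : ℕ) : R T k ≃ₗ[ℚ] H k :=
  LinearEquiv.ofBijective
    ((T.Φ.domRestrict (R T k)).codRestrict (H k) fun p => Phi_mem T p.2)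
    ⟨by
      rintro ⟨p, hp⟩ ⟨q, hq⟩ h
      have := congrArg Subtype.val h
      exact Subtype.ext (T.bij.1 this), by
      rintro ⟨y, hy⟩
      obtain ⟨p, hp, h⟩ := Phi_surj T hy
      exact ⟨⟨p, hp⟩, Subtype.ext h⟩⟩

instance finite_R (k : ℕ) : FiniteDimensional ℚ (R T k) := (equivR T k).symm.finiteDimensional

theorem finrank_R (k : ℕ) : finrank ℚ (R T k) = D k := by
  rw [(equivR T k).finrank_eq, finrank_H]

theorem li_mon (k : ℕ) : LinearIndependent ℚ (fun e : Ex T k =>
    (⟨MvPolynomial.monomial e.1 (1 : ℚ), Submodule.subset_span ⟨e.1, e.2, rfl⟩⟩ : R T k)) := by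
  apply LinearIndependent.of_comp (R T k).subtype
  have h := (MvPolynomial.basisMonomials J ℚ).linearIndependent
  have h2 := h.comp (fun e : Ex T k => e.1) Subtype.val_injective
  have h3 : (⇑(R T k).subtype ∘ fun e : Ex T k =>
      (⟨MvPolynomial.monomial e.1 (1 : ℚ), Submodule.subset_span ⟨e.1, e.2, rfl⟩⟩ : R T k)) =
      (⇑(MvPolynomial.basisMonomials J ℚ) ∘ fun e : Ex T k => e.1) := by
    funext e
    simp
  rw [h3]
  exact h2

theorem finite_Ex (k : ℕ) : (Ex T k).Finite := by
  have := (li_mon T k).finite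
  exact Set.toFinite _

/-- exponents of weight `k` -/
noncomputable def E (k : ℕ) : Finset (J →₀ ℕ) := (finite_Ex T k).toFinset

theorem mem_E (k : ℕ) (e : J →₀ ℕ) : e ∈ E T k ↔ Finsupp.weight T.d e = k := by
  unfold E
  rw [Set.Finite.mem_toFinset]
  rfl

theorem card_E (k : ℕ) : (E T k).card = D k := by
  rw [← finrank_R T k]
  have h := (finrank_eq_card (R T k) (E T k) (fun p hp s hs => (mem_E T k s).2
    ((mem_R T).1 hp s hs)) (E T k) (fun s => ?_)).1
  · exact h.symm
  · constructor
    · intro hs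
      refine ⟨MvPolynomial.monomial s 1, Submodule.subset_span ⟨s, (mem_E T k s).1 hs, rfl⟩, ?_⟩
      have : (MvPolynomial.monomial s (1 : ℚ)).support = {s} := by
        classical
        rw [MvPolynomial.support_monomial, if_neg one_ne_zero]
      rw [IsLead, this]
      simp
    · rintro ⟨p, hp, hl⟩
      exact (mem_E T k s).2 ((mem_R T).1 hp s hl.1)

variable {per : (Bas →₀ ℚ) →ₗ[ℚ] ℝ} (hper : IsPeriodMap per)

/-- the relations of weight `k` -/
noncomputable def K (per : (Bas →₀ ℚ) →ₗ[ℚ] ℝ) (k : ℕ) : Submodule ℚ (MvPolynomial J ℚ) :=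
  R T k ⊓ LinearMap.ker (per ∘ₗ T.Φ)

include hper in
theorem finrank_add (k : ℕ) : finrank ℚ (Z k) + finrank ℚ (K T per k) = D k := by
  have h1 : (R T k).map (per ∘ₗ T.Φ) = Z k := by
    rw [← hper.2.2 k, Submodule.map_comp]
    congr 1
    ext y
    rw [Submodule.mem_map]
    constructor
    · rintro ⟨p, hp, rfl⟩
      exact Phi_mem T hp
    · intro hy
      exact Phi_surj T hy
  have h2 := LinearMap.finrank_range_add_finrank_ker ((per ∘ₗ T.Φ).domRestrict (R T k))
  rw [finrank_R] at h2
  rw [← h2]
  congr 1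
  · rw [← h1, LinearMap.range_domRestrict]
  · have h3 : LinearMap.ker ((per ∘ₗ T.Φ).domRestrict (R T k)) =
        (K T per k).comap (R T k).subtype := by
      ext p
      simp [K]
    rw [h3]
    exact (Submodule.comapSubtypeEquivOfLe (show K T per k ≤ R T k from inf_le_left)).finrank_eq.symm

end Pool.Agent.K4H31.MZ
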