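import Pool.Agent.K4H31.MZ.Ineq
import Pool.Agent.K4H31.MZ.Ces

/-! The mean relative dimension of the spaces of multiple zeta values. -/

set_option autoImplicit false

open Finset Module Filter Topology

namespace Pool.Agent.K4H31.MZ

open Pool.Agent.K4H54.MZ

section

variable {per : (Bas →₀ ℚ) →ₗ[ℚ] ℝ} (hper : IsPeriodMap per)

include hper in
theorem le_D (k : ℕ) : finrank ℚ (Z k) ≤ D k := by
  have := finrank_Z_add hper k
  omega

include hper in
theorem finrank_Z_zero : finrank ℚ (Z 0) = 1 := by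
  have h1 := le_D hper 0
  rw [D_zero] at h1
  have h2 : finrank ℚ (Z 0) ≠ 0 := by
    intro h0
    have := finite_Z hper 0
    have h3 := Submodule.finrank_eq_zero.1 h0
    have h4 : (1 : ℝ) ∈ Z 0 := by
      rw [← hper.2.2 0, ← hper.1]
      apply Submodule.mem_map_of_mem
      unfold H
      exact Finsupp.single_mem_supported _ _ wt_zero_nil
    rw [h3, Submodule.mem_bot] at h4
    exact one_ne_zero h4
  omega

/-- the relative dimension -/
noncomputable def rel (k : ℕ) : ℝ := (finrank ℚ (Z k) : ℝ) / (D k : ℝ)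

theorem rel_nonneg (k : ℕ) : 0 ≤ rel k := by
  unfold rel
  positivity

include hper in
theorem rel_le_one (k : ℕ) : rel k ≤ 1 := by
  unfold rel
  apply div_le_one_of_le₀
  · exact_mod_cast le_D hper k
  · positivity

include hper in
/-- the mean relative dimension -/
theorem mean : ∃ δ : ℝ, 0 ≤ δ ∧ δ ≤ 1 ∧
    Tendsto (fun N : ℕ => (∑ k ∈ range N, rel k) / (N : ℝ)) atTop (𝓝 δ) ∧
    (∀ ε : ℝ, 0 < ε → ∀ᶠ k in atTop, rel k ≤ δ + ε) ∧
    (∀ ε : ℝ, 0 < ε → Tendsto (fun N : ℕ =>
      (((range N).filter fun k => rel k < δ - ε).card : ℝ) / (N : ℝ)) atTop (𝓝 0)) := by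
  obtain ⟨ρ, h0, h1, hρ⟩ := exists_rho
  -- asymptotics of `D` and `P`
  obtain ⟨CD, hCD⟩ := recurrence ρ h0 h1 hρ (fun n => (D n : ℝ)) (fun n => by
    show ((D (n + 3) : ℕ) : ℝ) = (D (n + 1) : ℝ) + (D n : ℝ)
    rw [D_rec]
    push_cast
    ring)
  obtain ⟨CP, hCP⟩ := recurrence ρ h0 h1 hρ (fun n => (P n : ℝ)) (fun n => by
    show ((P (n + 3) : ℕ) : ℝ) = (P (n + 1) : ℝ) + (P n : ℝ)
    rw [P_rec]
    push_cast
    ring)
  have hc0 : (0 : ℝ) < 2 + ρ ^ 3 := by positivity
  set c : ℝ := 1 / (2 + ρ ^ 3) with hc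
  have hcpos : 0 < c := by positivity
  have hcD : ∀ n, |(D n : ℝ) * ρ ^ n - c| ≤ CD * ρ ^ n := by
    intro n
    have h := hCD n
    simp only [D_zero, D_one, D_two] at h
    have e : (((1 : ℕ) : ℝ) * ρ ^ 2 + ((0 : ℕ) : ℝ) * ρ + ((1 : ℕ) : ℝ) * ρ ^ 3) / (2 + ρ ^ 3) = c := by
      rw [hc]
      congr 1
      push_cast
      linarith
    rwa [e] at h
  have hcP : ∀ n, |(P n : ℝ) * ρ ^ n - 1| ≤ CP * ρ ^ n := by
    intro n
    have h := hCP n
    simp only [P_zero, P_one, P_two] at h
    have e : (((2 : ℕ) : ℝ) * ρ ^ 2 + ((0 : ℕ) : ℝ) * ρ + ((3 : ℕ) : ℝ) * ρ ^ 3) / (2 + ρ ^ 3) = 1 := by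
      rw [div_eq_one_iff_eq hc0.ne']
      push_cast
      linarith
    rwa [e] at h
  have hpow : Tendsto (fun n : ℕ => ρ ^ n) atTop (𝓝 0) :=
    tendsto_pow_atTop_nhds_zero_of_lt_one h0.le h1
  have hv : Tendsto (fun n : ℕ => (D n : ℝ) * ρ ^ n) atTop (𝓝 c) := by
    rw [tendsto_iff_norm_sub_tendsto_zero]
    refine squeeze_zero (fun n => norm_nonneg _) (fun n => ?_)
      (by simpa using hpow.const_mul CD)
    rw [Real.norm_eq_abs]
    exact hcD n
  -- the sequence `u`
  set u : ℕ → ℝ := fun k => (finrank ℚ (Z k) : ℝ) * ρ ^ k with hu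
  have hu0 : ∀ k, 0 ≤ u k := fun k => by positivity
  have hCD0 : 0 ≤ CD := by
    have := hcD 0
    rw [pow_zero, mul_one] at this
    exact (abs_nonneg _).trans this |>.trans_eq (by ring)
  have hub : ∀ k, (D k : ℝ) * ρ ^ k ≤ c + CD := by
    intro k
    have h2 := (abs_le.1 (hcD k)).2
    have h3 : ρ ^ k ≤ 1 := pow_le_one₀ h0.le h1.le
    nlinarith
  have huD : ∀ k, u k ≤ (D k : ℝ) * ρ ^ k := fun k => by
    apply mul_le_mul_of_nonneg_right _ (by positivity)
    exact_mod_cast le_D hper k
  obtain ⟨γ, hγ0, hγ1, hγ2, hγ3⟩ := cesaro u (fun n => (P n : ℝ) * ρ ^ n - 1) (c + CD) hu0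
    (fun k => (huD k).trans (hub k))
    (Summable.of_nonneg_of_le (fun n => abs_nonneg _) hcP
      ((summable_geometric_of_lt_one h0.le h1).mul_left CP))
    (by
      intro k hk
      have h2 := ineq hper k
      have h3 : (k : ℝ) * (finrank ℚ (Z k) : ℝ) ≤
          ∑ n ∈ Icc 1 k, (P n : ℝ) * (finrank ℚ (Z (k - n)) : ℝ) := by exact_mod_cast h2
      have h4 := mul_le_mul_of_nonneg_right h3 (pow_nonneg h0.le k)
      rw [sum_mul] at h4
      calc (k : ℝ) * u k = (k : ℝ) * (finrank ℚ (Z k) : ℝ) * ρ ^ k := by rw [hu]; ring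
        _ ≤ _ := h4
        _ = _ := by
          refine sum_congr rfl fun n hn => ?_
          rw [mem_Icc] at hn
          have : ρ ^ k = ρ ^ n * ρ ^ (k - n) := by
            rw [← pow_add]
            congr 1
            omega
          simp only [hu]
          rw [this]
          ring)
  -- comparison
  have hz : Tendsto (fun k => rel k - u k / c) atTop (𝓝 0) := by
    have h2 : Tendsto (fun k : ℕ => (1 : ℝ) - (D k : ℝ) * ρ ^ k / c) atTop (𝓝 0) := by
      have := (hv.div_const c).const_sub 1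
      rwa [div_self hcpos.ne', sub_self] at this
    have h3 : ∀ k, rel k - u k / c = rel k * (1 - (D k : ℝ) * ρ ^ k / c) := by
      intro k
      unfold rel
      simp only [hu]
      by_cases hk : (D k : ℝ) = 0
      · have : finrank ℚ (Z k) = 0 := by
          have h5 := le_D hper k
          have h6 : D k = 0 := by exact_mod_cast hk
          omega
        rw [this, hk]
        simp
      · field_simp
    refine squeeze_zero_norm (fun k => ?_) (h2.norm.trans (by simp))
    rw [h3, norm_mul, Real.norm_eq_abs (rel k), abs_of_nonneg (rel_nonneg k)]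
    exact mul_le_of_le_one_left (norm_nonneg _) (rel_le_one hper k)
  have hmean : Tendsto (fun N : ℕ => (∑ k ∈ range N, rel k) / (N : ℝ)) atTop (𝓝 (γ / c)) := by
    have h2 := hz.cesaro
    have h3 : Tendsto (fun N : ℕ => (∑ k ∈ range N, u k) / (N : ℝ) / c +
        (N : ℝ)⁻¹ * ∑ k ∈ range N, (rel k - u k / c)) atTop (𝓝 (γ / c + 0)) :=
      (hγ1.div_const c).add h2
    rw [add_zero] at h3
    refine h3.congr fun N => ?_
    rw [sum_sub_distrib, ← sum_div]
    field_simp
    ring
  refine ⟨γ / c, by positivity, ?_, hmean, ?_, ?_⟩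
  · refine le_of_tendsto hmean ?_
    filter_upwards [eventually_gt_atTop 0] with N hN
    rw [div_le_one (by exact_mod_cast hN)]
    calc ∑ k ∈ range N, rel k ≤ ∑ _k ∈ range N, (1 : ℝ) := sum_le_sum fun k _ => rel_le_one hper k
      _ = N := by simp
  · intro ε hε
    have h2 := hγ2 (c * (ε / 2)) (by positivity)
    have h3 := hz.eventually (gt_mem_nhds (show (0 : ℝ) < ε / 2 by positivity))
    filter_upwards [h2, h3] with k hk2 hk3
    have h4 : u k / c ≤ γ / c + ε / 2 := by
      rw [div_le_iff₀ hcpos, add_mul, div_mul_cancel₀ _ hcpos.ne']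
      linarith
    linarith
  · intro ε hε
    have h2 := hγ3 (c * (ε / 2)) (by positivity)
    have h3 := hz.eventually (lt_mem_nhds (show -(ε / 2) < (0 : ℝ) by linarith))
    obtain ⟨M, hM⟩ := eventually_atTop.1 h3
    have h4 : Tendsto (fun N : ℕ => (M : ℝ) / (N : ℝ)) atTop (𝓝 0) :=
      tendsto_const_div_atTop_nhds_zero_nat _
    have h5 := h4.add h2
    rw [add_zero] at h5
    refine squeeze_zero (fun N => by positivity) (fun N => ?_) h5
    rw [← add_div]
    apply div_le_div_of_nonneg_right _ (Nat.cast_nonneg N)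
    have h6 : ((range N).filter fun k => rel k < γ / c - ε) ⊆
        range M ∪ ((range N).filter fun k => u k < γ - c * (ε / 2)) := by
      intro k hk
      rw [mem_filter] at hk
      rw [mem_union]
      by_cases hkM : k < M
      · exact Or.inl (mem_range.2 hkM)
      · right
        rw [mem_filter]
        refine ⟨hk.1, ?_⟩
        have h7 := hM k (not_lt.1 hkM)
        have h8 : u k / c < γ / c - ε / 2 := by linarith [hk.2]
        rw [div_lt_iff₀ hcpos, sub_mul, div_mul_cancel₀ _ hcpos.ne'] at h8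
        linarith
    have h7 := (card_le_card h6).trans (card_union_le _ _)
    rw [card_range] at h7
    exact_mod_cast h7

theorem rel_eq_one_of_Q1 (h : Q1) (k : ℕ) (hk : 2 ≤ k) : rel k = 1 := by
  obtain ⟨φ, _⟩ := h
  unfold rel
  rw [(φ k).finrank_eq, finrank_H]
  have := D_pos k hk
  exact div_self (by exact_mod_cast this.ne')

include hper in
/-- Q1 holds if and only if the mean relative dimension is `1` -/
theorem Q1_iff_mean {δ : ℝ}
    (h1 : Tendsto (fun N : ℕ => (∑ k ∈ range N, rel k) / (N : ℝ)) atTop (𝓝 δ)) :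
    Q1 ↔ δ = 1 := by
  constructor
  · intro hQ
    have h2 : Tendsto (fun k => rel k) atTop (𝓝 1) := by
      refine tendsto_const_nhds.congr' ?_
      filter_upwards [eventually_ge_atTop 2] with k hk
      exact (rel_eq_one_of_Q1 hQ k hk).symm
    have h3 := h2.cesaro
    refine tendsto_nhds_unique h1 (h3.congr fun N => ?_)
    rw [inv_mul_eq_div]
  · rintro rfl
    rw [Q1_iff hper]
    intro ε hε k₀
    by_contra hcon
    push Not at hcon
    have h2 : ∀ k ≥ max k₀ 2, rel k ≤ 1 - ε := by
      intro k hk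
      have hD := D_pos k (le_trans (le_max_right _ _) hk)
      unfold rel
      rw [div_le_iff₀ (by exact_mod_cast hD)]
      exact (hcon k (le_trans (le_max_left _ _) hk)).le
    have h3 : ∀ N : ℕ, ∑ k ∈ range N, rel k ≤ (max k₀ 2 : ℕ) * ε + (1 - ε) * N := by
      intro N
      induction N with
      | zero =>
        simp only [range_zero, sum_empty, Nat.cast_zero, mul_zero, add_zero]
        positivity
      | succ N ih =>
        rw [sum_range_succ]
        push_cast
        by_cases hN : max k₀ 2 ≤ N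
        · have := h2 N hN
          push_cast at ih
          linarith
        · push Not at hN
          have h4 : ∀ k, rel k ≤ 1 := rel_le_one hper
          have h5 : ∑ k ∈ range N, rel k ≤ N := by
            calc ∑ k ∈ range N, rel k ≤ ∑ _k ∈ range N, (1 : ℝ) := sum_le_sum fun k _ => h4 k
              _ = N := by simp
          have h6 : ((N + 1 : ℕ) : ℝ) ≤ (max k₀ 2 : ℕ) := by exact_mod_cast hN
          push_cast at h6
          have h7 := h4 N
          nlinarith
    have h4 : Tendsto (fun N : ℕ => ((max k₀ 2 : ℕ) * ε) / (N : ℝ) + (1 - ε)) atTop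
        (𝓝 (0 + (1 - ε))) :=
      (tendsto_const_div_atTop_nhds_zero_nat _).add tendsto_const_nhds
    have h5 : (1 : ℝ) ≤ 0 + (1 - ε) := by
      refine le_of_tendsto_of_tendsto h1 h4 ?_
      filter_upwards [eventually_gt_atTop 0] with N hN
      have hN' : (0 : ℝ) < N := by exact_mod_cast hN
      rw [div_le_iff₀ hN', add_mul, div_mul_cancel₀ _ hN'.ne']
      exact h3 N
    linarith

include hper in
/-- Q1 holds if and only if equality holds in all the inequalities -/
theorem Q1_iff_eq : Q1 ↔ ∀ k : ℕ, k * finrank ℚ (Z k) =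
    ∑ n ∈ Icc 1 k, P n * finrank ℚ (Z (k - n)) := by
  constructor
  · rintro ⟨φ, _⟩ k
    have h : ∀ k, finrank ℚ (Z k) = D k := fun k => by rw [(φ k).finrank_eq, finrank_H]
    simp only [h]
    exact conv k
  · intro h
    have hD : ∀ k, finrank ℚ (Z k) = D k := by
      intro k
      induction k using Nat.strong_induction_on with
      | _ k ih =>
        rcases Nat.eq_zero_or_pos k with rfl | hk
        · rw [finrank_Z_zero hper, D_zero]
        · have h1 := h k
          have h2 : ∑ n ∈ Icc 1 k, P n * finrank ℚ (Z (k - n)) =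
              ∑ n ∈ Icc 1 k, P n * D (k - n) := by
            refine sum_congr rfl fun n hn => ?_
            rw [mem_Icc] at hn
            rw [ih (k - n) (by omega)]
          rw [h2, ← conv k] at h1
          exact Nat.eq_of_mul_eq_mul_left hk h1
    rw [Q1_iff hper]
    intro ε hε k₀
    refine ⟨k₀, le_rfl, ?_⟩
    rw [hD]
    have : (0 : ℝ) ≤ D k₀ := Nat.cast_nonneg _
    nlinarith

end

end Pool.Agent.K4H31.MZ
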