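import Mathlib

/-!
# The recurrence `x (n + 3) = x (n + 1) + x n`
-/

set_option autoImplicit false

namespace Pool.Agent.K4H31.MZ

theorem exists_rho : ∃ ρ : ℝ, 0 < ρ ∧ ρ < 1 ∧ ρ ^ 2 + ρ ^ 3 = 1 := by
  have h := intermediate_value_Icc (show (0:ℝ) ≤ 1 by norm_num)
    (f := fun x : ℝ => x ^ 2 + x ^ 3) (by fun_prop)
  have h1 : (1:ℝ) ∈ Set.Icc ((fun x : ℝ => x ^ 2 + x ^ 3) 0) ((fun x : ℝ => x ^ 2 + x ^ 3) 1) := by
    simp only [Set.mem_Icc]
    constructor <;> norm_num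
  obtain ⟨ρ, ⟨h0, h2⟩, h3⟩ := h h1
  have h3' : ρ ^ 2 + ρ ^ 3 = 1 := h3
  refine ⟨ρ, ?_, ?_, h3'⟩
  · rcases h0.lt_or_eq with h | h
    · exact h
    · rw [← h] at h3'; norm_num at h3'
  · rcases h2.lt_or_eq with h | h
    · exact h
    · rw [h] at h3'; norm_num at h3'

theorem recurrence (ρ : ℝ) (h0 : 0 < ρ) (h1 : ρ < 1) (hρ : ρ ^ 2 + ρ ^ 3 = 1)
    (x : ℕ → ℝ) (hx : ∀ n, x (n + 3) = x (n + 1) + x n) :
    ∃ C : ℝ, ∀ n, |x n * ρ ^ n - (x 2 * ρ ^ 2 + x 1 * ρ + x 0 * ρ ^ 3) / (2 + ρ ^ 3)| ≤ C * ρ ^ n := by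
  set a : ℝ := ρ⁻¹ with ha
  have ha0 : 0 < a := inv_pos.mpr h0
  have haρ : a * ρ = 1 := inv_mul_cancel₀ h0.ne'
  have ha2 : a ^ 2 = 1 + ρ := by
    have e : a ^ 2 = a ^ 2 * (ρ ^ 2 + ρ ^ 3) := by rw [hρ, mul_one]
    rw [e]
    calc a ^ 2 * (ρ ^ 2 + ρ ^ 3) = (a * ρ) ^ 2 * (1 + ρ) := by ring
      _ = 1 + ρ := by rw [haρ]; ring
  set D : ℝ := 2 + ρ ^ 3 with hD
  have hD0 : 0 < D := by positivity
  set c : ℝ := (x 2 * ρ ^ 2 + x 1 * ρ + x 0 * ρ ^ 3) / D with hc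
  have hcD : c * D = x 2 * ρ ^ 2 + x 1 * ρ + x 0 * ρ ^ 3 := div_mul_cancel₀ _ hD0.ne'
  -- the first integral
  have hE : ∀ n, x (n + 2) + a * x (n + 1) + ρ * x n = a ^ n * (x 2 + a * x 1 + ρ * x 0) := by
    intro n
    induction n with
    | zero => simp
    | succ n ih =>
      have e : x (n + 1 + 2) + a * x (n + 1 + 1) + ρ * x (n + 1) =
          a * (x (n + 2) + a * x (n + 1) + ρ * x n) := by
        rw [show n + 1 + 2 = n + 3 by ring, show n + 1 + 1 = n + 2 by ring, hx n]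
        have e2 : a * (x (n + 2) + a * x (n + 1) + ρ * x n) =
            a * x (n + 2) + a ^ 2 * x (n + 1) + (a * ρ) * x n := by ring
        rw [e2, haρ, ha2]; ring
      rw [e, ih, pow_succ]; ring
  have hcE : c * (2 * a ^ 2 + ρ) = x 2 + a * x 1 + ρ * x 0 := by
    have e1 : 2 * a ^ 2 + ρ = a ^ 2 * D := by
      rw [hD]
      calc 2 * a ^ 2 + ρ = 2 * a ^ 2 + (a * ρ) ^ 2 * ρ := by rw [haρ]; ring
        _ = a ^ 2 * (2 + ρ ^ 3) := by ring
    calc c * (2 * a ^ 2 + ρ) = a ^ 2 * (c * D) := by rw [e1]; ring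
      _ = (a * ρ) ^ 2 * x 2 + a * (a * ρ) * x 1 + (a * ρ) ^ 2 * ρ * x 0 := by rw [hcD]; ring
      _ = _ := by rw [haρ]; ring
  set q : ℕ → ℝ := fun n => x n - c * a ^ n with hq
  have hrec : ∀ n, q (n + 2) = -(a * q (n + 1)) - ρ * q n := by
    intro n
    have h2 := hE n
    rw [← hcE] at h2
    simp only [hq]
    have e1 : c * a ^ (n + 2) = c * a ^ n * a ^ 2 := by ring
    have e2 : a * (c * a ^ (n + 1)) = c * a ^ n * a ^ 2 := by ring
    have e3 : a ^ n * (c * (2 * a ^ 2 + ρ)) = c * a ^ n * a ^ 2 + c * a ^ n * a ^ 2 + ρ * (c * a ^ n) := by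
      ring
    rw [e3] at h2
    have e4 : a * (x (n + 1) - c * a ^ (n + 1)) = a * x (n + 1) - c * a ^ n * a ^ 2 := by
      rw [mul_sub, e2]
    rw [e1, e4]
    linarith
  set N : ℕ → ℝ := fun n => q (n + 1) ^ 2 + a * q (n + 1) * q n + ρ * q n ^ 2 with hN
  have hNrec : ∀ n, N (n + 1) = ρ * N n := by
    intro n
    simp only [hN]
    rw [show n + 1 + 1 = n + 2 by ring, hrec n]
    have e : (-(a * q (n + 1)) - ρ * q n) ^ 2 + a * (-(a * q (n + 1)) - ρ * q n) * q (n + 1) +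
        ρ * q (n + 1) ^ 2 = (a * ρ) * (q (n + 1) * q n) + ρ ^ 2 * q n ^ 2 + ρ * q (n + 1) ^ 2 := by ring
    rw [e]
    have e2 : ρ * (q (n + 1) ^ 2 + a * q (n + 1) * q n + ρ * q n ^ 2) =
        (a * ρ) * (q (n + 1) * q n) + ρ ^ 2 * q n ^ 2 + ρ * q (n + 1) ^ 2 := by ring
    rw [e2]
  have hρ7 : 7 / 10 < ρ := by
    by_contra hcon
    push Not at hcon
    have h2 : ρ ^ 2 ≤ (7 / 10) ^ 2 := pow_le_pow_left₀ h0.le hcon 2
    have h3 : ρ ^ 3 ≤ (7 / 10) ^ 3 := pow_le_pow_left₀ h0.le hcon 3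
    norm_num at h2 h3
    linarith
  set d : ℝ := ρ - a ^ 2 / 4 with hd
  have hd0 : 0 < d := by
    rw [hd, ha2]; linarith
  have hNq : ∀ n, d * q n ^ 2 ≤ N n := by
    intro n
    have e : N n = (q (n + 1) + a / 2 * q n) ^ 2 + d * q n ^ 2 := by
      simp only [hN, hd]; ring
    rw [e]
    nlinarith [sq_nonneg (q (n + 1) + a / 2 * q n)]
  have hN0 : ∀ n, 0 ≤ N n := fun n => le_trans (by positivity) (hNq n)
  have hNle : ∀ n, N n ≤ N 0 := by
    intro n
    induction n with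
    | zero => exact le_rfl
    | succ n ih =>
      rw [hNrec n]
      have := hN0 n
      nlinarith
  refine ⟨Real.sqrt (N 0 / d), fun n => ?_⟩
  have hqn : |q n| ≤ Real.sqrt (N 0 / d) := by
    apply Real.abs_le_sqrt
    rw [le_div_iff₀ hd0]
    have := (hNq n).trans (hNle n)
    linarith
  have e : x n * ρ ^ n - c = ρ ^ n * q n := by
    simp only [hq]
    have e1 : ρ ^ n * (x n - c * a ^ n) = x n * ρ ^ n - c * (a * ρ) ^ n := by rw [mul_pow]; ring
    rw [e1, haρ, one_pow, mul_one]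
  rw [e, abs_mul, abs_of_pos (pow_pos h0 n), mul_comm]
  exact mul_le_mul_of_nonneg_right hqn (pow_pos h0 n).le

theorem perrin_conv (D P : ℕ → ℕ) (hD0 : D 0 = 1) (hD1 : D 1 = 0) (hD2 : D 2 = 1)
    (hD : ∀ n, D (n + 3) = D (n + 1) + D n) (hP0 : P 0 = 3) (hP1 : P 1 = 0) (hP2 : P 2 = 2)
    (hP : ∀ n, P (n + 3) = P (n + 1) + P n) (k : ℕ) :
    k * D k = ∑ n ∈ Finset.Icc 1 k, P n * D (k - n) := by
  have hPD : ∀ n, P (n + 3) = 2 * D (n + 1) + 3 * D n := by
    intro n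
    induction n using Nat.strong_induction_on with
    | _ n ih =>
      match n with
      | 0 => rw [hP 0, hP0, zero_add, hP1, hD1, hD0]
      | 1 => rw [hP 1, show 1 + 1 = 2 from rfl, hP2, hP1, hD2, hD1]
      | 2 =>
        have h3 := hP 0
        have h4 := hD 0
        rw [zero_add] at h3 h4
        rw [hP 2, show 2 + 1 = 3 from rfl, h3, h4, hP0, hP1, hP2, hD0, hD1, hD2]
      | (m + 3) =>
        have h1 := ih (m + 1) (by omega)
        have h2 := ih m (by omega)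
        have h3 := hP (m + 3)
        have h4 := hD (m + 1)
        have h5 := hD m
        rw [show m + 3 + 3 = m + 6 by ring, show m + 3 + 1 = m + 4 by ring] at h3 ⊢
        rw [show m + 1 + 3 = m + 4 by ring] at h1 h4
        rw [show m + 1 + 1 = m + 2 by ring] at h1 h4
        omega
  have hsum : ∀ k (f : ℕ → ℕ), ∑ n ∈ Finset.Icc 1 k, f n = ∑ i ∈ Finset.range k, f (i + 1) := by
    intro k f
    induction k with
    | zero => simp
    | succ k ih => rw [Finset.sum_range_succ, ← ih, Finset.sum_Icc_succ_top (by omega)]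
  have key : ∀ k, ∑ i ∈ Finset.range (k + 3), P (i + 1) * D (k + 3 - (i + 1)) =
      ∑ i ∈ Finset.range (k + 1), P (i + 1) * D (k + 1 - (i + 1)) +
      ∑ i ∈ Finset.range k, P (i + 1) * D (k - (i + 1)) + P (k + 3) := by
    intro k
    rw [Finset.sum_range_succ, Finset.sum_range_succ, Finset.sum_range_succ,
      Finset.sum_range_succ (fun i => P (i + 1) * D (k + 1 - (i + 1))) k]
    have e1 : ∑ i ∈ Finset.range k, P (i + 1) * D (k + 3 - (i + 1)) =
        ∑ i ∈ Finset.range k, P (i + 1) * D (k + 1 - (i + 1)) +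
          ∑ i ∈ Finset.range k, P (i + 1) * D (k - (i + 1)) := by
      rw [← Finset.sum_add_distrib]
      refine Finset.sum_congr rfl fun i hi => ?_
      have hi' := Finset.mem_range.mp hi
      have h1 := hD (k - (i + 1))
      rw [show k - (i + 1) + 3 = k + 3 - (i + 1) by omega,
        show k - (i + 1) + 1 = k + 1 - (i + 1) by omega] at h1
      rw [h1, mul_add]
    rw [e1, show k + 3 - (k + 1) = 2 by omega, show k + 3 - (k + 1 + 1) = 1 by omega,
      show k + 3 - (k + 2 + 1) = 0 by omega, show k + 1 - (k + 1) = 0 by omega,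
      hD0, hD1, hD2, show k + 2 + 1 = k + 3 by ring]
    ring
  induction k using Nat.strong_induction_on with
  | _ k ih =>
    match k with
    | 0 => simp
    | 1 => simp [hP1, hD1]
    | 2 =>
      rw [hsum 2, Finset.sum_range_succ, Finset.sum_range_succ, Finset.sum_range_zero]
      simp [hP1, hP2, hD0, hD2]
    | (m + 3) =>
      have h1 := ih (m + 1) (by omega)
      have h2 := ih m (by omega)
      rw [hsum] at h1 h2 ⊢
      rw [key m, ← h1, ← h2, hPD m, hD m]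
      ring

end Pool.Agent.K4H31.MZ
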