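import Pool.Agent.K4H31.MZ.Star
import Pool.Agent.K4H31.MZ.Rec

/-! The inequality `k dim Z_k ≤ ∑ P(n) dim Z_(k-n)`. -/

set_option autoImplicit false

open Finset Module

namespace Pool.Agent.K4H31.MZ

open Pool.Agent.K4H54.MZ

theorem P_zero : P 0 = 3 := rfl
theorem P_one : P 1 = 0 := rfl
theorem P_two : P 2 = 2 := rfl
theorem P_rec (n : ℕ) : P (n + 3) = P (n + 1) + P n := rfl

theorem conv (k : ℕ) : k * D k = ∑ n ∈ Icc 1 k, P n * D (k - n) :=
  perrin_conv D P D_zero D_one D_two D_rec P_zero P_one P_two P_rec k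

section

variable {J : Type} [LinearOrder J] (T : Pres J)

/-- the numbers `σ_n` of the presentation are the Perrin numbers -/
theorem sig_eq (k : ℕ) (hk : 1 ≤ k) : sig T.d (E T) k = P k := by
  induction k using Nat.strong_induction_on with
  | _ k ih =>
    have h1 := count_eq (d := T.d) (E T) (mem_E T) k
    simp only [card_E] at h1
    rw [conv k] at h1
    have hsplit : ∀ f : ℕ → ℕ, ∑ n ∈ Icc 1 k, f n = ∑ n ∈ Icc 1 (k - 1), f n + f k := by
      intro f
      obtain ⟨j, rfl⟩ := Nat.exists_eq_add_of_le' hk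
      rw [Nat.add_sub_cancel, Finset.sum_Icc_succ_top (by omega)]
    rw [hsplit, hsplit] at h1
    have h2 : ∑ n ∈ Icc 1 (k - 1), sig T.d (E T) n * D (k - n) =
        ∑ n ∈ Icc 1 (k - 1), P n * D (k - n) := by
      refine sum_congr rfl fun n hn => ?_
      rw [mem_Icc] at hn
      rw [ih n (by omega) hn.1]
    rw [h2, Nat.sub_self, D_zero, mul_one, mul_one] at h1
    exact add_left_cancel h1

variable {per : (Bas →₀ ℚ) →ₗ[ℚ] ℝ} (hper : IsPeriodMap per)

include T hper in
theorem ineq' (k : ℕ) : k * finrank ℚ (Z k) ≤ ∑ n ∈ Icc 1 k, P n * finrank ℚ (Z (k - n)) := by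
  have h1 := ideal_le T.d (E T) (mem_E T) (fun k => K T per k)
    (fun k p hp s hs => (mem_E T k s).2 ((mem_R T).1 (Submodule.mem_inf.1 hp).1 s hs))
    (by
      intro k p hp x
      obtain ⟨hp1, hp2⟩ := Submodule.mem_inf.1 hp
      refine Submodule.mem_inf.2 ⟨?_, ?_⟩
      · rw [mem_R]
        intro s hs
        rw [MvPolynomial.mem_support_iff, MvPolynomial.coeff_monomial_mul'] at hs
        split_ifs at hs with hxs
        · rw [one_mul] at hs
          have := (mem_R T).1 hp1 (s - x) (MvPolynomial.mem_support_iff.2 hs)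
          rw [← this, ← map_add, add_tsub_cancel_of_le hxs]
        · exact absurd rfl hs
      · rw [LinearMap.mem_ker, LinearMap.comp_apply] at hp2 ⊢
        rw [T.mul, hper.2.1, hp2, mul_zero]) k
  have h2 : ∀ j, finrank ℚ (Z j) + finrank ℚ (K T per j) = D j := fun j => finrank_add T hper j
  have h3 : ∑ n ∈ Icc 1 k, sig T.d (E T) n * finrank ℚ (K T per (k - n)) =
      ∑ n ∈ Icc 1 k, P n * finrank ℚ (K T per (k - n)) := by
    refine sum_congr rfl fun n hn => ?_
    rw [mem_Icc] at hn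
    rw [sig_eq T n hn.1]
  rw [h3] at h1
  have h4 : ∑ n ∈ Icc 1 k, P n * finrank ℚ (Z (k - n)) +
      ∑ n ∈ Icc 1 k, P n * finrank ℚ (K T per (k - n)) = k * D k := by
    rw [conv k, ← sum_add_distrib]
    refine sum_congr rfl fun n _ => ?_
    rw [← mul_add, h2]
  have h5 : k * finrank ℚ (Z k) + k * finrank ℚ (K T per k) = k * D k := by
    rw [← mul_add, h2]
  omega

end

/-- **The inequality for the dimensions of the spaces of multiple zeta values.** -/
theorem ineq {per : (Bas →₀ ℚ) →ₗ[ℚ] ℝ} (hper : IsPeriodMap per) (k : ℕ) :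
    k * finrank ℚ (Z k) ≤ ∑ n ∈ Icc 1 k, P n * finrank ℚ (Z (k - n)) := by
  obtain ⟨J, ⟨T⟩⟩ := exists_pres
  classical
  let _ : LinearOrder J := linearOrderOfSTO (WellOrderingRel)
  exact ineq' T hper k

end Pool.Agent.K4H31.MZ
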