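import Pool.Agent.K4H31.MZ.Leray

/-!
# Leray's theorem inside a homogeneous subalgebra stable under the derivations

A generating set of homogeneous elements contains an algebraically independent generating set.
-/

set_option autoImplicit false

open MvPolynomial

namespace Pool.Agent.K4H31.MZ

namespace LerayAux

/-- a family in `T` which is a basis of the span of `T` modulo `D`, with dual functionals -/
theorem exists_family' {A : Type} [AddCommGroup A] [Module ℚ A] (D : Submodule ℚ A) (T : Set A) :
    ∃ (K : Type) (x : K → A) (l : K → (A →ₗ[ℚ] ℚ)), (∀ k, x k ∈ T) ∧ (∀ k, ∀ y ∈ D, l k y = 0) ∧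
      (∀ k, l k (x k) = 1) ∧ (∀ k k', k ≠ k' → l k (x k') = 0) ∧
      ∀ y ∈ T, y ∈ D ⊔ Submodule.span ℚ (Set.range x) := by
  obtain ⟨b, hbT, hbs, hbi⟩ := exists_linearIndependent ℚ (D.mkQ '' T)
  have h1 : ∀ k : b, ∃ y ∈ T, D.mkQ y = (k : A ⧸ D) := fun k => hbT k.2
  choose x hx hx' using h1
  have h2 : ∀ k : b, ∃ g : (A ⧸ D) →ₗ[ℚ] ℚ,
      g ∘ₗ (Submodule.span ℚ (Set.range (Subtype.val : b → A ⧸ D))).subtype =
        (Module.Basis.span hbi).coord k := fun k => LinearMap.exists_extend _
  choose g hg using h2
  have hgx : ∀ k k', g k (D.mkQ (x k')) = (Module.Basis.span hbi).coord k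
      (Module.Basis.span hbi k') := by
    intro k k'
    rw [hx', ← hg k, LinearMap.comp_apply, Submodule.subtype_apply, Module.Basis.span_apply]
  refine ⟨b, x, fun k => g k ∘ₗ D.mkQ, hx, ?_, ?_, ?_, ?_⟩
  · intro k y hy
    have : D.mkQ y = 0 := (Submodule.Quotient.mk_eq_zero D).2 hy
    rw [LinearMap.comp_apply, this, map_zero]
  · intro k
    rw [LinearMap.comp_apply, hgx]
    simp
  · intro k k' hk
    rw [LinearMap.comp_apply, hgx]
    simp [hk.symm]
  · intro y hy
    have h3 : D.mkQ y ∈ Submodule.span ℚ b := by
      rw [hbs]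
      exact Submodule.subset_span ⟨y, hy, rfl⟩
    have h4 : Submodule.span ℚ b ≤ (Submodule.span ℚ (Set.range x)).map D.mkQ := by
      rw [Submodule.span_le]
      intro z hz
      exact ⟨x ⟨z, hz⟩, Submodule.subset_span ⟨_, rfl⟩, hx' ⟨z, hz⟩⟩
    obtain ⟨z, hz, hz'⟩ := h4 h3
    have h5 : y - z ∈ D := by
      rw [← (Submodule.Quotient.mk_eq_zero D)]
      have : D.mkQ (y - z) = 0 := by rw [map_sub, hz', sub_self]
      exact this
    have h6 : y = (y - z) + z := by abel
    rw [h6]
    exact Submodule.add_mem_sup h5 hz

/-- the core of `leray`: a homogeneous family which is a basis modulo the decomposable elements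
is a system of polynomial generators -/
theorem leray_core {A : Type} [CommRing A] [Nontrivial A] [Algebra ℚ A] (G : ℕ → Submodule ℚ A)
    (hG : DirectSum.IsInternal G) (h1 : (1 : A) ∈ G 0)
    (hmul : ∀ m n x y, x ∈ G m → y ∈ G n → x * y ∈ G (m + n))
    (hG0 : ∀ x ∈ G 0, ∃ c : ℚ, x = algebraMap ℚ A c)
    {ι : Type} (w : ι → ℕ) (hw : ∀ i, 0 < w i) (δ : ι → Derivation ℚ A A)
    (hδ : ∀ i n x, x ∈ G (n + w i) → δ i x ∈ G n)
    (hδ' : ∀ i n x, n < w i → x ∈ G n → δ i x = 0)
    (hker : ∀ n, 0 < n → ∀ x ∈ G n, (∀ i, δ i x = 0) → x = 0)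
    {J : Type} (d : J → ℕ) (x : J → A) (l : J → (A →ₗ[ℚ] ℚ)) (hd : ∀ j, 0 < d j)
    (hx : ∀ j, x j ∈ G (d j))
    (hspan : ∀ n, 0 < n → G n ≤ dec G n ⊔ Submodule.span ℚ {y | ∃ j, d j = n ∧ y = x j})
    (hl1 : ∀ j, l j (x j) = 1) (hl2 : ∀ j j', d j' = d j → j ≠ j' → l j (x j') = 0)
    (hl3 : ∀ j, ∀ y ∈ dec G (d j), l j y = 0) :
    Function.Bijective (MvPolynomial.aeval x : MvPolynomial J ℚ →ₐ[ℚ] A) := by
  classical
  have hlift := exists_lift G d x hG0 hspan
  refine ⟨?_, ?_⟩
  · -- injectivity
    -- the derivations of the polynomial ring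
    have hPex : ∀ i j, ∃ P : MvPolynomial J ℚ, (∀ n, n + w i = d j → IsWeightedHomogeneous d P n) ∧
        (d j < w i → P = 0) ∧ aeval x P = δ i (x j) := by
      intro i j
      rcases lt_or_ge (d j) (w i) with h | h
      · exact ⟨0, fun n hn => isWeightedHomogeneous_zero _ _ _, fun _ => rfl, by
          rw [map_zero, hδ' i (d j) (x j) h (hx j)]⟩
      · obtain ⟨P, hP, hP'⟩ := hlift (d j - w i) (δ i (x j)) (hδ i _ _ (by
          rw [Nat.sub_add_cancel h]; exact hx j))
        refine ⟨P, fun n hn => ?_, fun h' => absurd h' (by omega), hP'⟩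
        have : n = d j - w i := by omega
        rw [this]
        exact hP
    choose P hP1 hP2 hP3 using hPex
    have hD : ∀ i f, aeval x (mkDerivation ℚ (P i) f) = δ i (aeval x f) :=
      fun i f => aeval_mkDerivation x (δ i) (P i) (hP3 i) f
    have hDw : ∀ i n f, IsWeightedHomogeneous d f n →
        (∀ m, m + w i = n → IsWeightedHomogeneous d (mkDerivation ℚ (P i) f) m) ∧
          (n < w i → mkDerivation ℚ (P i) f = 0) :=
      fun i n f hf => mkDerivation_weight d (w i) (P i) (hP1 i) (hP2 i) n f hf
    -- the main induction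
    have main : ∀ N, ∀ f : MvPolynomial J ℚ, IsWeightedHomogeneous d f N → aeval x f = 0 →
        f = 0 := by
      intro N
      induction N using Nat.strong_induction_on with
      | _ N ih =>
      intro f hf hf0
      by_contra hne
      -- the derivatives vanish
      have hDf : ∀ i, mkDerivation ℚ (P i) f = 0 := by
        intro i
        rcases lt_or_ge N (w i) with h | h
        · exact (hDw i N f hf).2 h
        · refine ih (N - w i) (by have := hw i; omega) _
            ((hDw i N f hf).1 _ (Nat.sub_add_cancel h)) ?_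
          rw [hD, hf0, map_zero]
      rcases Finset.eq_empty_or_nonempty f.vars with hv | hv
      · -- constants
        rw [MvPolynomial.vars_eq_empty_iff_eq_C] at hv
        rw [hv, aeval_C] at hf0
        have h2 : coeff 0 f = 0 :=
          (algebraMap ℚ A).injective (hf0.trans (map_zero (algebraMap ℚ A)).symm)
        rw [h2, C_0] at hv
        exact hne hv
      · obtain ⟨j, hj, hjmax⟩ := Finset.exists_max_image f.vars d hv
        -- `pderiv j f` is not zero
        obtain ⟨s, hs, hsj⟩ := (mem_vars_iff_mem_support j).1 hj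
        have hsj' : s j ≠ 0 := by simpa using hsj
        have h2 : Finsupp.single j 1 ≤ s := by
          rw [Finsupp.single_le_iff]
          omega
        obtain ⟨t, rfl⟩ := exists_add_of_le h2
        have hsw : Finsupp.weight d (Finsupp.single j 1 + t) = N := hf (mem_support_iff.1 hs)
        have h4 : Finsupp.weight d (Finsupp.single j 1) = d j := by simp [Finsupp.weight_single]
        have hjN : d j ≤ N := by
          rw [map_add, h4] at hsw
          omega
        have hg0 : pderiv j f ≠ 0 := by
          intro h
          have h5 := congrArg (coeff t) h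
          rw [coeff_pderiv, coeff_zero, add_comm t] at h5
          rcases mul_eq_zero.1 h5 with h6 | h6
          · exact mem_support_iff.1 hs h6
          · have : (0 : ℚ) ≤ (t j : ℚ) := Nat.cast_nonneg _
            linarith
        have hgw : IsWeightedHomogeneous d (pderiv j f) (N - d j) :=
          hf.pderiv (Nat.sub_add_cancel hjN)
        rcases hjN.lt_or_eq with hlt | heq
        · -- the derivatives of `pderiv j f` vanish
          have hDg : ∀ i, mkDerivation ℚ (P i) (pderiv j f) = 0 := by
            intro i
            have h5 : ⁅mkDerivation ℚ (P i), (pderiv j : Derivation ℚ (MvPolynomial J ℚ) _)⁆ f = 0 := by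
              refine derivation_eq_zero_of_forall_mem_vars fun k hk => ?_
              rw [Derivation.commutator_apply, mkDerivation_X]
              have h6 : mkDerivation ℚ (P i) (pderiv j (X k)) = 0 := by
                rw [pderiv_X]
                by_cases hjk : k = j
                · subst hjk
                  simp
                · simp [Pi.single_apply, hjk]
              have h7 : pderiv j (P i k) = 0 := by
                refine pderiv_eq_zero_of_notMem_vars fun h8 => ?_
                obtain ⟨s', hs', hsj'⟩ := (mem_vars_iff_mem_support j).1 h8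
                have hsj'' : s' j ≠ 0 := by simpa using hsj'
                rcases lt_or_ge (d k) (w i) with h9 | h9
                · rw [hP2 i k h9] at hs'
                  simp at hs'
                · have h10 := hP1 i k (d k - w i) (Nat.sub_add_cancel h9) (mem_support_iff.1 hs')
                  have h11 := le_weight' d s' j hsj''
                  have h12 := hjmax k hk
                  have h13 := hw i
                  omega
              rw [h6, h7, sub_zero]
            rw [Derivation.commutator_apply, hDf i, map_zero, sub_zero] at h5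
            exact h5
          refine hg0 (ih (N - d j) (by have := hd j; omega) _ hgw ?_)
          refine hker (N - d j) (by omega) _ (aeval_mem G d x h1 hmul hx _ _ hgw) fun i => ?_
          rw [← hD, hDg, map_zero]
        · -- `N = d j`
          have h5 : aeval x f = ∑ s ∈ f.support, coeff s f • aeval x (monomial s (1 : ℚ)) := by
            conv_lhs => rw [f.as_sum]
            rw [map_sum]
            refine Finset.sum_congr rfl fun s _ => ?_
            rw [monomial_smul, map_smul]
          have h6 : l j (aeval x f) = coeff (Finsupp.single j 1) f := by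
            rw [h5, map_sum, Finset.sum_eq_single (Finsupp.single j 1)]
            · rw [map_smul]
              have : (monomial (Finsupp.single j 1) (1 : ℚ)) = X j := rfl
              rw [this, aeval_X, hl1, smul_eq_mul, mul_one]
            · intro s' hs' hne'
              have hw' : Finsupp.weight d s' = d j := by
                rw [heq]; exact hf (mem_support_iff.1 hs')
              rw [map_smul]
              have : l j (aeval x (monomial s' (1 : ℚ))) = 0 := by
                by_cases h7 : ∃ k, s' = Finsupp.single k 1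
                · obtain ⟨k, rfl⟩ := h7
                  have : (monomial (Finsupp.single k 1) (1 : ℚ)) = X k := rfl
                  rw [this, aeval_X]
                  have hk4 : Finsupp.weight d (Finsupp.single k 1) = d k := by
                    simp [Finsupp.weight_single]
                  rw [hk4] at hw'
                  refine hl2 j k hw' fun h8 => hne' ?_
                  rw [h8]
                · push Not at h7
                  have h8 := aeval_monomial_mem_dec G d x h1 hmul hx hd s' (by
                    rintro rfl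
                    rw [map_zero] at hw'
                    have := hd j
                    omega) h7
                  rw [hw'] at h8
                  exact hl3 j _ h8
              rw [this, smul_zero]
            · intro h7
              rw [notMem_support_iff.1 h7, zero_smul, map_zero]
          rw [hf0, map_zero] at h6
          have h7 : t = 0 := by
            by_contra ht
            obtain ⟨i, hi⟩ : ∃ j, t j ≠ 0 := by
              by_contra h
              push Not at h
              exact ht (Finsupp.ext h)
            have h8 := le_weight' d t i hi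
            rw [map_add, h4] at hsw
            have := hd i
            omega
          subst h7
          rw [add_zero] at hs
          exact mem_support_iff.1 hs h6.symm
    -- injectivity
    rw [injective_iff_map_eq_zero]
    intro f hf
    have h2 : ∀ N, weightedHomogeneousComponent d N f = 0 := by
      have hfin := weightedHomogeneousComponent_finsupp (w := d) f
      have h3 := sum_weightedHomogeneousComponent d f
      rw [finsum_eq_sum _ hfin] at h3
      have h4 := (iSupIndep_iff_finsetSum_eq_zero_imp_eq_zero G).1 hG.submodule_iSupIndep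
        hfin.toFinset (fun N => aeval x (weightedHomogeneousComponent d N f))
        (fun N _ => aeval_mem G d x h1 hmul hx _ _
          (weightedHomogeneousComponent_isWeightedHomogeneous N f)) (by
          rw [← map_sum, h3, hf])
      intro N
      by_contra hN
      exact hN (main N _ (weightedHomogeneousComponent_isWeightedHomogeneous N f)
        (h4 N ((Set.Finite.mem_toFinset hfin).2 hN)))
    rw [← sum_weightedHomogeneousComponent d f]
    simp [h2]
  · -- surjectivity
    intro y
    have h2 : y ∈ iSup G := by
      rw [hG.submodule_iSup_eq_top]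
      exact Submodule.mem_top
    have h3 : iSup G ≤ LinearMap.range (aeval x : MvPolynomial J ℚ →ₐ[ℚ] A).toLinearMap := by
      refine iSup_le fun n z hz => ?_
      obtain ⟨p, _, hp⟩ := hlift n z hz
      exact ⟨p, hp⟩
    obtain ⟨p, hp⟩ := h3 h2
    exact ⟨p, hp⟩

end LerayAux

open LerayAux

theorem leray_sub {B : Type} [CommRing B] [Nontrivial B] [Algebra ℚ B] (G : ℕ → Submodule ℚ B)
    (hG : DirectSum.IsInternal G) (h1 : (1 : B) ∈ G 0)
    (hmul : ∀ m n x y, x ∈ G m → y ∈ G n → x * y ∈ G (m + n))
    (hG0 : ∀ x ∈ G 0, ∃ c : ℚ, x = algebraMap ℚ B c)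
    {ι : Type} (w : ι → ℕ) (hw : ∀ i, 0 < w i) (δ : ι → Derivation ℚ B B)
    (hδ : ∀ i n x, x ∈ G (n + w i) → δ i x ∈ G n)
    (hδ' : ∀ i n x, n < w i → x ∈ G n → δ i x = 0)
    (hker : ∀ n, 0 < n → ∀ x ∈ G n, (∀ i, δ i x = 0) → x = 0)
    (S : Set B) (hS : ∀ x ∈ S, ∃ n, 0 < n ∧ x ∈ G n)
    (hSδ : ∀ x ∈ S, ∀ i, δ i x ∈ Algebra.adjoin ℚ S) :
    ∃ J ⊆ S, AlgebraicIndependent ℚ (Subtype.val : J → B) ∧
      Algebra.adjoin ℚ J = Algebra.adjoin ℚ S := by
  classical
  set A : Subalgebra ℚ B := Algebra.adjoin ℚ S with hA
  -- the grading of `A`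
  let G' : ℕ → Submodule ℚ A := fun n => (G n).comap A.val.toLinearMap
  have memG' : ∀ n (a : A), a ∈ G' n ↔ (a : B) ∈ G n := fun n a => Iff.rfl
  have hSA : ∀ s ∈ S, s ∈ A := fun s hs => Algebra.subset_adjoin hs
  have h1' : (1 : A) ∈ G' 0 := h1
  have hmul' : ∀ m n x y, x ∈ G' m → y ∈ G' n → x * y ∈ G' (m + n) :=
    fun m n x y hx hy => hmul m n _ _ hx hy
  have hG0' : ∀ x ∈ G' 0, ∃ c : ℚ, x = algebraMap ℚ A c := by
    intro x hx
    obtain ⟨c, hc⟩ := hG0 _ hx
    exact ⟨c, Subtype.ext hc⟩
  have hind : ∀ (f : ℕ →₀ A), (∀ n, f n ∈ G' n) → (f.sum fun _ y => y) = 0 → f = 0 := by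
    intro f hf h0
    have h4 := (iSupIndep_iff_finsetSum_eq_zero_imp_eq_zero G).1 hG.submodule_iSupIndep
        f.support (fun n => ((f n : A) : B)) (fun n _ => hf n) (by
          have := congrArg (Subtype.val : A → B) h0
          rw [Finsupp.sum] at this
          simpa using this)
    ext1 n
    by_cases hn : n ∈ f.support
    · exact Subtype.ext (h4 n hn)
    · simpa using hn
  -- the derivations of `A`
  have hstab : ∀ i, ∀ a ∈ A, δ i a ∈ A := by
    intro i a ha
    refine Algebra.adjoin_induction (fun x hx => hSδ x hx i) (fun r => ?_) (fun x y _ _ hx hy => ?_)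
      (fun x y hxA hyA hx hy => ?_) ha
    · rw [Derivation.map_algebraMap]
      exact A.zero_mem
    · rw [map_add]
      exact A.add_mem hx hy
    · rw [Derivation.leibniz, smul_eq_mul, smul_eq_mul]
      exact A.add_mem (A.mul_mem hxA hy) (A.mul_mem hyA hx)
  let δ' : ι → Derivation ℚ A A := fun i => Derivation.mk'
    { toFun := fun a => ⟨δ i a, hstab i a a.2⟩
      map_add' := fun a b => Subtype.ext (by simp)
      map_smul' := fun r a => Subtype.ext (by simp) }
    (fun a b => Subtype.ext (by simp))
  have coeδ : ∀ i (a : A), ((δ' i a : A) : B) = δ i (a : B) := fun i a => rfl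
  -- the spanning property
  obtain ⟨M, hM0, hMpos⟩ : ∃ M : ℕ → Submodule ℚ A, M 0 = G' 0 ∧ ∀ n, 0 < n →
      M n = dec G' n ⊔ Submodule.span ℚ {a | (a : B) ∈ S ∧ a ∈ G' n} :=
    ⟨fun n => if n = 0 then G' 0 else dec G' n ⊔ Submodule.span ℚ {a | (a : B) ∈ S ∧ a ∈ G' n},
      if_pos rfl, fun n hn => if_neg (by omega)⟩
  have hdecG : ∀ n, dec G' n ≤ G' n := by
    intro n
    refine Submodule.span_le.2 ?_
    rintro z ⟨p, q, x, y, -, -, hpq, hx, hy, rfl⟩
    rw [← hpq]
    exact hmul' _ _ _ _ hx hy
  have hMG : ∀ n, M n ≤ G' n := by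
    intro n
    rcases Nat.eq_zero_or_pos n with rfl | hn
    · rw [hM0]
    · rw [hMpos n hn]
      exact sup_le (hdecG n) (Submodule.span_le.2 fun a ha => ha.2)
  have hMtop : iSup M = ⊤ := by
    rw [eq_top_iff]
    rintro ⟨a, ha⟩ -
    have hMmul : ∀ x y : A, x ∈ iSup M → y ∈ iSup M → x * y ∈ iSup M := by
      intro x y hx hy
      induction hx using Submodule.iSup_induction' with
      | mem p x hx =>
        induction hy using Submodule.iSup_induction' with
        | mem q y hy =>
          rcases Nat.eq_zero_or_pos p with rfl | hp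
          · obtain ⟨c, rfl⟩ := hG0' x (hMG 0 hx)
            rw [← Algebra.smul_def]
            exact Submodule.smul_mem _ _ (Submodule.mem_iSup_of_mem q hy)
          · rcases Nat.eq_zero_or_pos q with rfl | hq
            · obtain ⟨c, rfl⟩ := hG0' y (hMG 0 hy)
              rw [mul_comm, ← Algebra.smul_def]
              exact Submodule.smul_mem _ _ (Submodule.mem_iSup_of_mem p hx)
            · refine Submodule.mem_iSup_of_mem (p + q) ?_
              rw [hMpos (p + q) (by omega)]
              exact Submodule.mem_sup_left (Submodule.subset_span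
                ⟨p, q, x, y, hp, hq, rfl, hMG p hx, hMG q hy, rfl⟩)
        | zero => rw [mul_zero]; exact Submodule.zero_mem _
        | add y z _ _ hy hz => rw [mul_add]; exact Submodule.add_mem _ hy hz
      | zero => rw [zero_mul]; exact Submodule.zero_mem _
      | add y z _ _ hy hz => rw [add_mul]; exact Submodule.add_mem _ hy hz
    refine Algebra.adjoin_induction (p := fun a ha => (⟨a, ha⟩ : A) ∈ iSup M) (fun x hx => ?_)
      (fun r => ?_) (fun x y hxA hyA hx hy => ?_) (fun x y hxA hyA hx hy => ?_) ha
    · obtain ⟨n, hn, hxn⟩ := hS x hx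
      refine Submodule.mem_iSup_of_mem n ?_
      rw [hMpos n hn]
      exact Submodule.mem_sup_right (Submodule.subset_span ⟨hx, hxn⟩)
    · refine Submodule.mem_iSup_of_mem 0 ?_
      rw [hM0]
      have : (⟨algebraMap ℚ B r, A.algebraMap_mem r⟩ : A) = r • (1 : A) :=
        Subtype.ext (by simp [Algebra.smul_def])
      rw [this]
      exact Submodule.smul_mem _ _ h1'
    · exact Submodule.add_mem _ hx hy
    · exact hMmul _ _ hx hy
  have hGM : ∀ n, G' n ≤ M n := by
    intro n a ha
    have h2 : a ∈ iSup M := by rw [hMtop]; exact Submodule.mem_top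
    obtain ⟨f, hf, hfa⟩ := (Submodule.mem_iSup_iff_exists_finsupp M a).1 h2
    have h3 := hind (f - Finsupp.single n a) (fun m => ?_) ?_
    · have h4 : f = Finsupp.single n a := sub_eq_zero.1 h3
      have h5 := hf n
      rw [h4, Finsupp.single_eq_same] at h5
      exact h5
    · rw [Finsupp.sub_apply]
      refine Submodule.sub_mem _ (hMG m (hf m)) ?_
      rw [Finsupp.single_apply]
      split_ifs with h
      · rw [← h]; exact ha
      · exact Submodule.zero_mem _
    · rw [Finsupp.sum_sub_index (fun _ _ _ => rfl), hfa, Finsupp.sum_single_index rfl, sub_self]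
  have hG' : DirectSum.IsInternal G' := by
    rw [DirectSum.isInternal_submodule_iff_iSupIndep_and_iSup_eq_top]
    constructor
    · rw [iSupIndep_iff_finsetSum_eq_zero_imp_eq_zero]
      intro s v hv h0 n hn
      have h4 := (iSupIndep_iff_finsetSum_eq_zero_imp_eq_zero G).1 hG.submodule_iSupIndep
        s (fun n => ((v n : A) : B)) (fun n hn => hv n hn) (by
          have := congrArg (Subtype.val : A → B) h0
          simpa using this)
      exact Subtype.ext (h4 n hn)
    · rw [eq_top_iff, ← hMtop]
      exact iSup_mono hMG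
  -- the choice of the generators
  choose K x₀ l₀ hx₀ hl₀ hl₁ hl₂ hs₀ using fun n : ℕ =>
    exists_family' (dec G' n) {a : A | (a : B) ∈ S ∧ a ∈ G' n}
  let J : Type := Σ n : {n : ℕ // 0 < n}, K n.1
  let d : J → ℕ := fun j => j.1.1
  let x : J → A := fun j => x₀ j.1.1 j.2
  let l : J → (A →ₗ[ℚ] ℚ) := fun j => l₀ j.1.1 j.2
  have hcore := leray_core G' hG' h1' hmul' hG0' w hw δ'
    (fun i n x hx => hδ i n _ hx)
    (fun i n x hn hx => Subtype.ext (hδ' i n _ hn hx))
    (fun n hn x hx h => Subtype.ext (hker n hn _ hx fun i => congrArg Subtype.val (h i)))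
    d x l (fun j => j.1.2) (fun j => (hx₀ _ _).2)
    (by
      intro n hn
      refine (hGM n).trans ?_
      rw [hMpos n hn]
      refine sup_le le_sup_left (Submodule.span_le.2 fun a ha => ?_)
      have h5 : Submodule.span ℚ (Set.range (x₀ n)) ≤
          Submodule.span ℚ {y | ∃ j, d j = n ∧ y = x j} := by
        refine Submodule.span_mono ?_
        rintro y ⟨k, rfl⟩
        exact ⟨⟨⟨n, hn⟩, k⟩, rfl, rfl⟩
      exact (sup_le_sup_left h5 (dec G' n)) (hs₀ n a ha))
    (fun j => hl₁ _ _)
    (by
      rintro ⟨⟨n, hn⟩, k⟩ ⟨⟨n', hn'⟩, k'⟩ h h'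
      have h : n' = n := h
      subst h
      refine hl₂ _ _ _ fun h2 => h' ?_
      subst h2
      rfl)
    (fun j y hy => hl₀ _ _ y hy)
  have hval : (aeval fun j => ((x j : A) : B)) = A.val.comp (aeval x : MvPolynomial J ℚ →ₐ[ℚ] A) := by
    refine MvPolynomial.algHom_ext fun j => ?_
    simp
  have hinj : AlgebraicIndependent ℚ (fun j => ((x j : A) : B)) := by
    unfold AlgebraicIndependent
    rw [hval]
    exact Subtype.val_injective.comp hcore.1
  refine ⟨Set.range fun j => ((x j : A) : B), ?_, hinj.coe_range, ?_⟩
  · rintro _ ⟨j, rfl⟩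
    exact (hx₀ _ _).1
  · refine le_antisymm (Algebra.adjoin_mono ?_) ?_
    · rintro _ ⟨j, rfl⟩
      exact (hx₀ _ _).1
    · intro a ha
      rw [Algebra.adjoin_range_eq_range_aeval, hval]
      obtain ⟨p, hp⟩ := hcore.2 ⟨a, ha⟩
      refine ⟨p, ?_⟩
      change ((aeval x p : A) : B) = a
      rw [hp]

end Pool.Agent.K4H31.MZ
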