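import Pool.Agent.K4H31.MZ.Mon

/-! Leading monomials: a homogeneous ideal of a polynomial ring and the set of its leading monomials
have the same Hilbert function. -/

set_option autoImplicit false
set_option linter.unusedSectionVars false

open Finset Module

namespace Pool.Agent.K4H31.MZ

variable {J : Type} [LinearOrder J]

/-- `s` is the leading exponent of `p` (for the lexicographic order) -/
def IsLead (p : MvPolynomial J ℚ) (s : J →₀ ℕ) : Prop :=
  s ∈ p.support ∧ ∀ t ∈ p.support, toLex t ≤ toLex s

theorem exists_lead {p : MvPolynomial J ℚ} (hp : p ≠ 0) : ∃ s, IsLead p s := by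
  obtain ⟨s, hs, h⟩ := exists_max_image p.support (fun t => toLex t)
    (MvPolynomial.support_nonempty.2 hp)
  exact ⟨s, hs, h⟩

theorem isLead_mul {p : MvPolynomial J ℚ} {s : J →₀ ℕ} (h : IsLead p s) (x : J →₀ ℕ) :
    IsLead (MvPolynomial.monomial x (1 : ℚ) * p) (x + s) := by
  have hc : ∀ t, MvPolynomial.coeff (x + t) (MvPolynomial.monomial x (1 : ℚ) * p) =
      MvPolynomial.coeff t p := by
    intro t
    rw [MvPolynomial.coeff_monomial_mul, one_mul]
  refine ⟨?_, ?_⟩
  · rw [MvPolynomial.mem_support_iff, hc]
    exact MvPolynomial.mem_support_iff.1 h.1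
  · intro t ht
    rw [MvPolynomial.mem_support_iff, MvPolynomial.coeff_monomial_mul'] at ht
    split_ifs at ht with hxt
    · obtain ⟨t', rfl⟩ := exists_add_of_le hxt
      have h1 : t' ∈ p.support := by
        rw [MvPolynomial.mem_support_iff]
        rw [one_mul, add_tsub_cancel_left] at ht
        exact ht
      have h2 := h.2 t' h1
      rw [toLex_add, toLex_add]
      exact add_le_add_right h2 _
    · exact absurd rfl ht

/-- the exponents of leading monomials of elements of `V` -/
def leads (V : Submodule ℚ (MvPolynomial J ℚ)) : Set (J →₀ ℕ) := {s | ∃ p ∈ V, IsLead p s}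

/-- the number of leading monomials is the dimension -/
theorem finrank_eq_card (V : Submodule ℚ (MvPolynomial J ℚ)) (E : Finset (J →₀ ℕ))
    (hV : ∀ p ∈ V, ∀ s ∈ p.support, s ∈ E) (S : Finset (J →₀ ℕ)) (hS : ∀ s, s ∈ S ↔ s ∈ leads V) :
    finrank ℚ V = S.card ∧ FiniteDimensional ℚ V := by
  classical
  -- the restriction of the coefficients to `S` is injective
  let f : V →ₗ[ℚ] (S → ℚ) :=
    { toFun := fun p s => MvPolynomial.coeff s.1 p.1
      map_add' := fun p q => by
        funext s
        simp
      map_smul' := fun c p => by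
        funext s
        simp }
  have hf : Function.Injective f := by
    rw [injective_iff_map_eq_zero]
    rintro ⟨p, hp⟩ h
    by_contra hne
    have hp0 : p ≠ 0 := by
      intro h0
      exact hne (Subtype.ext h0)
    obtain ⟨s, hs⟩ := exists_lead hp0
    have hsS : s ∈ S := (hS s).2 ⟨p, hp, hs⟩
    have := congrFun h ⟨s, hsS⟩
    exact (MvPolynomial.mem_support_iff.1 hs.1) this
  have hfin : FiniteDimensional ℚ V := FiniteDimensional.of_injective f hf
  refine ⟨le_antisymm ?_ ?_, hfin⟩
  · have := LinearMap.finrank_le_finrank_of_injective hf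
    rwa [finrank_pi, Fintype.card_coe] at this
  · have hch : ∀ s : S, ∃ p : V, IsLead p.1 s.1 := by
      rintro ⟨s, hs⟩
      obtain ⟨p, hp, h⟩ := (hS s).1 hs
      exact ⟨⟨p, hp⟩, h⟩
    choose g hg using hch
    have hli : LinearIndependent ℚ g := by
      rw [linearIndependent_iff']
      intro T c hsum
      by_contra hcon
      push Not at hcon
      obtain ⟨i0, hi0, hci0⟩ := hcon
      have hne : (T.filter fun i => c i ≠ 0).Nonempty := ⟨i0, by simp [hi0, hci0]⟩
      obtain ⟨m, hm, hmax⟩ := exists_max_image (T.filter fun i => c i ≠ 0)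
        (fun i => toLex i.1) hne
      rw [mem_filter] at hm
      have h1 := congrArg (fun p : V => MvPolynomial.coeff m.1 p.1) hsum
      simp only [Submodule.coe_sum, Submodule.coe_smul, MvPolynomial.coeff_sum,
        MvPolynomial.coeff_smul, ZeroMemClass.coe_zero, MvPolynomial.coeff_zero, smul_eq_mul] at h1
      rw [sum_eq_single_of_mem m hm.1] at h1
      · rcases mul_eq_zero.1 h1 with h | h
        · exact hm.2 h
        · exact (MvPolynomial.mem_support_iff.1 (hg m).1) h
      · intro i hi him
        by_cases hci : c i = 0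
        · rw [hci, zero_mul]
        · have hle := hmax i (by simp [hi, hci])
          have hlt : toLex i.1 < toLex m.1 := lt_of_le_of_ne hle fun h =>
            him (Subtype.ext (toLex.injective h))
          have : MvPolynomial.coeff m.1 (g i).1 = 0 := by
            by_contra hne2
            exact absurd ((hg i).2 m.1 (MvPolynomial.mem_support_iff.2 hne2)) (not_le.2 hlt)
          rw [this, mul_zero]
    have := hli.fintype_card_le_finrank
    rwa [Fintype.card_coe] at this

/-- **The inequality for homogeneous ideals.** -/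
theorem ideal_le (d : J → ℕ) (E : ℕ → Finset (J →₀ ℕ))
    (hE : ∀ k e, e ∈ E k ↔ Finsupp.weight d e = k) (K : ℕ → Submodule ℚ (MvPolynomial J ℚ))
    (hK : ∀ k, ∀ p ∈ K k, ∀ s ∈ p.support, s ∈ E k)
    (hmul : ∀ k, ∀ p ∈ K k, ∀ x : J →₀ ℕ,
      MvPolynomial.monomial x (1 : ℚ) * p ∈ K (Finsupp.weight d x + k)) (k : ℕ) :
    ∑ n ∈ Icc 1 k, sig d E n * finrank ℚ (K (k - n)) ≤ k * finrank ℚ (K k) := by
  classical
  have hsub : ∀ k, leads (K k) ⊆ E k := by
    rintro k s ⟨p, hp, h⟩
    exact hK k p hp s h.1
  have hfin : ∀ k, (leads (K k)).Finite := fun k => (E k).finite_toSet.subset (hsub k)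
  have hcard : ∀ k, finrank ℚ (K k) = (hfin k).toFinset.card := fun k =>
    (finrank_eq_card (K k) (E k) (hK k) (hfin k).toFinset (fun s => Set.Finite.mem_toFinset _)).1
  have h := count_le E hE (fun k => (hfin k).toFinset)
    (fun k s hs => hsub k (by simpa using hs)) (by
      intro m y x hy
      simp only [Set.Finite.mem_toFinset] at hy ⊢
      obtain ⟨p, hp, hl⟩ := hy
      exact ⟨_, hmul m p hp x, isLead_mul hl x⟩) k
  simp only [← hcard] at h
  exact h

end Pool.Agent.K4H31.MZ
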