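import Mathlib

/-!
# Leray's theorem with derivations, in characteristic zero
-/

set_option autoImplicit false

open MvPolynomial

namespace Pool.Agent.K4H31.MZ

namespace LerayAux

/-- a family in `Gn` which is a basis modulo `D`, with dual functionals -/
theorem exists_family {A : Type} [AddCommGroup A] [Module ℚ A] (D Gn : Submodule ℚ A) :
    ∃ (K : Type) (x : K → A) (l : K → (A →ₗ[ℚ] ℚ)), (∀ k, x k ∈ Gn) ∧ (∀ k, ∀ y ∈ D, l k y = 0) ∧
      (∀ k, l k (x k) = 1) ∧ (∀ k k', k ≠ k' → l k (x k') = 0) ∧
      Gn ≤ D ⊔ Submodule.span ℚ (Set.range x) := by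
  have h0 : ∃ (K : Type), Nonempty (Module.Basis K ℚ (Gn.map D.mkQ)) :=
    ⟨_, ⟨Module.Basis.ofVectorSpace ℚ (Gn.map D.mkQ)⟩⟩
  obtain ⟨K, ⟨b⟩⟩ := h0
  have h1 : ∀ k, ∃ y ∈ Gn, D.mkQ y = (b k : A ⧸ D) := fun k => Submodule.mem_map.1 (b k).2
  choose x hx hx' using h1
  have h2 : ∀ k, ∃ g : (A ⧸ D) →ₗ[ℚ] ℚ, g ∘ₗ (Gn.map D.mkQ).subtype = b.coord k :=
    fun k => LinearMap.exists_extend _
  choose g hg using h2
  have hgx : ∀ k k', g k (D.mkQ (x k')) = b.coord k (b k') := by
    intro k k'
    rw [hx', ← hg k]
    rfl
  refine ⟨K, x, fun k => g k ∘ₗ D.mkQ, hx, ?_, ?_, ?_, ?_⟩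
  · intro k y hy
    have : D.mkQ y = 0 := (Submodule.Quotient.mk_eq_zero D).2 hy
    rw [LinearMap.comp_apply, this, map_zero]
  · intro k
    rw [LinearMap.comp_apply, hgx]
    simp
  · intro k k' hk
    rw [LinearMap.comp_apply, hgx]
    simp [hk.symm]
  · intro y hy
    have hy' : D.mkQ y ∈ Gn.map D.mkQ := Submodule.mem_map_of_mem hy
    have h3 := b.linearCombination_repr ⟨D.mkQ y, hy'⟩
    have h4 := congrArg (Gn.map D.mkQ).subtype h3
    rw [Finsupp.linearCombination_apply, map_finsuppSum] at h4
    set c := b.repr ⟨D.mkQ y, hy'⟩ with hc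
    have h5 : D.mkQ (c.sum fun k a => a • x k) = D.mkQ y := by
      rw [map_finsuppSum]
      simp only [map_smul, hx']
      exact h4
    have h6 : y - (c.sum fun k a => a • x k) ∈ D := by
      rw [← (Submodule.Quotient.mk_eq_zero D)]
      have : D.mkQ (y - (c.sum fun k a => a • x k)) = 0 := by rw [map_sub, h5, sub_self]
      exact this
    have h7 : (c.sum fun k a => a • x k) ∈ Submodule.span ℚ (Set.range x) :=
      Submodule.sum_mem _ fun k _ => Submodule.smul_mem _ _ (Submodule.subset_span ⟨k, rfl⟩)
    have h8 : y = (y - (c.sum fun k a => a • x k)) + (c.sum fun k a => a • x k) := by abel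
    rw [h8]
    exact Submodule.add_mem_sup h6 h7

section main

variable {A : Type} [CommRing A] [Algebra ℚ A] (G : ℕ → Submodule ℚ A)

/-- decomposable elements of degree `n` -/
def dec (n : ℕ) : Submodule ℚ A :=
  Submodule.span ℚ {z | ∃ p q x y, 0 < p ∧ 0 < q ∧ p + q = n ∧ x ∈ G p ∧ y ∈ G q ∧ z = x * y}

variable {J : Type} (d : J → ℕ) (x : J → A)

theorem le_weight' (s : J →₀ ℕ) (j : J) (hj : s j ≠ 0) : d j ≤ Finsupp.weight d s := by
  have h2 : Finsupp.single j 1 ≤ s := by
    rw [Finsupp.single_le_iff]
    omega
  obtain ⟨t, rfl⟩ := exists_add_of_le h2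
  have h4 : Finsupp.weight d (Finsupp.single j 1) = d j := by simp [Finsupp.weight_single]
  rw [map_add, h4]
  omega

theorem aeval_monomial_mem (h1 : (1 : A) ∈ G 0)
    (hmul : ∀ m n x y, x ∈ G m → y ∈ G n → x * y ∈ G (m + n)) (hx : ∀ j, x j ∈ G (d j))
    (s : J →₀ ℕ) : aeval x (monomial s (1 : ℚ)) ∈ G (Finsupp.weight d s) := by
  induction s using Finsupp.induction_linear with
  | zero => simpa using h1
  | add f g hf hg =>
    have : (monomial (f + g) (1 : ℚ)) = monomial f 1 * monomial g 1 := by
      rw [monomial_mul, one_mul]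
    rw [this, map_mul, map_add]
    exact hmul _ _ _ _ hf hg
  | single j k =>
    induction k with
    | zero => simpa using h1
    | succ k ih =>
      have : (monomial (Finsupp.single j (k + 1)) (1 : ℚ)) =
          monomial (Finsupp.single j k) 1 * X j := by
        rw [X, monomial_mul, one_mul, ← Finsupp.single_add]
      rw [this, map_mul, Finsupp.single_add, map_add, aeval_X]
      refine hmul _ _ _ _ ih ?_
      have : Finsupp.weight d (Finsupp.single j 1) = d j := by simp [Finsupp.weight_single]
      rw [this]
      exact hx j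

theorem monomial_smul (s : J →₀ ℕ) (c : ℚ) : (monomial s c : MvPolynomial J ℚ) = c • monomial s 1 := by
  rw [smul_monomial, smul_eq_mul, mul_one]

theorem aeval_mem (h1 : (1 : A) ∈ G 0)
    (hmul : ∀ m n x y, x ∈ G m → y ∈ G n → x * y ∈ G (m + n)) (hx : ∀ j, x j ∈ G (d j))
    (n : ℕ) (p : MvPolynomial J ℚ) (hp : IsWeightedHomogeneous d p n) : aeval x p ∈ G n := by
  rw [p.as_sum, map_sum]
  refine Submodule.sum_mem _ fun s hs => ?_
  rw [monomial_smul, map_smul]
  refine Submodule.smul_mem _ _ ?_
  have := aeval_monomial_mem G d x h1 hmul hx s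
  rwa [hp (mem_support_iff.1 hs)] at this

/-- monomials which are not variables go to decomposable elements -/
theorem aeval_monomial_mem_dec (h1 : (1 : A) ∈ G 0)
    (hmul : ∀ m n x y, x ∈ G m → y ∈ G n → x * y ∈ G (m + n)) (hx : ∀ j, x j ∈ G (d j))
    (hd : ∀ j, 0 < d j) (s : J →₀ ℕ) (hs : s ≠ 0) (hs' : ∀ j, s ≠ Finsupp.single j 1) :
    aeval x (monomial s (1 : ℚ)) ∈ dec G (Finsupp.weight d s) := by
  obtain ⟨j, hj⟩ : ∃ j, s j ≠ 0 := by
    by_contra h
    push Not at h
    exact hs (Finsupp.ext h)
  have h2 : Finsupp.single j 1 ≤ s := by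
    rw [Finsupp.single_le_iff]
    omega
  obtain ⟨t, rfl⟩ := exists_add_of_le h2
  have ht : t ≠ 0 := by
    rintro rfl
    exact hs' j (by simp)
  obtain ⟨i, hi⟩ : ∃ j, t j ≠ 0 := by
    by_contra h
    push Not at h
    exact ht (Finsupp.ext h)
  have h3 : 0 < Finsupp.weight d t := by
    have : d i ≤ Finsupp.weight d t := le_weight' d t i hi
    exact (hd i).trans_le this
  have h4 : Finsupp.weight d (Finsupp.single j 1) = d j := by simp [Finsupp.weight_single]
  refine Submodule.subset_span ⟨d j, Finsupp.weight d t, x j, aeval x (monomial t (1 : ℚ)), hd j,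
    h3, by rw [map_add, h4], hx j, aeval_monomial_mem G d x h1 hmul hx t, ?_⟩
  have : (monomial (Finsupp.single j 1 + t) (1 : ℚ)) = X j * monomial t 1 := by
    rw [X, monomial_mul, one_mul]
  rw [this, map_mul, aeval_X]

/-- lifting of homogeneous elements -/
theorem exists_lift (hG0 : ∀ x ∈ G 0, ∃ c : ℚ, x = algebraMap ℚ A c)
    (hspan : ∀ n, 0 < n → G n ≤ dec G n ⊔ Submodule.span ℚ {y | ∃ j, d j = n ∧ y = x j})
    (n : ℕ) : ∀ y ∈ G n, ∃ p : MvPolynomial J ℚ, IsWeightedHomogeneous d p n ∧ aeval x p = y := by
  induction n using Nat.strong_induction_on with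
  | _ n ih =>
  intro y hy
  rcases Nat.eq_zero_or_pos n with rfl | hn
  · obtain ⟨c, rfl⟩ := hG0 y hy
    exact ⟨C c, isWeightedHomogeneous_C _ _, by simp⟩
  · have key : dec G n ⊔ Submodule.span ℚ {y | ∃ j, d j = n ∧ y = x j} ≤
        (weightedHomogeneousSubmodule ℚ d n).map (aeval x : MvPolynomial J ℚ →ₐ[ℚ] A).toLinearMap := by
      refine sup_le (Submodule.span_le.2 ?_) (Submodule.span_le.2 ?_)
      · rintro z ⟨p, q, u, v, hp, hq, hpq, hu, hv, rfl⟩
        obtain ⟨P, hP, rfl⟩ := ih p (by omega) u hu
        obtain ⟨Q, hQ, rfl⟩ := ih q (by omega) v hv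
        refine ⟨P * Q, ?_, by simp⟩
        have := hP.mul hQ
        rw [hpq] at this
        exact this
      · rintro z ⟨j, hj, rfl⟩
        refine ⟨X j, ?_, by simp⟩
        have := isWeightedHomogeneous_X ℚ d j
        rw [hj] at this
        exact this
    obtain ⟨p, hp, hp'⟩ := key (hspan n hn hy)
    exact ⟨p, hp, hp'⟩

/-- `mkDerivation` lowers the weight -/
theorem mkDerivation_weight (w : ℕ) (P : J → MvPolynomial J ℚ)
    (hP : ∀ j n, n + w = d j → IsWeightedHomogeneous d (P j) n) (hP' : ∀ j, d j < w → P j = 0)
    (n : ℕ) (f : MvPolynomial J ℚ) (hf : IsWeightedHomogeneous d f n) :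
    (∀ m, m + w = n → IsWeightedHomogeneous d (mkDerivation ℚ P f) m) ∧
      (n < w → mkDerivation ℚ P f = 0) := by
  have h1 : ∀ s ∈ f.support, ∀ j, s j ≠ 0 → d j ≤ n := by
    intro s hs j hj
    have := le_weight' d s j hj
    rwa [hf (mem_support_iff.1 hs)] at this
  constructor
  · intro m hm
    rw [f.as_sum, map_sum]
    refine Submodule.sum_mem (weightedHomogeneousSubmodule ℚ d m) fun s hs => ?_
    rw [mkDerivation_monomial]
    refine Submodule.smul_mem _ _ (Submodule.sum_mem _ fun j hj => ?_)
    have hj' : s j ≠ 0 := by simpa using hj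
    rcases lt_or_ge (d j) w with h | h
    · beta_reduce
      rw [hP' j h, smul_zero]
      exact Submodule.zero_mem _
    · have h2 : Finsupp.single j 1 ≤ s := by
        rw [Finsupp.single_le_iff]
        omega
      obtain ⟨t, rfl⟩ := exists_add_of_le h2
      beta_reduce
      rw [add_tsub_cancel_left]
      have h3 : Finsupp.weight d (Finsupp.single j 1 + t) = n := hf (mem_support_iff.1 hs)
      have h4 : Finsupp.weight d (Finsupp.single j 1) = d j := by simp [Finsupp.weight_single]
      rw [map_add, h4] at h3
      have h5 := fun c : ℚ => (isWeightedHomogeneous_monomial d t c rfl).mul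
        (hP j (d j - w) (by omega))
      have h6 : Finsupp.weight d t + (d j - w) = m := by omega
      rw [h6] at h5
      exact h5 _
  · intro hn
    rw [f.as_sum, map_sum]
    refine Finset.sum_eq_zero fun s hs => ?_
    rw [mkDerivation_monomial]
    have : (s.sum fun i k => monomial (s - Finsupp.single i 1) (k : ℚ) • P i) = 0 := by
      refine Finset.sum_eq_zero fun j hj => ?_
      have hj' : s j ≠ 0 := by simpa using hj
      beta_reduce
      rw [hP' j ((h1 s hs j hj').trans_lt hn), smul_zero]
    rw [this, smul_zero]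

/-- compatibility with the derivations of `A` -/
theorem aeval_mkDerivation (δ : Derivation ℚ A A) (P : J → MvPolynomial J ℚ)
    (hP : ∀ j, aeval x (P j) = δ (x j)) (f : MvPolynomial J ℚ) :
    aeval x (mkDerivation ℚ P f) = δ (aeval x f) := by
  induction f using MvPolynomial.induction_on with
  | C a => simp [algHom_C]
  | add p q hp hq => simp [hp, hq]
  | mul_X p j hp =>
    rw [Derivation.leibniz, mkDerivation_X, map_mul, Derivation.leibniz, aeval_X, map_add,
      smul_eq_mul, smul_eq_mul, map_mul, map_mul, hp, aeval_X, hP, smul_eq_mul, smul_eq_mul]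

end main

end LerayAux

open LerayAux in
theorem leray {A : Type} [CommRing A] [Nontrivial A] [Algebra ℚ A] (G : ℕ → Submodule ℚ A)
    (hG : DirectSum.IsInternal G) (h1 : (1 : A) ∈ G 0)
    (hmul : ∀ m n x y, x ∈ G m → y ∈ G n → x * y ∈ G (m + n))
    (hG0 : ∀ x ∈ G 0, ∃ c : ℚ, x = algebraMap ℚ A c)
    {ι : Type} (w : ι → ℕ) (hw : ∀ i, 0 < w i) (δ : ι → Derivation ℚ A A)
    (hδ : ∀ i n x, x ∈ G (n + w i) → δ i x ∈ G n)
    (hδ' : ∀ i n x, n < w i → x ∈ G n → δ i x = 0)
    (hker : ∀ n, 0 < n → ∀ x ∈ G n, (∀ i, δ i x = 0) → x = 0) :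
    ∃ (J : Type) (d : J → ℕ) (x : J → A), (∀ j, 0 < d j ∧ x j ∈ G (d j)) ∧
      Function.Bijective (MvPolynomial.aeval x : MvPolynomial J ℚ →ₐ[ℚ] A) := by
  classical
  obtain ⟨J, d, x, l, hd, hx, hspan, hl1, hl2, hl3⟩ : ∃ (J : Type) (d : J → ℕ) (x : J → A)
      (l : J → (A →ₗ[ℚ] ℚ)), (∀ j, 0 < d j) ∧ (∀ j, x j ∈ G (d j)) ∧
      (∀ n, 0 < n → G n ≤ dec G n ⊔ Submodule.span ℚ {y | ∃ j, d j = n ∧ y = x j}) ∧
      (∀ j, l j (x j) = 1) ∧ (∀ j j', d j' = d j → j ≠ j' → l j (x j') = 0) ∧
      (∀ j, ∀ y ∈ dec G (d j), l j y = 0) := by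
    choose K x₀ l₀ hx₀ hl₀ hl₁ hl₂ hs₀ using fun n : ℕ => exists_family (dec G n) (G n)
    refine ⟨Σ n : {n : ℕ // 0 < n}, K n.1, fun j => j.1.1, fun j => x₀ j.1.1 j.2,
      fun j => l₀ j.1.1 j.2, fun j => j.1.2, fun j => hx₀ _ _, ?_, fun j => hl₁ _ _, ?_,
      fun j y hy => hl₀ _ _ y hy⟩
    · intro n hn
      refine (hs₀ n).trans (sup_le_sup_left (Submodule.span_mono ?_) _)
      rintro y ⟨k, rfl⟩
      exact ⟨⟨⟨n, hn⟩, k⟩, rfl, rfl⟩
    · rintro ⟨⟨n, hn⟩, k⟩ ⟨⟨n', hn'⟩, k'⟩ h h'
      have h : n' = n := h
      subst h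
      refine hl₂ _ _ _ fun h2 => h' ?_
      subst h2
      rfl
  have hlift := exists_lift G d x hG0 hspan
  refine ⟨J, d, x, fun j => ⟨hd j, hx j⟩, ?_, ?_⟩
  · -- injectivity
    -- the derivations of the polynomial ring
    have hPex : ∀ i j, ∃ P : MvPolynomial J ℚ, (∀ n, n + w i = d j → IsWeightedHomogeneous d P n) ∧
        (d j < w i → P = 0) ∧ aeval x P = δ i (x j) := by
      intro i j
      rcases lt_or_ge (d j) (w i) with h | h
      · exact ⟨0, fun n hn => isWeightedHomogeneous_zero _ _ _, fun _ => rfl, by
          rw [map_zero, hδ' i (d j) (x j) h (hx j)]⟩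
      · obtain ⟨P, hP, hP'⟩ := hlift (d j - w i) (δ i (x j)) (hδ i _ _ (by
          rw [Nat.sub_add_cancel h]; exact hx j))
        refine ⟨P, fun n hn => ?_, fun h' => absurd h' (by omega), hP'⟩
        have : n = d j - w i := by omega
        rw [this]
        exact hP
    choose P hP1 hP2 hP3 using hPex
    have hD : ∀ i f, aeval x (mkDerivation ℚ (P i) f) = δ i (aeval x f) :=
      fun i f => aeval_mkDerivation x (δ i) (P i) (hP3 i) f
    have hDw : ∀ i n f, IsWeightedHomogeneous d f n →
        (∀ m, m + w i = n → IsWeightedHomogeneous d (mkDerivation ℚ (P i) f) m) ∧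
          (n < w i → mkDerivation ℚ (P i) f = 0) :=
      fun i n f hf => mkDerivation_weight d (w i) (P i) (hP1 i) (hP2 i) n f hf
    -- the main induction
    have main : ∀ N, ∀ f : MvPolynomial J ℚ, IsWeightedHomogeneous d f N → aeval x f = 0 →
        f = 0 := by
      intro N
      induction N using Nat.strong_induction_on with
      | _ N ih =>
      intro f hf hf0
      by_contra hne
      -- the derivatives vanish
      have hDf : ∀ i, mkDerivation ℚ (P i) f = 0 := by
        intro i
        rcases lt_or_ge N (w i) with h | h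
        · exact (hDw i N f hf).2 h
        · refine ih (N - w i) (by have := hw i; omega) _
            ((hDw i N f hf).1 _ (Nat.sub_add_cancel h)) ?_
          rw [hD, hf0, map_zero]
      rcases Finset.eq_empty_or_nonempty f.vars with hv | hv
      · -- constants
        rw [MvPolynomial.vars_eq_empty_iff_eq_C] at hv
        rw [hv, aeval_C] at hf0
        have h2 : coeff 0 f = 0 :=
          (algebraMap ℚ A).injective (hf0.trans (map_zero (algebraMap ℚ A)).symm)
        rw [h2, C_0] at hv
        exact hne hv
      · obtain ⟨j, hj, hjmax⟩ := Finset.exists_max_image f.vars d hv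
        -- `pderiv j f` is not zero
        obtain ⟨s, hs, hsj⟩ := (mem_vars_iff_mem_support j).1 hj
        have hsj' : s j ≠ 0 := by simpa using hsj
        have h2 : Finsupp.single j 1 ≤ s := by
          rw [Finsupp.single_le_iff]
          omega
        obtain ⟨t, rfl⟩ := exists_add_of_le h2
        have hsw : Finsupp.weight d (Finsupp.single j 1 + t) = N := hf (mem_support_iff.1 hs)
        have h4 : Finsupp.weight d (Finsupp.single j 1) = d j := by simp [Finsupp.weight_single]
        have hjN : d j ≤ N := by
          rw [map_add, h4] at hsw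
          omega
        have hg0 : pderiv j f ≠ 0 := by
          intro h
          have h5 := congrArg (coeff t) h
          rw [coeff_pderiv, coeff_zero, add_comm t] at h5
          rcases mul_eq_zero.1 h5 with h6 | h6
          · exact mem_support_iff.1 hs h6
          · have : (0 : ℚ) ≤ (t j : ℚ) := Nat.cast_nonneg _
            linarith
        have hgw : IsWeightedHomogeneous d (pderiv j f) (N - d j) :=
          hf.pderiv (Nat.sub_add_cancel hjN)
        rcases hjN.lt_or_eq with hlt | heq
        · -- the derivatives of `pderiv j f` vanish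
          have hDg : ∀ i, mkDerivation ℚ (P i) (pderiv j f) = 0 := by
            intro i
            have h5 : ⁅mkDerivation ℚ (P i), (pderiv j : Derivation ℚ (MvPolynomial J ℚ) _)⁆ f = 0 := by
              refine derivation_eq_zero_of_forall_mem_vars fun k hk => ?_
              rw [Derivation.commutator_apply, mkDerivation_X]
              have h6 : mkDerivation ℚ (P i) (pderiv j (X k)) = 0 := by
                rw [pderiv_X]
                by_cases hjk : k = j
                · subst hjk
                  simp
                · simp [Pi.single_apply, hjk]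
              have h7 : pderiv j (P i k) = 0 := by
                refine pderiv_eq_zero_of_notMem_vars fun h8 => ?_
                obtain ⟨s', hs', hsj'⟩ := (mem_vars_iff_mem_support j).1 h8
                have hsj'' : s' j ≠ 0 := by simpa using hsj'
                rcases lt_or_ge (d k) (w i) with h9 | h9
                · rw [hP2 i k h9] at hs'
                  simp at hs'
                · have h10 := hP1 i k (d k - w i) (Nat.sub_add_cancel h9) (mem_support_iff.1 hs')
                  have h11 := le_weight' d s' j hsj''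
                  have h12 := hjmax k hk
                  have h13 := hw i
                  omega
              rw [h6, h7, sub_zero]
            rw [Derivation.commutator_apply, hDf i, map_zero, sub_zero] at h5
            exact h5
          refine hg0 (ih (N - d j) (by have := hd j; omega) _ hgw ?_)
          refine hker (N - d j) (by omega) _ (aeval_mem G d x h1 hmul hx _ _ hgw) fun i => ?_
          rw [← hD, hDg, map_zero]
        · -- `N = d j`
          have h5 : aeval x f = ∑ s ∈ f.support, coeff s f • aeval x (monomial s (1 : ℚ)) := by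
            conv_lhs => rw [f.as_sum]
            rw [map_sum]
            refine Finset.sum_congr rfl fun s _ => ?_
            rw [monomial_smul, map_smul]
          have h6 : l j (aeval x f) = coeff (Finsupp.single j 1) f := by
            rw [h5, map_sum, Finset.sum_eq_single (Finsupp.single j 1)]
            · rw [map_smul]
              have : (monomial (Finsupp.single j 1) (1 : ℚ)) = X j := rfl
              rw [this, aeval_X, hl1, smul_eq_mul, mul_one]
            · intro s' hs' hne'
              have hw' : Finsupp.weight d s' = d j := by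
                rw [heq]; exact hf (mem_support_iff.1 hs')
              rw [map_smul]
              have : l j (aeval x (monomial s' (1 : ℚ))) = 0 := by
                by_cases h7 : ∃ k, s' = Finsupp.single k 1
                · obtain ⟨k, rfl⟩ := h7
                  have : (monomial (Finsupp.single k 1) (1 : ℚ)) = X k := rfl
                  rw [this, aeval_X]
                  have hk4 : Finsupp.weight d (Finsupp.single k 1) = d k := by
                    simp [Finsupp.weight_single]
                  rw [hk4] at hw'
                  refine hl2 j k hw' fun h8 => hne' ?_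
                  rw [h8]
                · push Not at h7
                  have h8 := aeval_monomial_mem_dec G d x h1 hmul hx hd s' (by
                    rintro rfl
                    rw [map_zero] at hw'
                    have := hd j
                    omega) h7
                  rw [hw'] at h8
                  exact hl3 j _ h8
              rw [this, smul_zero]
            · intro h7
              rw [notMem_support_iff.1 h7, zero_smul, map_zero]
          rw [hf0, map_zero] at h6
          have h7 : t = 0 := by
            by_contra ht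
            obtain ⟨i, hi⟩ : ∃ j, t j ≠ 0 := by
              by_contra h
              push Not at h
              exact ht (Finsupp.ext h)
            have h8 := le_weight' d t i hi
            rw [map_add, h4] at hsw
            have := hd i
            omega
          subst h7
          rw [add_zero] at hs
          exact mem_support_iff.1 hs h6.symm
    -- injectivity
    rw [injective_iff_map_eq_zero]
    intro f hf
    have h2 : ∀ N, weightedHomogeneousComponent d N f = 0 := by
      have hfin := weightedHomogeneousComponent_finsupp (w := d) f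
      have h3 := sum_weightedHomogeneousComponent d f
      rw [finsum_eq_sum _ hfin] at h3
      have h4 := (iSupIndep_iff_finsetSum_eq_zero_imp_eq_zero G).1 hG.submodule_iSupIndep
        hfin.toFinset (fun N => aeval x (weightedHomogeneousComponent d N f))
        (fun N _ => aeval_mem G d x h1 hmul hx _ _
          (weightedHomogeneousComponent_isWeightedHomogeneous N f)) (by
          rw [← map_sum, h3, hf])
      intro N
      by_contra hN
      exact hN (main N _ (weightedHomogeneousComponent_isWeightedHomogeneous N f)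
        (h4 N (by simpa using hN)))
    rw [← sum_weightedHomogeneousComponent d f]
    simp [h2]
  · -- surjectivity
    intro y
    have h2 : y ∈ iSup G := by
      rw [hG.submodule_iSup_eq_top]
      exact Submodule.mem_top
    have h3 : iSup G ≤ LinearMap.range (aeval x : MvPolynomial J ℚ →ₐ[ℚ] A).toLinearMap := by
      refine iSup_le fun n z hz => ?_
      obtain ⟨p, _, hp⟩ := hlift n z hz
      exact ⟨p, hp⟩
    obtain ⟨p, hp⟩ := h3 h2
    exact ⟨p, hp⟩

end Pool.Agent.K4H31.MZ
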