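import Mathlib

/-! Counting monomials with weights: `k * #S_k ≥ ∑ σ_n * #S_(k-n)` for sets of monomials closed under
multiplication by monomials. -/

set_option autoImplicit false

open Finset

namespace Pool.Agent.K4H31.MZ

set_option linter.unusedSectionVars false

variable {J : Type} [DecidableEq J] (d : J → ℕ)

/-- the weight of an exponent: `j r ↦ d j` for the powers `X j ^ r`, `r ≥ 1`, else `0` -/
noncomputable def Lam (x : J →₀ ℕ) : ℕ := if x.support.card = 1 then ∑ j ∈ x.support, d j else 0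

theorem Lam_zero : Lam d (0 : J →₀ ℕ) = 0 := by
  simp [Lam]

theorem Lam_single (j : J) {r : ℕ} (hr : r ≠ 0) : Lam d (Finsupp.single j r) = d j := by
  classical
  unfold Lam
  rw [Finsupp.support_single j hr]
  simp

/-- the weight is the sum of `Lam` over the divisors -/
theorem sum_Lam (e : J →₀ ℕ) : ∑ x ∈ Finset.Iic e, Lam d x = Finsupp.weight d e := by
  classical
  have h1 : ∑ x ∈ Finset.Iic e, Lam d x =
      ∑ x ∈ (Finset.Iic e).filter (fun x => x.support.card = 1), Lam d x := by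
    rw [sum_filter]
    refine sum_congr rfl fun x _ => ?_
    unfold Lam
    split_ifs <;> rfl
  have h2 : (Finset.Iic e).filter (fun x => x.support.card = 1) =
      (e.support.sigma fun j => Finset.Icc 1 (e j)).image
        (fun p => Finsupp.single p.1 p.2) := by
    ext x
    simp only [mem_filter, Finset.mem_Iic, mem_image, mem_sigma, Finset.mem_Icc, Sigma.exists]
    constructor
    · rintro ⟨hx, hc⟩
      obtain ⟨j, r, hr, rfl⟩ := Finsupp.card_support_eq_one'.1 hc
      have hjr : r ≤ e j := by simpa using hx j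
      refine ⟨j, r, ⟨?_, by omega, hjr⟩, rfl⟩
      rw [Finsupp.mem_support_iff]
      omega
    · rintro ⟨j, r, ⟨_, hr, hjr⟩, rfl⟩
      refine ⟨?_, ?_⟩
      · rw [Finsupp.single_le_iff]
        exact hjr
      · rw [Finsupp.support_single j (by omega), card_singleton]
  rw [h1, h2, sum_image]
  · rw [sum_sigma, Finsupp.weight_apply, Finsupp.sum]
    refine sum_congr rfl fun j hj => ?_
    rw [sum_congr rfl (g := fun _ => d j)]
    · simp
    · intro r hr
      rw [Finset.mem_Icc] at hr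
      exact Lam_single d j (Nat.one_le_iff_ne_zero.1 hr.1)
  · rintro ⟨j, r⟩ h ⟨j', r'⟩ h' heq
    simp only [Finset.coe_sigma, Set.mem_sigma_iff, mem_coe, Finset.mem_Icc] at h h'
    simp only at heq
    rw [Finsupp.single_eq_single_iff] at heq
    rcases heq with ⟨rfl, rfl⟩ | ⟨h1, h2⟩
    · rfl
    · omega

theorem sum_Lam_antidiagonal (e : J →₀ ℕ) :
    ∑ p ∈ Finset.HasAntidiagonal.antidiagonal e, Lam d p.1 = Finsupp.weight d e := by
  classical
  rw [← sum_Lam d e]
  refine sum_bij (fun p _ => p.1) ?_ ?_ ?_ ?_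
  · intro p hp
    rw [HasAntidiagonal.mem_antidiagonal] at hp
    rw [Finset.mem_Iic, ← hp]
    exact le_self_add
  · intro p hp q hq h
    rw [HasAntidiagonal.mem_antidiagonal] at hp hq
    have : p.2 = q.2 := by
      have h3 : p.1 + p.2 = p.1 + q.2 := by rw [hp, h, hq]
      exact add_left_cancel h3
    exact Prod.ext h this
  · intro x hx
    rw [Finset.mem_Iic] at hx
    refine ⟨(x, e - x), ?_, rfl⟩
    rw [HasAntidiagonal.mem_antidiagonal]
    exact add_tsub_cancel_of_le hx
  · intro p _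
    rfl

variable {d} (E : ℕ → Finset (J →₀ ℕ)) (hE : ∀ k e, e ∈ E k ↔ Finsupp.weight d e = k)

/-- the number `σ_n` -/
noncomputable def sig (d : J → ℕ) (E : ℕ → Finset (J →₀ ℕ)) (n : ℕ) : ℕ := ∑ x ∈ E n, Lam d x

include hE in
theorem count_le (S : ℕ → Finset (J →₀ ℕ)) (hS : ∀ k, S k ⊆ E k)
    (hup : ∀ m y x, y ∈ S m → x + y ∈ S (Finsupp.weight d x + m)) (k : ℕ) :
    ∑ n ∈ Icc 1 k, sig d E n * (S (k - n)).card ≤ k * (S k).card := by
  classical
  have hL : k * (S k).card = ∑ p ∈ (S k).sigma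
      (fun e => Finset.HasAntidiagonal.antidiagonal e), Lam d p.2.1 := by
    rw [sum_sigma]
    rw [sum_congr rfl (g := fun _ => k)]
    · simp [mul_comm]
    · intro e he
      rw [sum_Lam_antidiagonal]
      exact (hE k e).1 (hS k he)
  have hR : ∑ n ∈ Icc 1 k, sig d E n * (S (k - n)).card =
      ∑ q ∈ (Icc 1 k).sigma (fun n => E n ×ˢ S (k - n)), Lam d q.2.1 := by
    rw [sum_sigma]
    refine sum_congr rfl fun n _ => ?_
    rw [sum_product, sig, sum_mul]
    refine sum_congr rfl fun x _ => ?_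
    simp [mul_comm]
  rw [hL, hR]
  let g : (Σ _ : ℕ, (J →₀ ℕ) × (J →₀ ℕ)) → (Σ _ : (J →₀ ℕ), (J →₀ ℕ) × (J →₀ ℕ)) :=
    fun q => ⟨q.2.1 + q.2.2, q.2⟩
  have hinj : Set.InjOn g ((Icc 1 k).sigma (fun n => E n ×ˢ S (k - n))) := by
    rintro ⟨n, x, y⟩ h ⟨n', x', y'⟩ h' heq
    simp only [coe_sigma, Set.mem_sigma_iff, mem_coe, Finset.mem_Icc, mem_product] at h h'
    simp only [g, Sigma.mk.injEq, heq_eq_eq, Prod.mk.injEq] at heq
    obtain ⟨_, rfl, rfl⟩ := heq
    have h1 := (hE _ _).1 h.2.1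
    have h2 := (hE _ _).1 h'.2.1
    obtain rfl : n = n' := by rw [← h1, ← h2]
    rfl
  calc ∑ q ∈ (Icc 1 k).sigma (fun n => E n ×ˢ S (k - n)), Lam d q.2.1
      = ∑ p ∈ ((Icc 1 k).sigma (fun n => E n ×ˢ S (k - n))).image g, Lam d p.2.1 := by
        rw [sum_image hinj]
    _ ≤ _ := by
        apply sum_le_sum_of_subset
        intro p hp
        obtain ⟨⟨n, x, y⟩, hq, rfl⟩ := mem_image.1 hp
        simp only [mem_sigma, mem_product, Finset.mem_Icc] at hq
        simp only [g, mem_sigma, HasAntidiagonal.mem_antidiagonal, and_true]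
        have h1 := (hE _ _).1 hq.2.1
        have h2 := hup (k - n) y x hq.2.2
        rw [h1] at h2
        rwa [show n + (k - n) = k by omega] at h2

include hE in
theorem count_eq (k : ℕ) :
    ∑ n ∈ Icc 1 k, sig d E n * (E (k - n)).card = k * (E k).card := by
  classical
  apply le_antisymm
  · apply count_le E hE E (fun _ => subset_rfl)
    intro m y x hy
    rw [hE] at hy ⊢
    rw [map_add, hy]
  have hL : k * (E k).card = ∑ p ∈ (E k).sigma
      (fun e => Finset.HasAntidiagonal.antidiagonal e), Lam d p.2.1 := by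
    rw [sum_sigma]
    rw [sum_congr rfl (g := fun _ => k)]
    · simp [mul_comm]
    · intro e he
      rw [sum_Lam_antidiagonal]
      exact (hE k e).1 he
  have hR : ∑ n ∈ Icc 1 k, sig d E n * (E (k - n)).card =
      ∑ q ∈ (Icc 1 k).sigma (fun n => E n ×ˢ E (k - n)), Lam d q.2.1 := by
    rw [sum_sigma]
    refine sum_congr rfl fun n _ => ?_
    rw [sum_product, sig, sum_mul]
    refine sum_congr rfl fun x _ => ?_
    simp [mul_comm]
  rw [hL, hR]
  let f : (Σ _ : (J →₀ ℕ), (J →₀ ℕ) × (J →₀ ℕ)) → (Σ _ : ℕ, (J →₀ ℕ) × (J →₀ ℕ)) :=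
    fun p => ⟨Finsupp.weight d p.2.1, p.2⟩
  have hinj : Set.InjOn f (((E k).sigma
      (fun e => Finset.HasAntidiagonal.antidiagonal e)).filter fun p => Lam d p.2.1 ≠ 0) := by
    rintro ⟨e, x, y⟩ h ⟨e', x', y'⟩ h' heq
    simp only [coe_filter, mem_sigma, HasAntidiagonal.mem_antidiagonal, Set.mem_ofPred_eq] at h h'
    simp only [f, Sigma.mk.injEq, heq_eq_eq, Prod.mk.injEq] at heq
    obtain ⟨_, rfl, rfl⟩ := heq
    obtain rfl : e = e' := by rw [← h.1.2, ← h'.1.2]
    rfl
  calc ∑ p ∈ (E k).sigma (fun e => Finset.HasAntidiagonal.antidiagonal e), Lam d p.2.1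
      = ∑ p ∈ ((E k).sigma (fun e => Finset.HasAntidiagonal.antidiagonal e)).filter
          (fun p => Lam d p.2.1 ≠ 0), Lam d p.2.1 := (sum_filter_ne_zero _).symm
    _ = ∑ q ∈ (((E k).sigma (fun e => Finset.HasAntidiagonal.antidiagonal e)).filter
          (fun p => Lam d p.2.1 ≠ 0)).image f, Lam d q.2.1 := by rw [sum_image hinj]
    _ ≤ _ := by
        apply sum_le_sum_of_subset
        intro q hq
        obtain ⟨⟨e, x, y⟩, hp, rfl⟩ := mem_image.1 hq
        simp only [mem_filter, mem_sigma, HasAntidiagonal.mem_antidiagonal] at hp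
        obtain ⟨⟨he, hxy⟩, hL⟩ := hp
        rw [hE] at he
        have hw : Finsupp.weight d x + Finsupp.weight d y = k := by
          rw [← map_add, hxy, he]
        have hx : 1 ≤ Finsupp.weight d x := by
          rw [← sum_Lam d x]
          refine le_trans (Nat.one_le_iff_ne_zero.2 hL) ?_
          exact single_le_sum (f := fun x => Lam d x) (fun _ _ => Nat.zero_le _)
            (Finset.mem_Iic.2 le_rfl)
        simp only [f, mem_sigma, mem_product, Finset.mem_Icc]
        refine ⟨⟨hx, by omega⟩, (hE _ _).2 rfl, (hE _ _).2 ?_⟩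
        omega

end Pool.Agent.K4H31.MZ
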