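import Pool.Agent.K4H31.MZ.Cnt

/-!
# Ratios of the numbers of exponents of consecutive weights
-/

set_option autoImplicit false

namespace Pool.Agent.K4H31.MZ

open Finset Filter Topology

noncomputable section

namespace RatioAux

section basic

variable {J : Type} {d : J → ℕ} (hd : ∀ j, 2 ≤ d j) (hfin : ∀ n, {j | d j = n}.Finite)

/-- exponents as a finset -/
def F (P : Set J) (k : ℕ) : Finset (J →₀ ℕ) := (cnt_finite d hd hfin P k).toFinset

lemma mem_F {P : Set J} {k : ℕ} {x : J →₀ ℕ} :
    x ∈ F hd hfin P k ↔ (∀ j ∈ x.support, j ∈ P) ∧ Finsupp.weight d x = k := by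
  unfold F
  rw [Set.Finite.mem_toFinset]
  rfl

lemma card_F (P : Set J) (k : ℕ) : (F hd hfin P k).card = cnt d P k := by
  unfold F cnt
  rw [Set.ncard_eq_toFinset_card _ (cnt_finite d hd hfin P k)]

include hd hfin

lemma cnt_mono {P Q : Set J} (h : P ⊆ Q) (k : ℕ) : cnt d P k ≤ cnt d Q k := by
  rw [← card_F hd hfin, ← card_F hd hfin]
  refine card_le_card fun x hx => ?_
  rw [mem_F] at hx ⊢
  exact ⟨fun j hj => h (hx.1 j hj), hx.2⟩

lemma conv {P Q : Set J} (hPQ : Disjoint P Q) (k : ℕ) :
    cnt d (P ∪ Q) k = ∑ i ∈ range (k + 1), cnt d P i * cnt d Q (k - i) := by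
  classical
  have hdis : ∀ j, j ∈ P → j ∈ Q → False := fun j h1 h2 => Set.disjoint_left.1 hPQ h1 h2
  have hsum : ∀ x : J →₀ ℕ, (∀ j ∈ x.support, j ∈ P ∪ Q) →
      x.filter (· ∈ P) + x.filter (· ∈ Q) = x := by
    intro x hx
    ext j
    rw [Finsupp.add_apply, Finsupp.filter_apply, Finsupp.filter_apply]
    by_cases h0 : x j = 0
    · simp [h0]
    · rcases hx j (Finsupp.mem_support_iff.2 h0) with h1 | h1
      · have h2 : j ∉ Q := fun h2 => hdis j h1 h2
        simp [h1, h2]
      · have h2 : j ∉ P := fun h2 => hdis j h2 h1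
        simp [h1, h2]
  have hw : ∀ x : J →₀ ℕ, (∀ j ∈ x.support, j ∈ P ∪ Q) →
      Finsupp.weight d (x.filter (· ∈ P)) + Finsupp.weight d (x.filter (· ∈ Q)) =
        Finsupp.weight d x := by
    intro x hx
    rw [← map_add, hsum x hx]
  have hfl : ∀ (x y : J →₀ ℕ) (P Q : Set J), (∀ j, j ∈ P → j ∈ Q → False) →
      (∀ j ∈ x.support, j ∈ P) → (∀ j ∈ y.support, j ∈ Q) →
      (x + y).filter (· ∈ P) = x := by
    intro x y P Q hdis hx hy
    ext j
    rw [Finsupp.filter_apply, Finsupp.add_apply]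
    by_cases hj : j ∈ P
    · have : y j = 0 := by
        by_contra h
        exact hdis j hj (hy j (Finsupp.mem_support_iff.2 h))
      simp [hj, this]
    · have : x j = 0 := by
        by_contra h
        exact hj (hx j (Finsupp.mem_support_iff.2 h))
      simp [hj, this]
  rw [← card_F hd hfin, card_eq_sum_card_fiberwise (s := F hd hfin (P ∪ Q) k)
    (f := fun x => Finsupp.weight d (x.filter (· ∈ P))) (t := range (k + 1))]
  · refine sum_congr rfl fun i hi => ?_
    rw [mem_range] at hi
    rw [← card_F hd hfin, ← card_F hd hfin, ← card_product]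
    refine card_nbij' (fun x => (x.filter (· ∈ P), x.filter (· ∈ Q))) (fun y => y.1 + y.2)
      ?_ ?_ ?_ ?_
    · intro x hx
      rw [mem_coe, mem_filter, mem_F] at hx
      rw [mem_coe, mem_product, mem_F, mem_F]
      refine ⟨⟨fun j hj => ?_, hx.2⟩, ⟨fun j hj => ?_, ?_⟩⟩
      · rw [Finsupp.support_filter, mem_filter] at hj
        exact hj.2
      · rw [Finsupp.support_filter, mem_filter] at hj
        exact hj.2
      · have := hw x hx.1.1
        rw [hx.2, hx.1.2] at this
        simp only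
        omega
    · intro y hy
      rw [mem_coe, mem_product, mem_F, mem_F] at hy
      rw [mem_coe, mem_filter, mem_F]
      refine ⟨⟨fun j hj => ?_, ?_⟩, ?_⟩
      · rcases mem_union.1 (Finsupp.support_add hj) with h | h
        · exact Or.inl (hy.1.1 j h)
        · exact Or.inr (hy.2.1 j h)
      · rw [map_add, hy.1.2, hy.2.2]
        omega
      · rw [hfl y.1 y.2 P Q hdis hy.1.1 hy.2.1]
        exact hy.1.2
    · intro x hx
      rw [mem_coe, mem_filter, mem_F] at hx
      exact hsum x hx.1.1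
    · intro y hy
      rw [mem_coe, mem_product, mem_F, mem_F] at hy
      simp only
      rw [hfl y.1 y.2 P Q hdis hy.1.1 hy.2.1, add_comm,
        hfl y.2 y.1 Q P (fun j h1 h2 => hdis j h2 h1) hy.2.1 hy.1.1]
  · intro x hx
    rw [mem_coe, mem_F] at hx
    rw [mem_coe, mem_range]
    have := hw x hx.1
    rw [hx.2] at this
    simp only
    omega

lemma step (v : J) (k : ℕ) :
    cnt d Set.univ (k + d v) = cnt d Set.univ k + cnt d {v}ᶜ (k + d v) := by
  classical
  rw [← card_F hd hfin, ← card_F hd hfin, ← card_F hd hfin,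
    ← card_filter_add_card_filter_not (s := F hd hfin Set.univ (k + d v)) (fun x => x v ≠ 0)]
  congr 1
  · refine card_nbij' (fun x => x - Finsupp.single v 1) (fun y => y + Finsupp.single v 1)
      ?_ ?_ ?_ ?_
    · intro x hx
      rw [mem_coe, mem_filter, mem_F] at hx
      rw [mem_coe, mem_F]
      refine ⟨fun _ _ => Set.mem_univ _, ?_⟩
      have h1 : x = (x - Finsupp.single v 1) + Finsupp.single v 1 := by
        rw [tsub_add_cancel_of_le]
        rw [Finsupp.single_le_iff]
        exact Nat.one_le_iff_ne_zero.2 hx.2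
      have h2 := hx.1.2
      rw [h1, map_add, Finsupp.weight_single, one_smul] at h2
      simp only
      omega
    · intro y hy
      rw [mem_coe, mem_F] at hy
      rw [mem_coe, mem_filter, mem_F]
      refine ⟨⟨fun _ _ => Set.mem_univ _, ?_⟩, ?_⟩
      · rw [map_add, Finsupp.weight_single, one_smul, hy.2]
      · simp
    · intro x hx
      rw [mem_coe, mem_filter, mem_F] at hx
      simp only
      rw [tsub_add_cancel_of_le]
      rw [Finsupp.single_le_iff]
      exact Nat.one_le_iff_ne_zero.2 hx.2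
    · intro y _
      simp only
      rw [add_tsub_cancel_right]
  · congr 1
    ext x
    rw [mem_filter, mem_F, mem_F]
    constructor
    · rintro ⟨h1, h2⟩
      refine ⟨fun j hj => ?_, h1.2⟩
      rintro rfl
      exact h2 (Finsupp.mem_support_iff.1 hj)
    · rintro ⟨h1, h2⟩
      refine ⟨⟨fun _ _ => Set.mem_univ _, h2⟩, ?_⟩
      rw [not_not]
      by_contra h
      exact h1 v (Finsupp.mem_support_iff.2 h) rfl

lemma cnt_one (P : Set J) : cnt d P 1 = 0 := by
  rw [← card_F hd hfin, card_eq_zero, eq_empty_iff_forall_notMem]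
  intro x hx
  rw [mem_F] at hx
  by_cases h : x = 0
  · rw [h, map_zero] at hx
    exact absurd hx.2 (by norm_num)
  · obtain ⟨j, hj⟩ := Finsupp.support_nonempty_iff.2 h
    have h1 : x = (x - Finsupp.single j 1) + Finsupp.single j 1 := by
      rw [tsub_add_cancel_of_le]
      rw [Finsupp.single_le_iff]
      exact Nat.one_le_iff_ne_zero.2 (Finsupp.mem_support_iff.1 hj)
    have h2 := hx.2
    rw [h1, map_add, Finsupp.weight_single, one_smul] at h2
    have := hd j
    omega

lemma split_bound (P : Set J) (d0 k : ℕ) :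
    cnt d P k ≤ cnt d {j | d j < d0} k +
      ∑ n ∈ Icc d0 k, {j | d j = n}.ncard * cnt d P (k - n) := by
  classical
  have hsub : F hd hfin P k ⊆ F hd hfin {j | d j < d0} k ∪
      (Icc d0 k).biUnion fun n => image₂ (fun j y => y + Finsupp.single j 1) (hfin n).toFinset
        (F hd hfin P (k - n)) := by
    intro x hx
    rw [mem_F] at hx
    by_cases h : ∀ j ∈ x.support, d j < d0
    · refine mem_union_left _ ?_
      rw [mem_F]
      exact ⟨h, hx.2⟩
    · push Not at h
      obtain ⟨j, hj, hj2⟩ := h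
      refine mem_union_right _ ?_
      have h1 : (x - Finsupp.single j 1) + Finsupp.single j 1 = x := by
        rw [tsub_add_cancel_of_le]
        rw [Finsupp.single_le_iff]
        exact Nat.one_le_iff_ne_zero.2 (Finsupp.mem_support_iff.1 hj)
      have h2 : Finsupp.weight d (x - Finsupp.single j 1) + d j = k := by
        have := congrArg (Finsupp.weight d) h1
        rw [map_add, Finsupp.weight_single, one_smul, hx.2] at this
        exact this
      rw [mem_biUnion]
      refine ⟨d j, mem_Icc.2 ⟨hj2, by omega⟩, ?_⟩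
      rw [mem_image₂]
      refine ⟨j, ?_, x - Finsupp.single j 1, ?_, h1⟩
      · rw [Set.Finite.mem_toFinset]
        rfl
      · rw [mem_F]
        refine ⟨fun i hi => hx.1 i ?_, by omega⟩
        rw [Finsupp.mem_support_iff] at hi ⊢
        intro h0
        apply hi
        rw [Finsupp.tsub_apply, h0, Nat.zero_sub]
  rw [← card_F hd hfin, ← card_F hd hfin]
  refine (card_le_card hsub).trans ((card_union_le _ _).trans (add_le_add le_rfl ?_))
  refine card_biUnion_le.trans (sum_le_sum fun n _ => ?_)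
  refine (card_image₂_le _ _ _).trans ?_
  rw [card_F, Set.ncard_eq_toFinset_card _ (hfin n)]

lemma cnt_le_add {a b : J} (hda : d a = 2) (hdb : d b = 3) (k : ℕ) :
    ∀ i, i ≠ 1 → cnt d Set.univ k ≤ cnt d Set.univ (k + i) := by
  have h2 : ∀ k, cnt d Set.univ k ≤ cnt d Set.univ (k + 2) := by
    intro k
    have := step hd hfin a k
    rw [hda] at this
    omega
  have h3 : ∀ k, cnt d Set.univ k ≤ cnt d Set.univ (k + 3) := by
    intro k
    have := step hd hfin b k
    rw [hdb] at this
    omega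
  intro i
  induction i using Nat.strong_induction_on with
  | _ i ih =>
    intro hi
    rcases Nat.lt_or_ge i 4 with h | h
    · interval_cases i
      · exact le_rfl
      · exact absurd rfl hi
      · exact h2 k
      · exact h3 k
    · have := ih (i - 2) (by omega) (by omega)
      refine this.trans ?_
      have h4 := h2 (k + (i - 2))
      rwa [show k + (i - 2) + 2 = k + i by omega] at h4

end basic

lemma pow_small (A : ℝ) (c s : ℕ) (h : c < s) (η : ℝ) (hη : 0 < η) :
    ∀ᶠ n : ℕ in atTop, A * ((n : ℝ) + 1) ^ c ≤ η * (n : ℝ) ^ s := by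
  filter_upwards [eventually_ge_atTop 1, eventually_ge_atTop ⌈|A| * 2 ^ c / η⌉₊] with n h1 h2
  have h1' : (1 : ℝ) ≤ n := by exact_mod_cast h1
  have h2' : |A| * 2 ^ c / η ≤ n := Nat.ceil_le.1 h2
  rw [div_le_iff₀ hη] at h2'
  have h3 : ((n : ℝ) + 1) ^ c ≤ (2 * n) ^ c := by
    refine pow_le_pow_left₀ (by positivity) (by linarith) _
  calc A * ((n : ℝ) + 1) ^ c ≤ |A| * ((n : ℝ) + 1) ^ c :=
        mul_le_mul_of_nonneg_right (le_abs_self A) (by positivity)
    _ ≤ |A| * (2 * n) ^ c := mul_le_mul_of_nonneg_left h3 (abs_nonneg _)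
    _ = |A| * 2 ^ c * (n : ℝ) ^ c := by rw [mul_pow]; ring
    _ ≤ n * η * (n : ℝ) ^ c := mul_le_mul_of_nonneg_right h2' (by positivity)
    _ = η * (n : ℝ) ^ (c + 1) := by ring
    _ ≤ η * (n : ℝ) ^ s :=
        mul_le_mul_of_nonneg_left (pow_le_pow_right₀ h1' h) hη.le

section main

variable {J : Type} {d : J → ℕ} (hd : ∀ j, 2 ≤ d j)

include hd

/-- removing one variable from a finite set -/
lemma erase_small [DecidableEq J] {a b : J} (hda : d a = 2) (hdb : d b = 3) (S : Finset J)
    (ha : a ∈ S) (hb : b ∈ S) (v : J) (hv : v ∈ S) (ε : ℝ) (hε : 0 < ε) :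
    ∀ᶠ k : ℕ in atTop, (cnt d ((S.erase v : Finset J) : Set J) k : ℝ) ≤ ε * cnt d S k := by
  have hab : a ≠ b := by
    rintro rfl
    omega
  have h2 : 2 ≤ S.card := by
    have := card_le_card (insert_subset ha (singleton_subset_iff.2 hb) : {a, b} ⊆ S)
    rwa [card_pair hab] at this
  obtain ⟨s, hs⟩ : ∃ s, S.card = s + 2 := ⟨S.card - 2, by omega⟩
  obtain ⟨η, hη, hlow⟩ := cnt_lower d hd S (s + 1) hs a b ha hb hda hdb
  filter_upwards [hlow, pow_small 1 s (s + 1) (by omega) (ε * η) (by positivity)] with k h1 h2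
  have h3 := cnt_upper d hd (S.erase v) s (by rw [card_erase_of_mem hv, hs]; rfl) k
  have h4 : (cnt d ((S.erase v : Finset J) : Set J) k : ℝ) ≤ ((k : ℝ) + 1) ^ s := by
    exact_mod_cast h3
  calc (cnt d ((S.erase v : Finset J) : Set J) k : ℝ) ≤ 1 * ((k : ℝ) + 1) ^ s := by
        rw [one_mul]; exact h4
    _ ≤ ε * η * (k : ℝ) ^ (s + 1) := h2
    _ = ε * (η * (k : ℝ) ^ (s + 1)) := by ring
    _ ≤ _ := mul_le_mul_of_nonneg_left h1 hε.le

variable (hfin : ∀ n, {j | d j = n}.Finite)

include hfin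

/-- exponents with variables of bounded degree -/
lemma low_small [Infinite J] {a b : J} (hda : d a = 2) (hdb : d b = 3) (d0 : ℕ) (ε : ℝ)
    (hε : 0 < ε) :
    ∀ᶠ k : ℕ in atTop, (cnt d {j | d j < d0} k : ℝ) ≤ ε * cnt d Set.univ k := by
  classical
  have hf : {j | d j < max d0 4}.Finite := by
    have : {j | d j < max d0 4} ⊆ ⋃ n ∈ Finset.range (max d0 4), {j | d j = n} := by
      intro j hj
      simp only [Set.mem_iUnion]
      exact ⟨d j, mem_range.2 hj, rfl⟩
    refine Set.Finite.subset ?_ this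
    exact Set.Finite.biUnion (Finset.finite_toSet _) fun n _ => hfin n
  obtain ⟨v, hv⟩ := Infinite.exists_notMem_finset hf.toFinset
  have haS : a ∈ hf.toFinset := by
    rw [Set.Finite.mem_toFinset]
    exact lt_of_lt_of_le (by rw [hda]; norm_num) (le_max_right d0 4)
  have hbS : b ∈ hf.toFinset := by
    rw [Set.Finite.mem_toFinset]
    exact lt_of_lt_of_le (by rw [hdb]; norm_num) (le_max_right d0 4)
  filter_upwards [erase_small hd hda hdb (insert v hf.toFinset) (mem_insert_of_mem haS)
    (mem_insert_of_mem hbS) v (mem_insert_self _ _) ε hε] with k hk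
  rw [erase_insert hv] at hk
  have h1 : (cnt d {j | d j < d0} k : ℝ) ≤ cnt d ((hf.toFinset : Finset J) : Set J) k := by
    have : cnt d {j | d j < d0} k ≤ cnt d ((hf.toFinset : Finset J) : Set J) k := by
      refine cnt_mono hd hfin (fun j hj => ?_) k
      rw [Set.Finite.coe_toFinset]
      exact lt_of_lt_of_le hj (le_max_left d0 4)
    exact_mod_cast this
  have h2 : (cnt d ((insert v hf.toFinset : Finset J) : Set J) k : ℝ) ≤ cnt d Set.univ k := by
    have := cnt_mono hd hfin (Set.subset_univ ((insert v hf.toFinset : Finset J) : Set J)) k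
    exact_mod_cast this
  exact h1.trans (hk.trans (mul_le_mul_of_nonneg_left h2 hε.le))

/-- exponents without variables from a big finite set -/
lemma compl_small [Infinite J] (C c : ℕ) (hg : ∀ n, {j | d j = n}.ncard ≤ C * (n + 1) ^ c)
    {a b : J} (hda : d a = 2) (hdb : d b = 3) (S : Finset J) (s : ℕ) (hs : S.card = s + 1)
    (hc : c < s) (ha : a ∈ S) (hb : b ∈ S) (ε : ℝ) (hε : 0 < ε) :
    ∀ᶠ k : ℕ in atTop, (cnt d ((S : Set J)ᶜ) k : ℝ) ≤ ε * cnt d Set.univ k := by
  obtain ⟨η, hη, hlow⟩ := cnt_lower d hd S s hs a b ha hb hda hdb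
  have h1 : ∀ᶠ n : ℕ in atTop, ({j | d j = n}.ncard : ℝ) ≤ ε / 2 * cnt d S n := by
    filter_upwards [hlow, pow_small C c s hc (ε / 2 * η) (by positivity)] with n h1 h2
    have h3 : ({j | d j = n}.ncard : ℝ) ≤ C * ((n : ℝ) + 1) ^ c := by exact_mod_cast hg n
    calc ({j | d j = n}.ncard : ℝ) ≤ C * ((n : ℝ) + 1) ^ c := h3
      _ ≤ ε / 2 * η * (n : ℝ) ^ s := h2
      _ = ε / 2 * (η * (n : ℝ) ^ s) := by ring
      _ ≤ _ := mul_le_mul_of_nonneg_left h1 (by positivity)
  obtain ⟨d0, hd0⟩ := eventually_atTop.1 h1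
  filter_upwards [low_small hd hfin hda hdb d0 (ε / 2) (by positivity)] with k hk
  have h2 := split_bound hd hfin ((S : Set J)ᶜ) d0 k
  have h3 : (cnt d ((S : Set J)ᶜ) k : ℝ) ≤ cnt d {j | d j < d0} k +
      ∑ n ∈ Icc d0 k, ({j | d j = n}.ncard : ℝ) * cnt d ((S : Set J)ᶜ) (k - n) := by
    exact_mod_cast h2
  have h4 : (cnt d Set.univ k : ℝ) =
      ∑ i ∈ range (k + 1), (cnt d S i : ℝ) * cnt d ((S : Set J)ᶜ) (k - i) := by
    have := conv hd hfin (P := (S : Set J)) (Q := (S : Set J)ᶜ) disjoint_compl_right k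
    rw [Set.union_compl_self] at this
    exact_mod_cast this
  have h5 : ∑ n ∈ Icc d0 k, ({j | d j = n}.ncard : ℝ) * cnt d ((S : Set J)ᶜ) (k - n) ≤
      ε / 2 * cnt d Set.univ k := by
    rw [h4, mul_sum]
    refine le_trans (sum_le_sum fun n hn => ?_) (sum_le_sum_of_subset_of_nonneg
      (s := Icc d0 k) (f := fun i => ε / 2 * ((cnt d S i : ℝ) * cnt d ((S : Set J)ᶜ) (k - i)))
      (fun n hn => ?_) fun _ _ _ => by positivity)
    · rw [← mul_assoc]
      exact mul_le_mul_of_nonneg_right (hd0 n (mem_Icc.1 hn).1) (Nat.cast_nonneg _)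
    · rw [mem_range]
      have := (mem_Icc.1 hn).2
      omega
  linarith

/-- removing one of the two variables of degrees 2 and 3 -/
lemma remove_small [Infinite J] (C c : ℕ) (hg : ∀ n, {j | d j = n}.ncard ≤ C * (n + 1) ^ c)
    {a b : J} (hda : d a = 2) (hdb : d b = 3) (v : J) (hv : v = a ∨ v = b) (ε : ℝ)
    (hε : 0 < ε) :
    ∀ᶠ k : ℕ in atTop, (cnt d ({v}ᶜ) k : ℝ) ≤ ε * cnt d Set.univ k := by
  classical
  obtain ⟨S, hS, hcard⟩ := Infinite.exists_superset_card_eq ({a, b} : Finset J) (c + 2)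
    ((card_le_two).trans (by omega))
  have ha : a ∈ S := hS (mem_insert_self _ _)
  have hb : b ∈ S := hS (mem_insert_of_mem (mem_singleton_self _))
  have hvS : v ∈ S := by
    rcases hv with rfl | rfl
    · exact ha
    · exact hb
  obtain ⟨J0, hJ0⟩ := eventually_atTop.1 (erase_small hd hda hdb S ha hb v hvS (ε / 2)
    (by positivity))
  set W : ℝ := ∑ i ∈ range (J0 + 1), (cnt d ((S.erase v : Finset J) : Set J) i : ℝ) with hW
  have hW0 : 0 ≤ W := sum_nonneg fun _ _ => Nat.cast_nonneg _
  obtain ⟨K1, hK1⟩ := eventually_atTop.1 (compl_small hd hfin C c hg hda hdb S (c + 1) hcard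
    (by omega) ha hb (ε / 2 / (W + 1)) (by positivity))
  filter_upwards [eventually_ge_atTop (J0 + K1)] with k hk
  have h1 : (cnt d ({v}ᶜ) k : ℝ) = ∑ i ∈ range (k + 1),
      (cnt d ((S.erase v : Finset J) : Set J) i : ℝ) * cnt d ((S : Set J)ᶜ) (k - i) := by
    have := conv hd hfin (P := ((S.erase v : Finset J) : Set J)) (Q := (S : Set J)ᶜ) (by
      rw [Set.disjoint_left]
      intro j h1 h2
      exact h2 (mem_of_mem_erase h1)) k
    have h2 : ((S.erase v : Finset J) : Set J) ∪ (S : Set J)ᶜ = {v}ᶜ := by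
      ext j
      simp only [coe_erase, Set.mem_union, Set.mem_sdiff, mem_coe, Set.mem_singleton_iff,
        Set.mem_compl_iff]
      constructor
      · rintro (h | h)
        · exact h.2
        · rintro rfl
          exact h hvS
      · intro h
        by_cases hj : j ∈ S
        · exact Or.inl ⟨hj, h⟩
        · exact Or.inr hj
    rw [h2] at this
    exact_mod_cast this
  have h4 : (cnt d Set.univ k : ℝ) =
      ∑ i ∈ range (k + 1), (cnt d S i : ℝ) * cnt d ((S : Set J)ᶜ) (k - i) := by
    have := conv hd hfin (P := (S : Set J)) (Q := (S : Set J)ᶜ) disjoint_compl_right k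
    rw [Set.union_compl_self] at this
    exact_mod_cast this
  rw [h1, ← sum_range_add_sum_Ico _ (show J0 + 1 ≤ k + 1 by omega)]
  have hA : ∑ i ∈ range (J0 + 1), (cnt d ((S.erase v : Finset J) : Set J) i : ℝ) *
      cnt d ((S : Set J)ᶜ) (k - i) ≤ ε / 2 * cnt d Set.univ k := by
    calc ∑ i ∈ range (J0 + 1), (cnt d ((S.erase v : Finset J) : Set J) i : ℝ) *
          cnt d ((S : Set J)ᶜ) (k - i)
        ≤ ∑ i ∈ range (J0 + 1), (cnt d ((S.erase v : Finset J) : Set J) i : ℝ) *
          (ε / 2 / (W + 1) * cnt d Set.univ k) := by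
          refine sum_le_sum fun i hi => ?_
          rw [mem_range] at hi
          by_cases hi1 : i = 1
          · rw [hi1, cnt_one hd hfin]
            simp
          refine mul_le_mul_of_nonneg_left ?_ (Nat.cast_nonneg _)
          refine (hK1 (k - i) (by omega)).trans
            (mul_le_mul_of_nonneg_left ?_ (by positivity))
          have := cnt_le_add hd hfin hda hdb (k - i) i hi1
          rw [Nat.sub_add_cancel (by omega)] at this
          exact_mod_cast this
      _ = W / (W + 1) * (ε / 2 * cnt d Set.univ k) := by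
          rw [← sum_mul, ← hW]
          ring
      _ ≤ 1 * (ε / 2 * cnt d Set.univ k) := by
          refine mul_le_mul_of_nonneg_right ?_ (by positivity)
          rw [div_le_one (by linarith)]
          linarith
      _ = _ := one_mul _
  have hB : ∑ i ∈ Ico (J0 + 1) (k + 1), (cnt d ((S.erase v : Finset J) : Set J) i : ℝ) *
      cnt d ((S : Set J)ᶜ) (k - i) ≤ ε / 2 * cnt d Set.univ k := by
    rw [h4, mul_sum]
    refine le_trans (sum_le_sum fun n hn => ?_) (sum_le_sum_of_subset_of_nonneg
      (s := Ico (J0 + 1) (k + 1))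
      (f := fun i => ε / 2 * ((cnt d S i : ℝ) * cnt d ((S : Set J)ᶜ) (k - i)))
      (fun n hn => ?_) fun _ _ _ => by positivity)
    · rw [← mul_assoc]
      exact mul_le_mul_of_nonneg_right (hJ0 n (by have := (mem_Ico.1 hn).1; omega))
        (Nat.cast_nonneg _)
    · rw [mem_range]
      exact (mem_Ico.1 hn).2
  linarith

end main

end RatioAux

open RatioAux

theorem ratio {J : Type} [Infinite J] (d : J → ℕ) (hd : ∀ j, 2 ≤ d j)
    (hfin : ∀ n, {j | d j = n}.Finite) (C c : ℕ) (hg : ∀ n, {j | d j = n}.ncard ≤ C * (n + 1) ^ c)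
    (a b : J) (hda : d a = 2) (hdb : d b = 3) (m : ℕ) (hm : m ≠ 1) :
    Tendsto (fun k : ℕ => (cnt d Set.univ k : ℝ) / (cnt d Set.univ (k + m) : ℝ)) atTop (𝓝 1) := by
  classical
  have hab : a ≠ b := by
    rintro rfl
    omega
  -- positivity
  have hpos : ∀ᶠ k : ℕ in atTop, (0 : ℝ) < cnt d Set.univ k := by
    obtain ⟨η, hη, hlow⟩ := cnt_lower d hd {a, b} 1 (card_pair hab) a b
      (mem_insert_self _ _) (mem_insert_of_mem (mem_singleton_self _)) hda hdb
    filter_upwards [hlow, eventually_ge_atTop 1] with k h1 h2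
    have h3 : (1 : ℝ) ≤ k := by exact_mod_cast h2
    have h4 : (cnt d (({a, b} : Finset J) : Set J) k : ℝ) ≤ cnt d Set.univ k := by
      have := cnt_mono hd hfin (Set.subset_univ (({a, b} : Finset J) : Set J)) k
      exact_mod_cast this
    have h5 : 0 < η * (k : ℝ) ^ 1 := by positivity
    linarith
  have hpos' : ∀ n : ℕ, ∀ᶠ k : ℕ in atTop, (0 : ℝ) < cnt d Set.univ (k + n) := fun n =>
    (tendsto_add_atTop_nat n).eventually hpos
  -- one variable
  have hone : ∀ v : J, (v = a ∨ v = b) →
      Tendsto (fun k : ℕ => (cnt d Set.univ k : ℝ) / (cnt d Set.univ (k + d v) : ℝ)) atTop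
        (𝓝 1) := by
    intro v hv
    rw [Metric.tendsto_atTop]
    intro ε hε
    have h1 := remove_small hd hfin C c hg hda hdb v hv (ε / 2) (by positivity)
    obtain ⟨N, hN⟩ := eventually_atTop.1
      (((tendsto_add_atTop_nat (d v)).eventually h1).and (hpos' (d v)))
    refine ⟨N, fun k hk => ?_⟩
    obtain ⟨h2, h3⟩ := hN k hk
    have h4 : (cnt d Set.univ (k + d v) : ℝ) = cnt d Set.univ k + cnt d {v}ᶜ (k + d v) := by
      exact_mod_cast step hd hfin v k
    rw [Real.dist_eq, div_sub_one h3.ne', abs_div, abs_of_pos h3, div_lt_iff₀ h3]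
    have h5 : (0 : ℝ) ≤ cnt d {v}ᶜ (k + d v) := Nat.cast_nonneg _
    rw [show (cnt d Set.univ k : ℝ) - cnt d Set.univ (k + d v) = - cnt d {v}ᶜ (k + d v) by
      rw [h4]; ring, abs_neg, abs_of_nonneg h5]
    have h6 : 0 < ε / 2 * (cnt d Set.univ (k + d v) : ℝ) := by positivity
    linarith
  -- products
  have hadd : ∀ x y : ℕ,
      Tendsto (fun k : ℕ => (cnt d Set.univ k : ℝ) / (cnt d Set.univ (k + x) : ℝ)) atTop (𝓝 1) →
      Tendsto (fun k : ℕ => (cnt d Set.univ k : ℝ) / (cnt d Set.univ (k + y) : ℝ)) atTop (𝓝 1) →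
      Tendsto (fun k : ℕ => (cnt d Set.univ k : ℝ) / (cnt d Set.univ (k + (x + y)) : ℝ)) atTop
        (𝓝 1) := by
    intro x y hx hy
    have h1 := hx.mul (hy.comp (tendsto_add_atTop_nat x))
    rw [mul_one] at h1
    refine h1.congr' ?_
    filter_upwards [hpos' x] with k hk
    simp only [Function.comp]
    rw [div_mul_div_cancel₀ hk.ne', add_assoc]
  induction m using Nat.strong_induction_on with
  | _ m ih =>
    rcases Nat.lt_or_ge m 4 with h | h
    · interval_cases m
      · refine tendsto_const_nhds.congr' ?_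
        filter_upwards [hpos] with k hk
        rw [add_zero, div_self hk.ne']
      · exact absurd rfl hm
      · have := hone a (Or.inl rfl)
        rwa [hda] at this
      · have := hone b (Or.inr rfl)
        rwa [hdb] at this
    · have h2 := hone a (Or.inl rfl)
      rw [hda] at h2
      have := hadd (m - 2) 2 (ih (m - 2) (by omega) (by omega)) h2
      rwa [Nat.sub_add_cancel (by omega)] at this

end

end Pool.Agent.K4H31.MZ
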