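import Mathlib
import Pool.Agent.H569R3.HallShuf

/-!
# Removing the last letter is a derivation of the shuffle product
-/

set_option autoImplicit false

namespace Pool.Agent.K4H31.MZ

open H569R3.Hall

/-- remove the last letter of a word if it is `a` -/
noncomputable def remW (a : ℕ) (w : List ℕ) : V ℕ :=
  if h : w = [] then 0 else if w.getLast h = a then e w.dropLast else 0

/-- remove the last letter if it is `a` -/
noncomputable def rem (a : ℕ) : V ℕ →ₗ[ℚ] V ℕ :=
  (Finsupp.linearCombination ℚ (remW a) : (List ℕ →₀ ℚ) →ₗ[ℚ] V ℕ)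

lemma rem_e (a : ℕ) (w : List ℕ) : rem a (e w) = remW a w := by
  change Finsupp.linearCombination ℚ (remW a) (Finsupp.single w (1 : ℚ)) = _
  rw [Finsupp.linearCombination_single, one_smul]

theorem rem_nil (a : ℕ) : rem a (e []) = 0 := by
  rw [rem_e]
  unfold remW
  rw [dif_pos rfl]

lemma rem_e_snoc (a b : ℕ) (w : List ℕ) :
    rem a (e (w ++ [b])) = if a = b then e w else 0 := by
  rw [rem_e]
  have h : w ++ [b] ≠ [] := by simp
  have h1 : (w ++ [b]).getLast h = b := by simp
  have h2 : (w ++ [b]).dropLast = w := by simp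
  unfold remW
  rw [dif_neg h, h1, h2]
  by_cases hab : a = b
  · rw [if_pos hab.symm, if_pos hab]
  · rw [if_neg (fun h => hab h.symm), if_neg hab]

theorem rem_snoc (a b : ℕ) (f : V ℕ) : rem a (snoc b f) = if a = b then f else 0 := by
  by_cases hab : a = b
  · rw [if_pos hab]
    have h : (rem a).comp (snoc b) = LinearMap.id := by
      apply V_lin_ext
      intro w
      rw [LinearMap.comp_apply, snoc_e, rem_e_snoc, if_pos hab]
      rfl
    exact congrArg (fun L => L f) h
  · rw [if_neg hab]
    have h : (rem a).comp (snoc b) = 0 := by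
      apply V_lin_ext
      intro w
      rw [LinearMap.comp_apply, snoc_e, rem_e_snoc, if_neg hab]
      rfl
    exact congrArg (fun L => L f) h

lemma rem_sh_e (D : ShData ℕ) (a : ℕ) (u v : List ℕ) :
    rem a (D.sh (e u) (e v)) = D.sh (rem a (e u)) (e v) + D.sh (e u) (rem a (e v)) := by
  rcases List.eq_nil_or_concat u with rfl | ⟨u, p, rfl⟩
  · rw [D.one_sh, D.one_sh, rem_nil, map_zero, LinearMap.zero_apply, zero_add]
  rcases List.eq_nil_or_concat v with rfl | ⟨v, q, rfl⟩
  · rw [D.sh_one, D.sh_one, rem_nil, map_zero, add_zero]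
  simp only [List.concat_eq_append]
  rw [D.sh_snoc, map_add, rem_snoc, rem_snoc, rem_e_snoc, rem_e_snoc]
  congr 1
  · by_cases h : a = p
    · rw [if_pos h, if_pos h]
    · rw [if_neg h, if_neg h, map_zero, LinearMap.zero_apply]
  · by_cases h : a = q
    · rw [if_pos h, if_pos h]
    · rw [if_neg h, if_neg h, map_zero]

theorem rem_sh (D : ShData ℕ) (a : ℕ) (x y : V ℕ) :
    rem a (D.sh x y) = D.sh (rem a x) y + D.sh x (rem a y) := by
  refine V_induction (p := fun x => rem a (D.sh x y) = D.sh (rem a x) y + D.sh x (rem a y)) x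
    (by simp) ?_ ?_
  · intro f g hf hg
    simp only [map_add, LinearMap.add_apply, hf, hg]
    abel
  intro c u
  simp only [map_smul, LinearMap.smul_apply]
  rw [← smul_add]
  congr 1
  refine V_induction (p := fun y => rem a (D.sh (e u) y)
    = D.sh (rem a (e u)) y + D.sh (e u) (rem a y)) y (by simp) ?_ ?_
  · intro f g hf hg
    simp only [map_add, hf, hg]
    abel
  intro c v
  simp only [map_smul]
  rw [← smul_add]
  congr 1
  exact rem_sh_e D a u v

lemma rem_coe (a : ℕ) (x : V ℕ) (v : List ℕ) :
    DFunLike.coe (F := List ℕ →₀ ℚ) (rem a x) v = DFunLike.coe (F := List ℕ →₀ ℚ) x (v ++ [a]) := by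
  classical
  refine V_induction (p := fun x => DFunLike.coe (F := List ℕ →₀ ℚ) (rem a x) v
    = DFunLike.coe (F := List ℕ →₀ ℚ) x (v ++ [a])) x ?_ ?_ ?_
  · rw [map_zero]
    rfl
  · intro f g hf hg
    rw [map_add]
    change DFunLike.coe (F := List ℕ →₀ ℚ) (rem a f) v + DFunLike.coe (F := List ℕ →₀ ℚ) (rem a g) v
      = DFunLike.coe (F := List ℕ →₀ ℚ) f (v ++ [a]) + DFunLike.coe (F := List ℕ →₀ ℚ) g (v ++ [a])
    rw [hf, hg]
  · intro c w
    rw [map_smul]
    change c * DFunLike.coe (F := List ℕ →₀ ℚ) (rem a (e w)) v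
      = c * DFunLike.coe (F := List ℕ →₀ ℚ) (e w) (v ++ [a])
    congr 1
    rcases List.eq_nil_or_concat w with rfl | ⟨w, b, rfl⟩
    · rw [rem_nil]
      change (0 : ℚ) = (Finsupp.single ([] : List ℕ) (1 : ℚ)) (v ++ [a])
      rw [Finsupp.single_apply, if_neg]
      simp
    · rw [List.concat_eq_append, rem_e_snoc]
      change _ = (Finsupp.single (w ++ [b]) (1 : ℚ)) (v ++ [a])
      rw [Finsupp.single_apply]
      by_cases hab : a = b
      · rw [if_pos hab]
        change (Finsupp.single w (1 : ℚ)) v = _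
        rw [Finsupp.single_apply, hab]
        by_cases hw : w = v
        · rw [if_pos hw, if_pos (by rw [hw])]
        · rw [if_neg hw, if_neg]
          intro h
          exact hw (List.append_cancel_right h)
      · rw [if_neg hab, if_neg]
        · rfl
        · intro h
          apply hab
          have h2 := congrArg List.reverse h
          simp at h2
          exact h2.1.symm

theorem eq_const (x : V ℕ) (h : ∀ a, rem a x = 0) :
    x = (DFunLike.coe (F := List ℕ →₀ ℚ) x []) • (e [] : V ℕ) := by
  classical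
  change (x : List ℕ →₀ ℚ) = (DFunLike.coe (F := List ℕ →₀ ℚ) x []) •
    (Finsupp.single ([] : List ℕ) (1 : ℚ))
  apply Finsupp.ext
  intro w
  rw [Finsupp.smul_apply, Finsupp.single_apply, smul_eq_mul]
  rcases List.eq_nil_or_concat w with rfl | ⟨w, b, rfl⟩
  · rw [if_pos rfl, mul_one]
  · rw [List.concat_eq_append, if_neg (by simp), mul_zero, ← rem_coe b x w, h b]
    rfl

end Pool.Agent.K4H31.MZ
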