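import Pool.Agent.K4H31.MZ.DZero
import Pool.Agent.K4H31.MZ.Rem
import Pool.Agent.K4H54.MZ.Main

/-! The ring `ℚ[π²] ⊗ (shuffle algebra)` with its derivations. -/

set_option autoImplicit false

open Finset

namespace Pool.Agent.K4H31.MZ

open Pool.Agent.K4H54.MZ H569R3.Hall

/-- `ℚ[π²] ⊗ (shuffle algebra)` -/
def HR : Type := Bas →₀ ℚ

noncomputable instance : AddCommGroup HR := inferInstanceAs (AddCommGroup (Bas →₀ ℚ))
noncomputable instance : Module ℚ HR := inferInstanceAs (Module ℚ (Bas →₀ ℚ))

/-- `f ↦ π^(2 i) f` -/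
noncomputable def inj (i : ℕ) : V ℕ →ₗ[ℚ] HR :=
  (Finsupp.lmapDomain ℚ ℚ (fun w : List ℕ => ((i, w) : Bas)) : (List ℕ →₀ ℚ) →ₗ[ℚ] (Bas →₀ ℚ))

theorem inj_e (i : ℕ) (w : List ℕ) : inj i (e w) = (Finsupp.single (i, w) 1 : Bas →₀ ℚ) := by
  change Finsupp.mapDomain _ (Finsupp.single w (1 : ℚ)) = _
  rw [Finsupp.mapDomain_single]

theorem HR_ind {p : HR → Prop} (x : HR) (h0 : p 0) (hadd : ∀ f g, p f → p g → p (f + g))
    (hs : ∀ i f, p (inj i f)) : p x := by
  refine Finsupp.induction_linear (motive := p) x h0 hadd ?_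
  rintro ⟨i, w⟩ c
  have h := hs i (c • e w)
  rw [map_smul, inj_e] at h
  have h2 : (c • (Finsupp.single (i, w) (1 : ℚ)) : Bas →₀ ℚ) = Finsupp.single (i, w) c := by
    rw [Finsupp.smul_single, smul_eq_mul, mul_one]
  exact h2 ▸ h

theorem mulH_add_left (x y z : Bas →₀ ℚ) : mulH (x + y) z = mulH x z + mulH y z := by
  unfold mulH
  rw [Finsupp.sum_add_index']
  · intro p
    simp
  · intro p c d
    rw [← Finsupp.sum_add]
    refine Finsupp.sum_congr fun q _ => ?_
    rw [← add_smul]
    ring_nf

theorem mulH_smul_left (c : ℚ) (x z : Bas →₀ ℚ) : mulH (c • x) z = c • mulH x z := by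
  unfold mulH
  rw [Finsupp.smul_sum, Finsupp.sum_smul_index']
  · refine Finsupp.sum_congr fun p _ => ?_
    rw [Finsupp.smul_sum]
    refine Finsupp.sum_congr fun q _ => ?_
    rw [smul_smul, smul_eq_mul]
    ring_nf
  · intro p
    simp

/-- the product as a bilinear map -/
noncomputable def mulB : HR →ₗ[ℚ] HR →ₗ[ℚ] HR :=
  LinearMap.mk₂ ℚ (fun x y => (mulH x y : Bas →₀ ℚ))
    (fun x y z => mulH_add_left x y z) (fun c x z => mulH_smul_left c x z)
    (fun x y z => map_add (mulL x) y z) (fun c x z => map_smul (mulL x) c z)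

theorem mulB_apply (x y : HR) : mulB x y = (mulH x y : Bas →₀ ℚ) := rfl

theorem mulH_single (p q : Bas) : mulH (Finsupp.single p 1) (Finsupp.single q 1) =
    Finsupp.mapDomain (fun w => ((p.1 + q.1, w) : Bas)) (shM p.2 q.2) := by
  unfold mulH shM
  rw [Finsupp.sum_single_index, Finsupp.sum_single_index]
  · rw [one_mul, one_smul, Finsupp.mapDomain_finsetSum]
    refine sum_congr rfl fun S _ => ?_
    rw [Finsupp.mapDomain_single]
  · simp
  · simp

theorem mulB_inj (i j : ℕ) (f g : V ℕ) : mulB (inj i f) (inj j g) = inj (i + j) (D0.sh f g) := by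
  have key : ∀ u : List ℕ, mulB (inj i (e u)) ∘ₗ inj j = inj (i + j) ∘ₗ D0.sh (e u) := by
    intro u
    apply V_lin_ext
    intro v
    rw [LinearMap.comp_apply, LinearMap.comp_apply, D0_sh, inj_e, inj_e, mulB_apply]
    exact mulH_single (i, u) (j, v)
  have key2 : (mulB ∘ₗ inj i).compl₂ (inj j) = (D0.sh).compr₂ (inj (i + j)) := by
    apply V_lin_ext
    intro u
    apply LinearMap.ext
    intro g
    exact LinearMap.congr_fun (key u) g
  exact LinearMap.congr_fun (LinearMap.congr_fun key2 f) g

theorem mulB_comm (x y : HR) : mulB x y = mulB y x := by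
  refine HR_ind (p := fun x => mulB x y = mulB y x) x (by simp) ?_ ?_
  · intro f g hf hg
    rw [map_add, map_add, LinearMap.add_apply, hf, hg]
  · intro i f
    refine HR_ind (p := fun y => mulB (inj i f) y = mulB y (inj i f)) y (by simp) ?_ ?_
    · intro f g hf hg
      rw [map_add, map_add, LinearMap.add_apply, hf, hg]
    · intro j g
      rw [mulB_inj, mulB_inj, D0.comm, add_comm]

theorem mulB_assoc (x y z : HR) : mulB (mulB x y) z = mulB x (mulB y z) := by
  refine HR_ind (p := fun x => mulB (mulB x y) z = mulB x (mulB y z)) x (by simp) ?_ ?_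
  · intro f g hf hg
    simp only [map_add, LinearMap.add_apply, hf, hg]
  · intro i f
    refine HR_ind (p := fun y => mulB (mulB (inj i f) y) z = mulB (inj i f) (mulB y z)) y
      (by simp) ?_ ?_
    · intro f g hf hg
      simp only [map_add, LinearMap.add_apply, hf, hg]
    · intro j g
      refine HR_ind (p := fun z => mulB (mulB (inj i f) (inj j g)) z =
        mulB (inj i f) (mulB (inj j g) z)) z (by simp) ?_ ?_
      · intro f g hf hg
        simp only [map_add, hf, hg]
      · intro k h
        rw [mulB_inj, mulB_inj, mulB_inj, mulB_inj, D0.assoc, add_assoc]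

noncomputable instance ringHR : CommRing HR :=
  { (inferInstance : AddCommGroup HR) with
    mul := fun x y => mulB x y
    one := inj 0 (e [])
    left_distrib := fun x y z => map_add (mulB x) y z
    right_distrib := fun x y z => LinearMap.map_add₂ mulB x y z
    zero_mul := fun x => by
      change mulB 0 x = 0
      rw [map_zero]; rfl
    mul_zero := fun x => by
      change mulB x 0 = 0
      exact map_zero _
    mul_assoc := fun x y z => mulB_assoc x y z
    one_mul := fun x => by
      change mulB (inj 0 (e [])) x = x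
      refine HR_ind (p := fun x => mulB (inj 0 (e [])) x = x) x (by simp) ?_ ?_
      · intro f g hf hg
        rw [map_add, hf, hg]
      · intro i f
        rw [mulB_inj, D0.one_sh, zero_add]
    mul_one := fun x => by
      change mulB x (inj 0 (e [])) = x
      rw [mulB_comm]
      refine HR_ind (p := fun x => mulB (inj 0 (e [])) x = x) x (by simp) ?_ ?_
      · intro f g hf hg
        rw [map_add, hf, hg]
      · intro i f
        rw [mulB_inj, D0.one_sh, zero_add]
    mul_comm := fun x y => mulB_comm x y }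

noncomputable instance algebraHR : Algebra ℚ HR :=
  Algebra.ofModule
    (fun r x y => by
      change mulB (r • x) y = r • mulB x y
      exact LinearMap.map_smul₂ _ _ _ _)
    (fun r x y => by
      change mulB x (r • y) = r • mulB x y
      exact map_smul _ _ _)

theorem mul_def' (x y : HR) : x * y = mulB x y := rfl
theorem one_def' : (1 : HR) = inj 0 (e []) := rfl

theorem inj_mul (i j : ℕ) (f g : V ℕ) : inj i f * inj j g = inj (i + j) (D0.sh f g) :=
  mulB_inj i j f g

/-- the derivation `remove the last letter if it is a` -/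
noncomputable def dl (a : ℕ) : HR →ₗ[ℚ] HR :=
  (Finsupp.lcomapDomain (R := ℚ) (M := ℚ) (fun p : Bas => ((p.1, p.2 ++ [a]) : Bas)) (by
    rintro ⟨i, u⟩ ⟨j, v⟩ h
    simpa using h) : (Bas →₀ ℚ) →ₗ[ℚ] (Bas →₀ ℚ))

theorem dl_apply (a : ℕ) (x : HR) (i : ℕ) (w : List ℕ) :
    (DFunLike.coe (F := Bas →₀ ℚ) (dl a x) (i, w)) =
      DFunLike.coe (F := Bas →₀ ℚ) x (i, w ++ [a]) := rfl

/-- the derivation `d / d π²` -/
noncomputable def dp : HR →ₗ[ℚ] HR :=
  (Finsupp.linearCombination ℚ (fun p : Bas =>
    (Finsupp.single (p.1 - 1, p.2) (p.1 : ℚ) : Bas →₀ ℚ)) : (Bas →₀ ℚ) →ₗ[ℚ] (Bas →₀ ℚ))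

theorem dp_inj (i : ℕ) (f : V ℕ) : dp (inj i f) = (i : ℚ) • inj (i - 1) f := by
  have : dp ∘ₗ inj i = (i : ℚ) • inj (i - 1) := by
    apply V_lin_ext
    intro w
    rw [LinearMap.comp_apply, LinearMap.smul_apply, inj_e, inj_e]
    change Finsupp.linearCombination ℚ _ (Finsupp.single (i, w) (1 : ℚ)) =
      (i : ℚ) • (Finsupp.single (i - 1, w) (1 : ℚ) : Bas →₀ ℚ)
    rw [Finsupp.linearCombination_single, one_smul, Finsupp.smul_single, smul_eq_mul, mul_one]
  exact LinearMap.congr_fun this f

theorem dl_inj (a i : ℕ) (f : V ℕ) : dl a (inj i f) = inj i (rem a f) := by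
  have : dl a ∘ₗ inj i = inj i ∘ₗ rem a := by
    apply V_lin_ext
    intro w
    rw [LinearMap.comp_apply, LinearMap.comp_apply, inj_e]
    rcases List.eq_nil_or_concat' w with rfl | ⟨u, b, rfl⟩
    · rw [rem_nil, map_zero]
      refine Finsupp.ext fun q => ?_
      obtain ⟨j, v⟩ := q
      rw [dl_apply]
      change (Finsupp.single (i, []) (1 : ℚ) : Bas →₀ ℚ) (j, v ++ [a]) = 0
      rw [Finsupp.single_apply, if_neg]
      simp
    · rw [← snoc_e, rem_snoc]
      refine Finsupp.ext fun q => ?_
      obtain ⟨j, v⟩ := q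
      rw [dl_apply]
      split_ifs with hab
      · subst hab
        rw [inj_e]
        change (Finsupp.single (i, u ++ [a]) (1 : ℚ) : Bas →₀ ℚ) (j, v ++ [a]) =
          (Finsupp.single (i, u) (1 : ℚ) : Bas →₀ ℚ) (j, v)
        rw [Finsupp.single_apply, Finsupp.single_apply]
        simp
      · rw [map_zero]
        change (Finsupp.single (i, u ++ [b]) (1 : ℚ) : Bas →₀ ℚ) (j, v ++ [a]) = 0
        rw [Finsupp.single_apply, if_neg]
        simp only [Prod.mk.injEq, List.append_singleton_inj, not_and]
        intro _ _ h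
        exact hab h.symm
  exact LinearMap.congr_fun this f

theorem dl_mul (a : ℕ) (x y : HR) : dl a (x * y) = x * dl a y + y * dl a x := by
  refine HR_ind (p := fun x => dl a (x * y) = x * dl a y + y * dl a x) x (by simp) ?_ ?_
  · intro f g hf hg
    rw [add_mul, map_add, map_add, hf, hg]
    ring
  · intro i f
    refine HR_ind (p := fun y => dl a (inj i f * y) = inj i f * dl a y + y * dl a (inj i f)) y
      (by simp) ?_ ?_
    · intro f g hf hg
      rw [mul_add, map_add, map_add, hf, hg]
      ring
    · intro j g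
      rw [inj_mul, dl_inj, dl_inj, dl_inj, rem_sh, map_add, inj_mul, inj_mul, add_comm]
      congr 1
      rw [add_comm j i, D0.comm g]

theorem dp_mul (x y : HR) : dp (x * y) = x * dp y + y * dp x := by
  refine HR_ind (p := fun x => dp (x * y) = x * dp y + y * dp x) x (by simp) ?_ ?_
  · intro f g hf hg
    rw [add_mul, map_add, map_add, hf, hg]
    ring
  · intro i f
    refine HR_ind (p := fun y => dp (inj i f * y) = inj i f * dp y + y * dp (inj i f)) y
      (by simp) ?_ ?_
    · intro f g hf hg
      rw [mul_add, map_add, map_add, hf, hg]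
      ring
    · intro j g
      rw [inj_mul, dp_inj, dp_inj, dp_inj, mul_smul_comm, mul_smul_comm, inj_mul, inj_mul,
        D0.comm g f]
      rcases i with _ | i
      · rcases j with _ | j
        · simp
        · simp
      · rcases j with _ | j
        · simp
        · rw [show i + 1 + (j + 1) - 1 = i + j + 1 by omega,
            show i + 1 + (j + 1 - 1) = i + j + 1 by omega,
            show j + 1 + (i + 1 - 1) = i + j + 1 by omega, ← add_smul]
          congr 1
          push_cast
          ring

/-- the derivations -/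
noncomputable def der : Option ℕ → Derivation ℚ HR HR
  | none => Derivation.mk' dp (fun x y => by
      rw [smul_eq_mul, smul_eq_mul]
      exact dp_mul x y)
  | some a => Derivation.mk' (dl a) (fun x y => by
      rw [smul_eq_mul, smul_eq_mul]
      exact dl_mul a x y)

/-- the weights of the derivations -/
def dw : Option ℕ → ℕ
  | none => 2
  | some a => 2 * a + 3

end Pool.Agent.K4H31.MZ
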