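import Mathlib

/-!
# Propagation of a shortfall

(Formalised by helper99.)
-/

set_option autoImplicit false

namespace Pool.Agent.K4H31.MZ

theorem shift_sum (D P : ℕ → ℕ) (hconv : ∀ k, k * D k = ∑ n ∈ Finset.Icc 1 k, P n * D (k - n))
    (s i : ℕ) : ∑ n ∈ Finset.Icc 1 i, (P n : ℚ) * (if s ≤ i - n then (D (i - n - s) : ℚ) else 0) =
      if s ≤ i then ((i : ℚ) - s) * D (i - s) else 0 := by
  by_cases h : s ≤ i
  · rw [if_pos h]
    have h1 := congrArg (Nat.cast : ℕ → ℚ) (hconv (i - s))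
    push_cast [Nat.cast_sub h] at h1
    rw [h1]
    have h2 : Finset.Icc 1 (i - s) ⊆ Finset.Icc 1 i := Finset.Icc_subset_Icc_right (by omega)
    rw [← Finset.sum_subset h2]
    · refine Finset.sum_congr rfl fun n hn => ?_
      rw [Finset.mem_Icc] at hn
      rw [if_pos (by omega), show i - n - s = i - s - n by omega]
    · intro n hn hn'
      rw [Finset.mem_Icc] at hn hn'
      rw [if_neg (by omega), mul_zero]
  · rw [if_neg h]
    refine Finset.sum_eq_zero fun n hn => ?_
    rw [if_neg (by omega), mul_zero]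

theorem shortfall (b D P : ℕ → ℕ) (hD0 : D 0 = 1) (hD1 : D 1 = 0) (hD2 : D 2 = 1)
    (hD : ∀ n, D (n + 3) = D (n + 1) + D n)
    (hconv : ∀ k, k * D k = ∑ n ∈ Finset.Icc 1 k, P n * D (k - n))
    (hb : ∀ k, ∑ n ∈ Finset.Icc 1 k, P n * b (k - n) ≤ k * b k) (m j : ℕ) :
    b m * (2 * (m + 3) * D (j + 1) + 3 * (m + 2) * D j) ≤ (m + 2) * (m + 3) * b (m + j + 3) := by
  let F : ℕ → ℕ → ℚ := fun s i => if s ≤ i then (D (i - s) : ℚ) else 0
  let γ : ℕ → ℚ := fun i => F 0 i - (m : ℚ) / (m + 2) * F 2 i - (m : ℚ) / (m + 3) * F 3 i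
  have hm2 : (m : ℚ) + 2 ≠ 0 := by positivity
  have hm3 : (m : ℚ) + 3 ≠ 0 := by positivity
  have hrec : ∀ i, 1 ≤ i → F 0 i = F 2 i + F 3 i := by
    intro i hi
    match i, hi with
    | 1, _ => simp [F, hD1]
    | 2, _ => simp [F, hD0, hD2]
    | n + 3, _ =>
      simp only [F]
      rw [if_pos (by omega), if_pos (by omega), if_pos (by omega)]
      rw [show n + 3 - 0 = n + 3 by omega, show n + 3 - 2 = n + 1 by omega,
        show n + 3 - 3 = n by omega, hD]
      push_cast
      ring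
  have hsum : ∀ i, 1 ≤ i → ((m : ℚ) + i) * γ i = ∑ n ∈ Finset.Icc 1 i, (P n : ℚ) * γ (i - n) := by
    intro i hi
    have h1 : ∀ s, ∑ n ∈ Finset.Icc 1 i, (P n : ℚ) * F s (i - n) = ((i : ℚ) - s) * F s i := by
      intro s
      have h2 := shift_sum D P hconv s i
      simp only [F]
      rw [h2]
      split_ifs <;> simp
    have h2 : ∑ n ∈ Finset.Icc 1 i, (P n : ℚ) * γ (i - n) =
        ∑ n ∈ Finset.Icc 1 i, (P n : ℚ) * F 0 (i - n)
        - (m : ℚ) / (m + 2) * ∑ n ∈ Finset.Icc 1 i, (P n : ℚ) * F 2 (i - n)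
        - (m : ℚ) / (m + 3) * ∑ n ∈ Finset.Icc 1 i, (P n : ℚ) * F 3 (i - n) := by
      rw [Finset.mul_sum, Finset.mul_sum, ← Finset.sum_sub_distrib, ← Finset.sum_sub_distrib]
      refine Finset.sum_congr rfl fun n _ => ?_
      simp only [γ]
      ring
    rw [h2, h1, h1, h1]
    simp only [γ]
    rw [hrec i hi]
    push_cast
    field_simp
    ring
  have hmain : ∀ i, (b m : ℚ) * γ i ≤ b (m + i) := by
    intro i
    induction i using Nat.strong_induction_on with
    | _ i ih =>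
      rcases Nat.eq_zero_or_pos i with rfl | hi
      · simp [γ, F, hD0]
      · have h1 : ∑ n ∈ Finset.Icc 1 i, (P n : ℚ) * b (m + i - n) ≤ ((m : ℚ) + i) * b (m + i) := by
          have h2 := hb (m + i)
          have h3 : ∑ n ∈ Finset.Icc 1 i, P n * b (m + i - n) ≤
              ∑ n ∈ Finset.Icc 1 (m + i), P n * b (m + i - n) :=
            Finset.sum_le_sum_of_subset (Finset.Icc_subset_Icc_right (by omega))
          have h4 : ∑ n ∈ Finset.Icc 1 i, P n * b (m + i - n) ≤ (m + i) * b (m + i) := h3.trans h2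
          exact_mod_cast h4
        have h2 : (b m : ℚ) * ∑ n ∈ Finset.Icc 1 i, (P n : ℚ) * γ (i - n) ≤
            ∑ n ∈ Finset.Icc 1 i, (P n : ℚ) * b (m + i - n) := by
          rw [Finset.mul_sum]
          refine Finset.sum_le_sum fun n hn => ?_
          rw [Finset.mem_Icc] at hn
          have h3 := ih (i - n) (by omega)
          rw [show m + (i - n) = m + i - n by omega] at h3
          have h4 : (0 : ℚ) ≤ P n := Nat.cast_nonneg _
          nlinarith
        rw [← hsum i hi] at h2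
        have h5 : (0 : ℚ) < (m : ℚ) + i := by positivity
        have h6 := h2.trans h1
        have h7 : ((m : ℚ) + i) * ((b m : ℚ) * γ i) ≤ ((m : ℚ) + i) * b (m + i) := by linarith
        exact le_of_mul_le_mul_left h7 h5
  have h1 := hmain (j + 3)
  have h2 : γ (j + 3) = 2 / ((m : ℚ) + 2) * D (j + 1) + 3 / ((m : ℚ) + 3) * D j := by
    simp only [γ, F]
    rw [if_pos (by omega), if_pos (by omega), if_pos (by omega)]
    rw [show j + 3 - 0 = j + 3 by omega, show j + 3 - 2 = j + 1 by omega,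
      show j + 3 - 3 = j by omega, hD]
    push_cast
    field_simp
    ring
  rw [h2, show m + (j + 3) = m + j + 3 by ring] at h1
  have h3 : (b m : ℚ) * (2 * (m + 3) * D (j + 1) + 3 * (m + 2) * D j) ≤
      (m + 2) * (m + 3) * b (m + j + 3) := by
    have h4 : (0 : ℚ) ≤ ((m : ℚ) + 2) * (m + 3) := by positivity
    have h5 := mul_le_mul_of_nonneg_left h1 h4
    have h6 : ((m : ℚ) + 2) * (m + 3) * ((b m : ℚ) * (2 / ((m : ℚ) + 2) * D (j + 1) +
        3 / ((m : ℚ) + 3) * D j)) = (b m : ℚ) * (2 * (m + 3) * D (j + 1) + 3 * (m + 2) * D j) := by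
      field_simp
    rw [h6] at h5
    exact h5
  exact_mod_cast h3

end Pool.Agent.K4H31.MZ
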