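import Pool.Agent.K4H31.MZ.Ring
import Pool.Agent.K4H31.MZ.Leray
import Pool.Agent.K4H31.MZ.Dim

/-! The algebra `ℚ[π²] ⊗ (shuffle algebra)` is a graded polynomial algebra. -/

set_option autoImplicit false

open Finset

namespace Pool.Agent.K4H31.MZ

open Pool.Agent.K4H54.MZ H569R3.Hall

/-- the parts of the algebra -/
noncomputable def GH (k : ℕ) : Submodule ℚ HR := (H k : Submodule ℚ (Bas →₀ ℚ))

theorem internal : DirectSum.IsInternal GH := by
  rw [DirectSum.isInternal_submodule_iff_iSupIndep_and_iSup_eq_top]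
  have hdisj : ∀ k : ℕ, Disjoint (H k) (⨆ j : ℕ, ⨆ _ : j ≠ k, H j) := by
    intro k
    have h1 : (⨆ j : ℕ, ⨆ _ : j ≠ k, H j) ≤
        Finsupp.supported ℚ ℚ {p : Bas | wt p ≠ k} := by
      refine iSup_le fun j => iSup_le fun hj => ?_
      unfold H
      apply Finsupp.supported_mono
      intro p hp
      have hp' : wt p = j := hp
      show wt p ≠ k
      rw [hp']
      exact hj
    refine Disjoint.mono_right h1 ?_
    unfold H
    apply Finsupp.disjoint_supported_supported
    rw [Set.disjoint_left]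
    intro p hp hp2
    exact hp2 hp
  have htop : (⨆ k : ℕ, H k) = ⊤ := by
    unfold H
    rw [← Finsupp.supported_iUnion]
    convert Finsupp.supported_univ
    rw [Set.eq_univ_iff_forall]
    intro p
    exact Set.mem_iUnion.2 ⟨wt p, rfl⟩
  exact ⟨fun k => hdisj k, htop⟩

theorem mem_GH {k : ℕ} {x : HR} (hx : x ∈ GH k) (p : Bas) (hp : wt p ≠ k) :
    DFunLike.coe (F := Bas →₀ ℚ) x p = 0 := by
  by_contra h
  exact hp (mem_H.1 (show (x : Bas →₀ ℚ) ∈ H k from hx) p (Finsupp.mem_support_iff.2 h))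

theorem of_coeff {k : ℕ} {x : HR} (h : ∀ p : Bas, wt p ≠ k →
    DFunLike.coe (F := Bas →₀ ℚ) x p = 0) : x ∈ GH k := by
  have h2 : (x : Bas →₀ ℚ) ∈ H k := mem_H.2 fun p hp => by
    by_contra hne
    exact (Finsupp.mem_support_iff.1 hp) (h p hne)
  exact h2

theorem wt_snoc (i a : ℕ) (w : List ℕ) : wt (i, w ++ [a]) = wt (i, w) + (2 * a + 3) := by
  unfold wt
  simp only [List.map_append, List.map_cons, List.map_nil, List.sum_append, List.sum_cons,
    List.sum_nil]
  ring

theorem dp_apply (x : HR) (i : ℕ) (w : List ℕ) :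
    DFunLike.coe (F := Bas →₀ ℚ) (dp x) (i, w) =
      ((i : ℚ) + 1) * DFunLike.coe (F := Bas →₀ ℚ) x (i + 1, w) := by
  refine Finsupp.induction_linear (motive := fun x => DFunLike.coe (F := Bas →₀ ℚ) (dp x) (i, w) =
      ((i : ℚ) + 1) * DFunLike.coe (F := Bas →₀ ℚ) x (i + 1, w)) x ?_ ?_ ?_
  · show DFunLike.coe (F := Bas →₀ ℚ) (dp (0 : HR)) (i, w) = _
    rw [map_zero]
    change (0 : ℚ) = _ * 0
    rw [mul_zero]
  · intro f g hf hg
    have h1 : dp ((f + g : Bas →₀ ℚ) : HR) = dp f + dp g := map_add dp (f : HR) (g : HR)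
    show DFunLike.coe (F := Bas →₀ ℚ) (dp ((f + g : Bas →₀ ℚ) : HR)) (i, w) = _
    rw [h1]
    change DFunLike.coe (F := Bas →₀ ℚ) (dp f) (i, w) +
      DFunLike.coe (F := Bas →₀ ℚ) (dp g) (i, w) = ((i : ℚ) + 1) * (f (i + 1, w) + g (i + 1, w))
    rw [hf, hg]
    ring
  · rintro ⟨j, v⟩ c
    change (Finsupp.linearCombination ℚ (fun p : Bas =>
      (Finsupp.single (p.1 - 1, p.2) (p.1 : ℚ) : Bas →₀ ℚ)) (Finsupp.single (j, v) c)) (i, w) =
      ((i : ℚ) + 1) * (Finsupp.single ((j, v) : Bas) c) (i + 1, w)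
    rw [Finsupp.linearCombination_single, Finsupp.smul_apply, Finsupp.single_apply,
      Finsupp.single_apply, smul_eq_mul]
    rcases j with _ | j
    · simp
    · by_cases h : (j, v) = ((i, w) : Bas)
      · obtain ⟨rfl, rfl⟩ := Prod.mk.inj h
        simp
        ring
      · rw [if_neg (by simpa using h), if_neg]
        · simp
        · intro h2
          apply h
          simpa using h2

theorem dw_none : dw none = 2 := rfl

theorem dw_some (a : ℕ) : dw (some a) = 2 * a + 3 := rfl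

theorem exists_pres : ∃ J : Type, Nonempty (Pres J) := by
  have hone : (1 : HR) = (Finsupp.single (0, []) 1 : Bas →₀ ℚ) := by
    rw [one_def', inj_e]
  have hmem1 : (1 : HR) ∈ GH 0 := by
    rw [hone]
    show (Finsupp.single (0, []) 1 : Bas →₀ ℚ) ∈ H 0
    unfold H
    exact Finsupp.single_mem_supported _ _ wt_zero_nil
  have : Nontrivial HR := by
    refine ⟨1, 0, fun h => ?_⟩
    have h2 : DFunLike.coe (F := Bas →₀ ℚ) (1 : HR) (0, []) = 0 := by
      rw [h]
      rfl
    rw [hone] at h2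
    have h3 : (Finsupp.single ((0, []) : Bas) (1 : ℚ) : Bas →₀ ℚ) (0, []) = 0 := h2
    rw [Finsupp.single_eq_same] at h3
    exact one_ne_zero h3
  have hmul : ∀ m n (x y : HR), x ∈ GH m → y ∈ GH n → x * y ∈ GH (m + n) := fun m n x y hx hy =>
    mulH_mem (x := (x : Bas →₀ ℚ)) (y := (y : Bas →₀ ℚ)) hx hy
  have hG0 : ∀ x ∈ GH 0, ∃ c : ℚ, x = algebraMap ℚ HR c := by
    intro x hx
    refine ⟨DFunLike.coe (F := Bas →₀ ℚ) x (0, []), ?_⟩
    rw [Algebra.algebraMap_eq_smul_one, hone]
    refine Finsupp.ext fun p => ?_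
    change DFunLike.coe (F := Bas →₀ ℚ) x p =
      (DFunLike.coe (F := Bas →₀ ℚ) x (0, []) • (Finsupp.single (0, []) 1 : Bas →₀ ℚ)) p
    rw [Finsupp.smul_apply, Finsupp.single_apply]
    split_ifs with h
    · rw [← h]
      simp
    · rw [smul_zero]
      apply mem_GH hx
      intro h2
      have h3 : p ∈ B 0 := h2
      rw [B_zero] at h3
      exact h h3.symm
  have hδ : ∀ (i : Option ℕ) (n : ℕ) (x : HR), x ∈ GH (n + dw i) → der i x ∈ GH n := by
    rintro (_ | a) n x hx
    · apply of_coeff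
      rintro ⟨i, w⟩ hp
      change DFunLike.coe (F := Bas →₀ ℚ) (dp x) (i, w) = 0
      rw [dp_apply, mem_GH hx, mul_zero]
      rw [wt_succ]
      intro h
      apply hp
      first | rw [dw_none] at h | rw [dw_some] at h
      omega
    · apply of_coeff
      rintro ⟨i, w⟩ hp
      change DFunLike.coe (F := Bas →₀ ℚ) (dl a x) (i, w) = 0
      rw [dl_apply, mem_GH hx]
      rw [wt_snoc]
      intro h
      apply hp
      first | rw [dw_none] at h | rw [dw_some] at h
      omega
  have hδ' : ∀ (i : Option ℕ) (n : ℕ) (x : HR), n < dw i → x ∈ GH n → der i x = 0 := by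
    rintro (_ | a) n x hn hx
    · refine Finsupp.ext fun p => ?_
      obtain ⟨i, w⟩ := p
      change DFunLike.coe (F := Bas →₀ ℚ) (dp x) (i, w) = 0
      rw [dp_apply, mem_GH hx, mul_zero]
      rw [wt_succ]
      first | rw [dw_none] at hn | rw [dw_some] at hn
      omega
    · refine Finsupp.ext fun p => ?_
      obtain ⟨i, w⟩ := p
      change DFunLike.coe (F := Bas →₀ ℚ) (dl a x) (i, w) = 0
      rw [dl_apply, mem_GH hx]
      rw [wt_snoc]
      first | rw [dw_none] at hn | rw [dw_some] at hn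
      omega
  have hker : ∀ n, 0 < n → ∀ x ∈ GH n, (∀ i, der i x = 0) → x = 0 := by
    intro n hn x hx h
    refine Finsupp.ext fun p => ?_
    obtain ⟨i, w⟩ := p
    change DFunLike.coe (F := Bas →₀ ℚ) x (i, w) = 0
    rcases List.eq_nil_or_concat' w with rfl | ⟨u, a, rfl⟩
    · rcases i with _ | i
      · apply mem_GH hx
        rw [wt_zero_nil]
        omega
      · have h1 := dp_apply x i []
        have h2 : dp x = 0 := h none
        rw [h2] at h1
        have h3 : (0 : ℚ) = ((i : ℚ) + 1) * DFunLike.coe (F := Bas →₀ ℚ) x (i + 1, []) := h1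
        rcases mul_eq_zero.1 h3.symm with h4 | h4
        · exfalso
          have h5 : (0 : ℚ) ≤ i := Nat.cast_nonneg i
          linarith
        · exact h4
    · rw [← dl_apply]
      have h2 : dl a x = 0 := h (some a)
      rw [h2]
      rfl
  obtain ⟨J, d, x, hx, hbij⟩ := leray GH internal hmem1 hmul hG0 dw
    (by rintro (_ | a) <;> simp [dw]) der hδ hδ' hker
  refine ⟨J, ⟨⟨d, (MvPolynomial.aeval x : MvPolynomial J ℚ →ₐ[ℚ] HR).toLinearMap, hbij,
    ?_, ?_, ?_⟩⟩⟩
  · show MvPolynomial.aeval x (1 : MvPolynomial J ℚ) = _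
    rw [map_one, hone]
  · intro p q
    exact map_mul (MvPolynomial.aeval x : MvPolynomial J ℚ →ₐ[ℚ] HR) p q
  · intro e
    exact LerayAux.aeval_monomial_mem GH d x hmem1 hmul (fun j => (hx j).2) e

end Pool.Agent.K4H31.MZ
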