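import Pool.Agent.K4H31.MZ.Star
import Pool.Agent.K4H31.MZ.LSub
import Pool.Agent.K4H31.MZ.Cnt

/-! The subalgebras generated by `π²` and the words with at most `r` letters. -/

set_option autoImplicit false

open Finset Module

namespace Pool.Agent.K4H31.MZ

open Pool.Agent.K4H54.MZ H569R3.Hall

/-- a basis element -/
noncomputable def sg (p : Bas) : HR := (Finsupp.single p 1 : Bas →₀ ℚ)

theorem sg_eq (p : Bas) : sg p = inj p.1 (e p.2) := by
  obtain ⟨i, w⟩ := p
  rw [inj_e]
  rfl

theorem hone : (1 : HR) = sg (0, []) := by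
  rw [one_def', sg_eq]

theorem sg_mem (p : Bas) : sg p ∈ GH (wt p) := by
  have h : (Finsupp.single p 1 : Bas →₀ ℚ) ∈ H (wt p) := by
    unfold H
    exact Finsupp.single_mem_supported ℚ _ rfl
  exact h

theorem hmem1 : (1 : HR) ∈ GH 0 := by
  rw [hone]
  have := sg_mem (0, [])
  rwa [wt_zero_nil] at this

instance : Nontrivial HR := by
  refine ⟨1, 0, fun h => ?_⟩
  have h2 : DFunLike.coe (F := Bas →₀ ℚ) (1 : HR) (0, []) = 0 := by
    rw [h]
    rfl
  rw [hone] at h2
  have h3 : (Finsupp.single ((0, []) : Bas) (1 : ℚ) : Bas →₀ ℚ) (0, []) = 0 := h2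
  rw [Finsupp.single_eq_same] at h3
  exact one_ne_zero h3

theorem hmulG (m n : ℕ) (x y : HR) (hx : x ∈ GH m) (hy : y ∈ GH n) : x * y ∈ GH (m + n) :=
  mulH_mem (x := (x : Bas →₀ ℚ)) (y := (y : Bas →₀ ℚ)) hx hy

theorem hG0' : ∀ x ∈ GH 0, ∃ c : ℚ, x = algebraMap ℚ HR c := by
  intro x hx
  refine ⟨DFunLike.coe (F := Bas →₀ ℚ) x (0, []), ?_⟩
  rw [Algebra.algebraMap_eq_smul_one, hone]
  refine Finsupp.ext fun p => ?_
  change DFunLike.coe (F := Bas →₀ ℚ) x p =
    (DFunLike.coe (F := Bas →₀ ℚ) x (0, []) • (Finsupp.single (0, []) 1 : Bas →₀ ℚ)) p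
  rw [Finsupp.smul_apply, Finsupp.single_apply]
  split_ifs with h
  · rw [← h]
    simp
  · rw [smul_zero]
    apply mem_GH hx
    intro h2
    have h3 : p ∈ B 0 := h2
    rw [B_zero] at h3
    exact h h3.symm

theorem hδG : ∀ (i : Option ℕ) (n : ℕ) (x : HR), x ∈ GH (n + dw i) → der i x ∈ GH n := by
  rintro (_ | a) n x hx
  · apply of_coeff
    rintro ⟨i, w⟩ hp
    change DFunLike.coe (F := Bas →₀ ℚ) (dp x) (i, w) = 0
    rw [dp_apply, mem_GH hx, mul_zero]
    rw [wt_succ]
    intro h
    apply hp
    rw [dw_none] at h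
    omega
  · apply of_coeff
    rintro ⟨i, w⟩ hp
    change DFunLike.coe (F := Bas →₀ ℚ) (dl a x) (i, w) = 0
    rw [dl_apply, mem_GH hx]
    rw [wt_snoc]
    intro h
    apply hp
    rw [dw_some] at h
    omega

theorem hδG' : ∀ (i : Option ℕ) (n : ℕ) (x : HR), n < dw i → x ∈ GH n → der i x = 0 := by
  rintro (_ | a) n x hn hx
  · refine Finsupp.ext fun p => ?_
    obtain ⟨i, w⟩ := p
    change DFunLike.coe (F := Bas →₀ ℚ) (dp x) (i, w) = 0
    rw [dp_apply, mem_GH hx, mul_zero]
    rw [wt_succ]
    rw [dw_none] at hn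
    omega
  · refine Finsupp.ext fun p => ?_
    obtain ⟨i, w⟩ := p
    change DFunLike.coe (F := Bas →₀ ℚ) (dl a x) (i, w) = 0
    rw [dl_apply, mem_GH hx]
    rw [wt_snoc]
    rw [dw_some] at hn
    omega

theorem hkerG : ∀ n, 0 < n → ∀ x ∈ GH n, (∀ i, der i x = 0) → x = 0 := by
  intro n hn x hx h
  refine Finsupp.ext fun p => ?_
  obtain ⟨i, w⟩ := p
  change DFunLike.coe (F := Bas →₀ ℚ) x (i, w) = 0
  rcases List.eq_nil_or_concat' w with rfl | ⟨u, a, rfl⟩
  · rcases i with _ | i
    · apply mem_GH hx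
      rw [wt_zero_nil]
      omega
    · have h1 := dp_apply x i []
      have h2 : dp x = 0 := h none
      rw [h2] at h1
      have h3 : (0 : ℚ) = ((i : ℚ) + 1) * DFunLike.coe (F := Bas →₀ ℚ) x (i + 1, []) := h1
      rcases mul_eq_zero.1 h3.symm with h4 | h4
      · exfalso
        have h5 : (0 : ℚ) ≤ i := Nat.cast_nonneg i
        linarith
      · exact h4
  · rw [← dl_apply]
    have h2 : dl a x = 0 := h (some a)
    rw [h2]
    rfl

/-- basis elements of positive weight with at most `r` letters -/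
def Wr (r : ℕ) : Set HR := {x | ∃ p : Bas, p.2.length ≤ r ∧ 0 < wt p ∧ x = sg p}

theorem sg_mem_adjoin {r : ℕ} (p : Bas) (hp : p.2.length ≤ r) :
    sg p ∈ Algebra.adjoin ℚ (Wr r) := by
  rcases Nat.eq_zero_or_pos (wt p) with h | h
  · have h3 : p ∈ B 0 := h
    rw [B_zero] at h3
    rw [show p = (0, []) from h3, ← hone]
    exact one_mem _
  · exact Algebra.subset_adjoin ⟨p, hp, h, rfl⟩

theorem der_mem {r : ℕ} (x : HR) (hx : x ∈ Wr r) (i : Option ℕ) :
    der i x ∈ Algebra.adjoin ℚ (Wr r) := by
  obtain ⟨⟨j, w⟩, hl, _, rfl⟩ := hx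
  rcases i with _ | a
  · have h : der none (sg (j, w)) = (j : ℚ) • sg (j - 1, w) := by
      rw [sg_eq, sg_eq]
      exact dp_inj j (e w)
    rw [h]
    exact Subalgebra.smul_mem _ (sg_mem_adjoin (j - 1, w) hl) _
  · have h : der (some a) (sg (j, w)) = inj j (rem a (e w)) := by
      rw [sg_eq]
      exact dl_inj a j (e w)
    rw [h]
    rcases List.eq_nil_or_concat' w with rfl | ⟨u, b, rfl⟩
    · rw [rem_nil, map_zero]
      exact zero_mem _
    · rw [← snoc_e, rem_snoc]
      split_ifs with hab
      · have h2 := sg_mem_adjoin (r := r) (j, u) (by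
          simp only [List.length_append, List.length_cons, List.length_nil] at hl
          show u.length ≤ r
          omega)
        rwa [sg_eq] at h2
      · rw [map_zero]
        exact zero_mem _

/-- polynomial generators of the subalgebra -/
theorem exists_J (r : ℕ) : ∃ J ⊆ Wr r, AlgebraicIndependent ℚ (Subtype.val : J → HR) ∧
    Algebra.adjoin ℚ J = Algebra.adjoin ℚ (Wr r) := by
  apply leray_sub GH internal hmem1 hmulG hG0' dw (by rintro (_ | a) <;> simp [dw]) der hδG hδG'
    hkerG (Wr r)
  · rintro x ⟨p, _, hp, rfl⟩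
    exact ⟨wt p, hp, sg_mem p⟩
  · intro x hx i
    exact der_mem x hx i

/-- product of basis elements -/
noncomputable def prodH (l : List Bas) : Bas →₀ ℚ :=
  l.foldr (fun p y => mulH (Finsupp.single p 1) y) (Finsupp.single (0, []) 1)

/-- the part of weight `k` of the subalgebra generated by the basis elements with at most `r`
letters: the span of their products of weight `k` -/
noncomputable def U (r k : ℕ) : Submodule ℚ (Bas →₀ ℚ) :=
  Submodule.span ℚ {x | ∃ l : List Bas, (∀ p ∈ l, p.2.length ≤ r) ∧ (l.map wt).sum = k ∧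
    x = prodH l}

/-- change of type -/
def toHR (x : Bas →₀ ℚ) : HR := x

theorem toHR_mul (x y : Bas →₀ ℚ) : toHR (mulH x y) = toHR x * toHR y := rfl

theorem prodH_eq (l : List Bas) : toHR (prodH l) = (l.map sg).prod := by
  induction l with
  | nil =>
    rw [List.map_nil, List.prod_nil, hone]
    rfl
  | cons p l ih =>
    rw [List.map_cons, List.prod_cons, ← ih]
    rfl

theorem prod_mem_GH (l : List Bas) : (l.map sg).prod ∈ GH (l.map wt).sum := by
  induction l with
  | nil => simpa using hmem1
  | cons p l ih =>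
    simp only [List.map_cons, List.prod_cons, List.sum_cons]
    exact hmulG _ _ _ _ (sg_mem p) ih

theorem U_le_H (r k : ℕ) : U r k ≤ H k := by
  unfold U
  rw [Submodule.span_le]
  rintro x ⟨l, _, hl, rfl⟩
  have h := prod_mem_GH l
  rw [hl, ← prodH_eq] at h
  exact h

/-- products -/
theorem U_mul {r m n : ℕ} {x y : Bas →₀ ℚ} (hx : x ∈ U r m) (hy : y ∈ U r n) :
    mulH x y ∈ U r (m + n) := by
  have key : ∀ x ∈ U r m, ∀ y ∈ U r n, mulH x y ∈ U r (m + n) := by
    intro x hx
    unfold U at hx
    induction hx using Submodule.span_induction with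
    | mem x hx =>
      obtain ⟨l, hl1, hl2, rfl⟩ := hx
      intro y hy
      unfold U at hy
      induction hy using Submodule.span_induction with
      | mem y hy =>
        obtain ⟨l', hl1', hl2', rfl⟩ := hy
        apply Submodule.subset_span
        refine ⟨l ++ l', ?_, ?_, ?_⟩
        · intro p hp
          rcases List.mem_append.1 hp with h | h
          · exact hl1 p h
          · exact hl1' p h
        · rw [List.map_append, List.sum_append, hl2, hl2']
        · have h : toHR (mulH (prodH l) (prodH l')) = toHR (prodH (l ++ l')) := by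
            rw [toHR_mul, prodH_eq, prodH_eq, prodH_eq, List.map_append, List.prod_append]
          exact h
      | zero =>
        have h := map_zero (mulL (prodH l))
        have h2 : mulL (prodH l) 0 = mulH (prodH l) 0 := rfl
        rw [← h2, h]
        exact zero_mem _
      | add a b _ _ ha hb =>
        have h := map_add (mulL (prodH l)) a b
        have h2 : mulL (prodH l) (a + b) = mulH (prodH l) (a + b) := rfl
        rw [← h2, h]
        exact add_mem ha hb
      | smul c a _ ha =>
        have h := map_smul (mulL (prodH l)) c a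
        have h2 : mulL (prodH l) (c • a) = mulH (prodH l) (c • a) := rfl
        rw [← h2, h]
        exact Submodule.smul_mem _ _ ha
    | zero =>
      intro y _
      have h := mulH_smul_left 0 0 y
      rw [zero_smul, zero_smul] at h
      rw [h]
      exact zero_mem _
    | add a b _ _ ha hb =>
      intro y hy
      rw [mulH_add_left]
      exact add_mem (ha y hy) (hb y hy)
    | smul c a _ ha =>
      intro y hy
      rw [mulH_smul_left]
      exact Submodule.smul_mem _ _ (ha y hy)
  exact key x hx y hy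

end Pool.Agent.K4H31.MZ
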