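import Pool.Agent.K4H31.MZ.UAlg
import Pool.Agent.K4H31.MZ.Ratio

/-! Dimensions of the subalgebras generated by `π²` and the words with at most `r` letters. -/

set_option autoImplicit false

open Finset Module Filter Topology

namespace Pool.Agent.K4H31.MZ

open Pool.Agent.K4H54.MZ H569R3.Hall

/-- polynomial generators of the subalgebra generated by the basis elements with at most `r`
letters -/
structure Gens (r : ℕ) where
  J : Set HR
  sub : J ⊆ Wr r
  ind : AlgebraicIndependent ℚ (Subtype.val : J → HR)
  adj : Algebra.adjoin ℚ J = Algebra.adjoin ℚ (Wr r)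
  P : J → Bas
  len : ∀ j, (P j).2.length ≤ r
  pos : ∀ j, 0 < wt (P j)
  eq : ∀ j : J, (j : HR) = sg (P j)

theorem exists_gens (r : ℕ) : Nonempty (Gens r) := by
  obtain ⟨J, h1, h2, h3⟩ := exists_J r
  have h4 : ∀ j : J, ∃ p : Bas, p.2.length ≤ r ∧ 0 < wt p ∧ (j : HR) = sg p := fun j => h1 j.2
  choose P hP1 hP2 hP3 using h4
  exact ⟨⟨J, h1, h2, h3, P, hP1, hP2, hP3⟩⟩

variable {r : ℕ} (T : Gens r)

/-- the weights -/
def Gens.d (j : T.J) : ℕ := wt (T.P j)

/-- the polynomials as elements -/
noncomputable def Gens.Φ : MvPolynomial T.J ℚ →ₐ[ℚ] HR :=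
  MvPolynomial.aeval (Subtype.val : T.J → HR)

theorem Gens.Phi_inj : Function.Injective T.Φ := T.ind

theorem Gens.mem_j (j : T.J) : (j : HR) ∈ GH (T.d j) := by
  rw [T.eq j]
  exact sg_mem _

theorem Gens.Phi_mon (s : T.J →₀ ℕ) :
    T.Φ (MvPolynomial.monomial s (1 : ℚ)) ∈ GH (Finsupp.weight T.d s) :=
  LerayAux.aeval_monomial_mem GH T.d _ hmem1 hmulG (fun j => T.mem_j j) s

theorem Gens.two_le (j : T.J) : 2 ≤ T.d j := by
  have h := T.pos j
  unfold Gens.d
  have h1 : wt (T.P j) ≠ 1 := by
    intro h2
    have h3 : T.P j ∈ B 1 := h2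
    rw [B_one] at h3
    exact h3
  omega

theorem Gens.P_inj : Function.Injective T.P := by
  intro i j h
  apply Subtype.ext
  rw [T.eq i, T.eq j, h]

theorem Gens.fin (n : ℕ) : {j | T.d j = n}.Finite := by
  have h : {j | T.d j = n} = T.P ⁻¹' (B n) := rfl
  rw [h]
  exact (B_finite n).preimage T.P_inj.injOn

/-- the number of basis elements with at most `r` letters of weight `n` -/
theorem card_short (r n : ℕ) : {p : Bas | wt p = n ∧ p.2.length ≤ r}.ncard ≤
    2 ^ r * (n + 1) ^ (r + 1) := by
  classical
  let f : Bas → Fin (n + 1) × (Fin r → Fin (n + 2)) := fun p =>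
    (Fin.ofNat (n + 1) p.1, fun t => if t.1 < p.2.length then Fin.ofNat (n + 2) (p.2.getD t.1 0 + 1)
      else 0)
  have hb : ∀ (w : List ℕ) (t : ℕ), t < w.length → w.getD t 0 ≤ (w.map fun a => 2 * a + 3).sum := by
    intro w
    induction w with
    | nil => intro t ht; simp at ht
    | cons a w ih =>
      intro t ht
      rcases t with _ | t
      · simp only [List.getD_cons_zero, List.map_cons, List.sum_cons]
        omega
      · simp only [List.getD_cons_succ, List.map_cons, List.sum_cons]
        have := ih t (by simpa using ht)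
        omega
  have hinj : Set.InjOn f {p : Bas | wt p = n ∧ p.2.length ≤ r} := by
    rintro ⟨i, u⟩ ⟨h1, h2⟩ ⟨j, v⟩ ⟨h3, h4⟩ heq
    simp only [wt] at h1 h2 h3 h4
    simp only [f, Prod.mk.injEq] at heq
    obtain ⟨he1, he2⟩ := heq
    have hij : i = j := by
      have := congrArg Fin.val he1
      simp only [Fin.ofNat, Nat.mod_eq_of_lt (show i < n + 1 by omega),
        Nat.mod_eq_of_lt (show j < n + 1 by omega)] at this
      exact this
    have hkey : ∀ t : ℕ, t < r → ((t < u.length ↔ t < v.length) ∧
        (t < u.length → t < v.length → u.getD t 0 = v.getD t 0)) := by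
      intro t ht
      have h5 := congrFun he2 ⟨t, ht⟩
      simp only at h5
      have hu : t < u.length → u.getD t 0 + 1 < n + 2 := by
        intro h
        have := hb u t h
        omega
      have hv : t < v.length → v.getD t 0 + 1 < n + 2 := by
        intro h
        have := hb v t h
        omega
      by_cases hu1 : t < u.length
      · by_cases hv1 : t < v.length
        · rw [if_pos hu1, if_pos hv1] at h5
          have h6 := congrArg Fin.val h5
          simp only [Fin.ofNat, Nat.mod_eq_of_lt (hu hu1), Nat.mod_eq_of_lt (hv hv1)] at h6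
          exact ⟨by simp [hu1, hv1], fun _ _ => by omega⟩
        · rw [if_pos hu1, if_neg hv1] at h5
          have h6 := congrArg Fin.val h5
          simp only [Fin.ofNat, Nat.mod_eq_of_lt (hu hu1), Fin.val_zero] at h6
          omega
      · by_cases hv1 : t < v.length
        · rw [if_neg hu1, if_pos hv1] at h5
          have h6 := congrArg Fin.val h5
          simp only [Fin.ofNat, Nat.mod_eq_of_lt (hv hv1), Fin.val_zero] at h6
          omega
        · exact ⟨by simp [hu1, hv1], fun h _ => absurd h hu1⟩
    have hlen : u.length = v.length := by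
      rcases lt_trichotomy u.length v.length with h | h | h
      · have := (hkey u.length (by omega)).1
        omega
      · exact h
      · have := (hkey v.length (by omega)).1
        omega
    have huv : u = v := by
      apply List.ext_getElem hlen
      intro t h5 h6
      have h7 := (hkey t (by omega)).2 h5 h6
      rwa [List.getD_eq_getElem _ _ h5, List.getD_eq_getElem _ _ h6] at h7
    rw [hij, huv]
  have h := Set.ncard_le_ncard_of_injOn f (t := Set.univ) (fun _ _ => Set.mem_univ _) hinj
    Set.finite_univ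
  rw [Set.ncard_univ, Nat.card_eq_fintype_card, Fintype.card_prod, Fintype.card_fun,
    Fintype.card_fin, Fintype.card_fin, Fintype.card_fin] at h
  refine h.trans ?_
  calc (n + 1) * (n + 2) ^ r ≤ (n + 1) * (2 * (n + 1)) ^ r := by
        apply Nat.mul_le_mul_left
        apply Nat.pow_le_pow_left
        omega
    _ = 2 ^ r * (n + 1) ^ (r + 1) := by
        rw [mul_pow, pow_succ]
        ring

theorem Gens.card (n : ℕ) : {j | T.d j = n}.ncard ≤ 2 ^ r * (n + 1) ^ (r + 1) := by
  refine le_trans ?_ (card_short r n)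
  refine Set.ncard_le_ncard_of_injOn T.P ?_ ?_ ?_
  · intro j hj
    exact ⟨hj, T.len j⟩
  · exact T.P_inj.injOn
  · exact (B_finite n).subset fun p hp => hp.1

/-- polynomials of weight `k` -/
noncomputable def Gens.R (k : ℕ) : Submodule ℚ (MvPolynomial T.J ℚ) :=
  Submodule.span ℚ (Set.range fun s : {s : T.J →₀ ℕ // Finsupp.weight T.d s = k} =>
    MvPolynomial.monomial s.1 (1 : ℚ))

theorem Gens.comp_eq {k : ℕ} (p : MvPolynomial T.J ℚ) (hp : T.Φ p ∈ GH k) :
    ∃ q ∈ T.R k, T.Φ q = T.Φ p := by
  classical
  have hm : ∀ s c, MvPolynomial.monomial s c = c • (MvPolynomial.monomial s (1 : ℚ) :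
      MvPolynomial T.J ℚ) := by
    intro s c
    rw [MvPolynomial.smul_monomial, smul_eq_mul, mul_one]
  set q := ∑ s ∈ p.support.filter (fun s => Finsupp.weight T.d s = k),
    MvPolynomial.monomial s (MvPolynomial.coeff s p) with hq
  set q' := ∑ s ∈ p.support.filter (fun s => ¬ Finsupp.weight T.d s = k),
    MvPolynomial.monomial s (MvPolynomial.coeff s p) with hq'
  have hqR : q ∈ T.R k := by
    refine Submodule.sum_mem _ fun s hs => ?_
    rw [mem_filter] at hs
    rw [hm]
    exact Submodule.smul_mem _ _ (Submodule.subset_span ⟨⟨s, hs.2⟩, rfl⟩)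
  have hpq : p = q + q' := by
    rw [hq, hq', sum_filter_add_sum_filter_not]
    exact p.as_sum
  have hqk : T.Φ q ∈ GH k := by
    rw [hq, map_sum]
    refine Submodule.sum_mem _ fun s hs => ?_
    rw [mem_filter] at hs
    rw [hm, map_smul]
    have := T.Phi_mon s
    rw [hs.2] at this
    exact Submodule.smul_mem _ _ this
  have hq'0 : T.Φ q' = 0 := by
    have h1 : T.Φ q' ∈ GH k := by
      have : T.Φ q' = T.Φ p - T.Φ q := by
        rw [hpq, map_add]
        ring
      rw [this]
      exact sub_mem hp hqk
    refine Finsupp.ext fun b => ?_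
    change DFunLike.coe (F := Bas →₀ ℚ) (T.Φ q') b = 0
    by_cases hb : wt b = k
    · have h2 : T.Φ q' = ∑ s ∈ p.support.filter (fun s => ¬ Finsupp.weight T.d s = k),
          T.Φ (MvPolynomial.monomial s (MvPolynomial.coeff s p)) := by
        rw [hq', map_sum]
      rw [h2]
      change DFunLike.coe (F := Bas →₀ ℚ) (∑ s ∈ p.support.filter
        (fun s => ¬ Finsupp.weight T.d s = k),
          (T.Φ (MvPolynomial.monomial s (MvPolynomial.coeff s p)) : Bas →₀ ℚ)) b = 0
      rw [Finsupp.finsetSum_apply]
      refine sum_eq_zero fun s hs => ?_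
      rw [mem_filter] at hs
      have h3 : T.Φ (MvPolynomial.monomial s (MvPolynomial.coeff s p)) ∈
          GH (Finsupp.weight T.d s) := by
        rw [hm, map_smul]
        exact Submodule.smul_mem _ _ (T.Phi_mon s)
      apply mem_GH h3
      rw [hb]
      exact fun h => hs.2 h.symm
    · exact mem_GH h1 b hb
  refine ⟨q, hqR, ?_⟩
  rw [hpq, map_add, hq'0, add_zero]

theorem Gens.mon_mem_U (s : T.J →₀ ℕ) :
    (T.Φ (MvPolynomial.monomial s (1 : ℚ)) : Bas →₀ ℚ) ∈ U r (Finsupp.weight T.d s) := by
  have h1 : (T.Φ 1 : Bas →₀ ℚ) ∈ U r 0 := by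
    rw [map_one, hone]
    apply Submodule.subset_span
    exact ⟨[], by simp, by simp, rfl⟩
  induction s using Finsupp.induction_linear with
  | zero =>
    rw [map_zero]
    exact h1
  | add f g hf hg =>
    have h : (MvPolynomial.monomial (f + g) (1 : ℚ) : MvPolynomial T.J ℚ) =
        MvPolynomial.monomial f 1 * MvPolynomial.monomial g 1 := by
      rw [MvPolynomial.monomial_mul, one_mul]
    rw [h, map_mul, map_add]
    exact U_mul hf hg
  | single j k =>
    induction k with
    | zero =>
      rw [Finsupp.single_zero, map_zero]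
      exact h1
    | succ k ih =>
      have h : (MvPolynomial.monomial (Finsupp.single j (k + 1)) (1 : ℚ) :
          MvPolynomial T.J ℚ) = MvPolynomial.monomial (Finsupp.single j k) 1 *
            MvPolynomial.X j := by
        rw [MvPolynomial.X, MvPolynomial.monomial_mul, one_mul, ← Finsupp.single_add]
      rw [h, map_mul, Finsupp.single_add, map_add]
      refine U_mul ih ?_
      have h2 : Finsupp.weight T.d (Finsupp.single j 1) = T.d j := by
        simp [Finsupp.weight_single]
      rw [h2]
      apply Submodule.subset_span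
      refine ⟨[T.P j], by simpa using T.len j, by simp [Gens.d], ?_⟩
      have h3 : T.Φ (MvPolynomial.X j) = sg (T.P j) := by
        unfold Gens.Φ
        rw [MvPolynomial.aeval_X, T.eq j]
      have h4 : toHR (prodH [T.P j]) = sg (T.P j) := by
        rw [prodH_eq]
        simp
      exact h3.trans h4.symm

theorem Gens.U_eq (k : ℕ) : (U r k : Submodule ℚ (Bas →₀ ℚ)) =
    ((Submodule.span ℚ (Set.range fun s : {s : T.J →₀ ℕ // Finsupp.weight T.d s = k} =>
      T.Φ (MvPolynomial.monomial s.1 (1 : ℚ)))) : Submodule ℚ HR) := by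
  apply le_antisymm
  · show Submodule.span ℚ _ ≤ _
    rw [Submodule.span_le]
    rintro x ⟨l, hl1, hl2, rfl⟩
    have h1 : (l.map sg).prod ∈ Algebra.adjoin ℚ (Wr r) := by
      apply Subalgebra.list_prod_mem
      intro x hx
      obtain ⟨p, hp, rfl⟩ := List.mem_map.1 hx
      exact sg_mem_adjoin p (hl1 p hp)
    rw [← T.adj, Algebra.adjoin_eq_range] at h1
    obtain ⟨p, hp⟩ := h1
    have hp' : T.Φ p = (l.map sg).prod := hp
    have h2 : T.Φ p ∈ GH k := by
      rw [hp', ← hl2]
      exact prod_mem_GH l
    obtain ⟨q, hq, hqp⟩ := T.comp_eq p h2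
    have h3 : T.Φ q ∈ Submodule.span ℚ (Set.range fun s : {s : T.J →₀ ℕ //
        Finsupp.weight T.d s = k} => T.Φ (MvPolynomial.monomial s.1 (1 : ℚ))) := by
      unfold Gens.R at hq
      have h4 := Submodule.mem_map_of_mem (f := T.Φ.toLinearMap) hq
      rw [Submodule.map_span, ← Set.range_comp] at h4
      exact h4
    rw [hqp, hp', ← prodH_eq] at h3
    exact h3
  · intro x hx
    have hx' : x ∈ (Submodule.span ℚ (Set.range fun s : {s : T.J →₀ ℕ //
        Finsupp.weight T.d s = k} => T.Φ (MvPolynomial.monomial s.1 (1 : ℚ))) :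
          Submodule ℚ HR) := hx
    clear hx
    induction hx' using Submodule.span_induction with
    | mem x hx =>
      obtain ⟨⟨s, hs⟩, rfl⟩ := hx
      have h := T.mon_mem_U s
      rw [hs] at h
      exact h
    | zero => exact (U r k).zero_mem
    | add x y _ _ hx hy => exact (U r k).add_mem hx hy
    | smul c x _ hx => exact (U r k).smul_mem c hx

theorem Gens.finrank_U (k : ℕ) : finrank ℚ (U r k) = cnt T.d Set.univ k := by
  classical
  have hli : LinearIndependent ℚ (fun s : {s : T.J →₀ ℕ // Finsupp.weight T.d s = k} =>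
      T.Φ (MvPolynomial.monomial s.1 (1 : ℚ))) := by
    have h1 := ((MvPolynomial.basisMonomials T.J ℚ).linearIndependent).comp
      (fun s : {s : T.J →₀ ℕ // Finsupp.weight T.d s = k} => s.1) Subtype.val_injective
    have h2 := h1.map' T.Φ.toLinearMap (LinearMap.ker_eq_bot.2 T.Phi_inj)
    have h3 : (fun s : {s : T.J →₀ ℕ // Finsupp.weight T.d s = k} =>
      T.Φ (MvPolynomial.monomial s.1 (1 : ℚ))) = (⇑T.Φ.toLinearMap ∘
        ⇑(MvPolynomial.basisMonomials T.J ℚ) ∘ fun s : {s : T.J →₀ ℕ //
          Finsupp.weight T.d s = k} => s.1) := by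
      funext s
      simp
    rw [h3]
    exact h2
  have hfin : Finite {s : T.J →₀ ℕ // Finsupp.weight T.d s = k} := by
    have h := cnt_finite T.d T.two_le T.fin Set.univ k
    have h' : {s : T.J →₀ ℕ | Finsupp.weight T.d s = k}.Finite := by
      refine h.subset ?_
      intro s hs
      exact ⟨fun _ _ => Set.mem_univ _, hs⟩
    exact h'.to_subtype
  have := Fintype.ofFinite {s : T.J →₀ ℕ // Finsupp.weight T.d s = k}
  have h1 := finrank_span_eq_card hli
  have h2 : finrank ℚ (U r k) = Fintype.card {s : T.J →₀ ℕ // Finsupp.weight T.d s = k} := by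
    rw [T.U_eq k]
    exact h1
  rw [h2, ← Nat.card_eq_fintype_card]
  unfold cnt
  rw [← Nat.card_coe_set_eq]
  apply Nat.card_congr
  exact Equiv.subtypeEquivRight fun s => by simp

/-- there are generators of the weights `2, 3, 5, 7, …` -/
theorem Gens.exists_deg (i : Option ℕ) (f : HR) (hf : f ∈ Algebra.adjoin ℚ (Wr r))
    (hf2 : f ∈ GH (dw i)) (hf3 : der i f ≠ 0) : ∃ j, T.d j = dw i := by
  classical
  rw [← T.adj, Algebra.adjoin_eq_range] at hf
  obtain ⟨p, hp⟩ := hf
  have hp' : T.Φ p = f := hp
  obtain ⟨q, hq, hqp⟩ := T.comp_eq p (by rwa [hp'])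
  by_contra hcon
  push Not at hcon
  apply hf3
  rw [← hp', ← hqp]
  have key : ∀ q ∈ T.R (dw i), der i (T.Φ q) = 0 := by
    intro q hq
    unfold Gens.R at hq
    induction hq using Submodule.span_induction with
    | mem x hx =>
      obtain ⟨⟨s, hs⟩, rfl⟩ := hx
      have hs0 : s ≠ 0 := by
        rintro rfl
        rw [map_zero] at hs
        rcases i with _ | a
        · rw [dw_none] at hs
          omega
        · rw [dw_some] at hs
          omega
      obtain ⟨j, hj⟩ := Finsupp.support_nonempty_iff.2 hs0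
      rw [Finsupp.mem_support_iff] at hj
      have hle : Finsupp.single j 1 ≤ s := by
        rw [Finsupp.single_le_iff]
        omega
      obtain ⟨t, rfl⟩ := exists_add_of_le hle
      have h4 : Finsupp.weight T.d (Finsupp.single j 1) = T.d j := by
        simp [Finsupp.weight_single]
      rw [map_add, h4] at hs
      have h5 : (MvPolynomial.monomial (Finsupp.single j 1 + t) (1 : ℚ) : MvPolynomial T.J ℚ) =
          MvPolynomial.monomial (Finsupp.single j 1) 1 * MvPolynomial.monomial t 1 := by
        rw [MvPolynomial.monomial_mul, one_mul]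
      simp only
      rw [h5, map_mul, Derivation.leibniz]
      have h6 := T.Phi_mon t
      have h7 := T.Phi_mon (Finsupp.single j 1)
      rw [h4] at h7
      have h8 := T.two_le j
      have h9 := hcon j
      rw [hδG' i _ _ (by omega) h6, hδG' i _ _ (by omega) h7]
      simp
    | zero => simp
    | add x y _ _ hx hy => rw [map_add, map_add, hx, hy, add_zero]
    | smul c x _ hx =>
      rw [map_smul, (der i).map_smul, hx, smul_zero]
  exact key q hq

end Pool.Agent.K4H31.MZ
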