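import Pool.Agent.K4H31.MZ.Ratio

/-! The zero-one law for the products of a sequence of real numbers with weights. -/

set_option autoImplicit false

open Finset Module Filter Topology

namespace Pool.Agent.K4H31.MZ

section

variable {J : Type} (d : J → ℕ)

/-- polynomials of weight `k` -/
noncomputable def RR (k : ℕ) : Submodule ℚ (MvPolynomial J ℚ) :=
  Submodule.span ℚ (Set.range fun s : {s : J →₀ ℕ // Finsupp.weight d s = k} =>
    MvPolynomial.monomial s.1 (1 : ℚ))

theorem RR_mul {m n : ℕ} {p q : MvPolynomial J ℚ} (hp : p ∈ RR d m) (hq : q ∈ RR d n) :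
    p * q ∈ RR d (m + n) := by
  unfold RR at hp
  induction hp using Submodule.span_induction with
  | mem x hx =>
    obtain ⟨⟨s, hs⟩, rfl⟩ := hx
    unfold RR at hq
    induction hq using Submodule.span_induction with
    | mem y hy =>
      obtain ⟨⟨t, ht⟩, rfl⟩ := hy
      apply Submodule.subset_span
      refine ⟨⟨s + t, by rw [map_add, hs, ht]⟩, ?_⟩
      simp only
      rw [MvPolynomial.monomial_mul, one_mul]
    | zero => rw [mul_zero]; exact zero_mem _
    | add a b _ _ ha hb => rw [mul_add]; exact add_mem ha hb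
    | smul c a _ ha => rw [mul_smul_comm]; exact Submodule.smul_mem _ _ ha
  | zero => rw [zero_mul]; exact zero_mem _
  | add a b _ _ ha hb => rw [add_mul]; exact add_mem ha hb
  | smul c a _ ha => rw [smul_mul_assoc]; exact Submodule.smul_mem _ _ ha

variable (hd : ∀ j, 2 ≤ d j) (hfin : ∀ n, {j | d j = n}.Finite)

include hd hfin in
theorem finite_exp (k : ℕ) : Finite {s : J →₀ ℕ // Finsupp.weight d s = k} := by
  have h := cnt_finite d hd hfin Set.univ k
  have h' : {s : J →₀ ℕ | Finsupp.weight d s = k}.Finite := by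
    refine h.subset ?_
    intro s hs
    exact ⟨fun _ _ => Set.mem_univ _, hs⟩
  exact h'.to_subtype

include hd hfin in
theorem RR_fin (k : ℕ) : FiniteDimensional ℚ (RR d k) := by
  have := finite_exp d hd hfin k
  unfold RR
  exact FiniteDimensional.span_of_finite ℚ (Set.finite_range _)

include hd hfin in
theorem finrank_RR (k : ℕ) : finrank ℚ (RR d k) = cnt d Set.univ k := by
  classical
  have hli : LinearIndependent ℚ (fun s : {s : J →₀ ℕ // Finsupp.weight d s = k} =>
      (MvPolynomial.monomial s.1 (1 : ℚ) : MvPolynomial J ℚ)) := by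
    have h1 := ((MvPolynomial.basisMonomials J ℚ).linearIndependent).comp
      (fun s : {s : J →₀ ℕ // Finsupp.weight d s = k} => s.1) Subtype.val_injective
    have h3 : (fun s : {s : J →₀ ℕ // Finsupp.weight d s = k} =>
      (MvPolynomial.monomial s.1 (1 : ℚ) : MvPolynomial J ℚ)) =
        (⇑(MvPolynomial.basisMonomials J ℚ) ∘ fun s : {s : J →₀ ℕ //
          Finsupp.weight d s = k} => s.1) := by
      funext s
      simp
    rw [h3]
    exact h1
  have := finite_exp d hd hfin k
  have := Fintype.ofFinite {s : J →₀ ℕ // Finsupp.weight d s = k}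
  have h1 := finrank_span_eq_card hli
  unfold RR
  rw [h1, ← Nat.card_eq_fintype_card]
  unfold cnt
  rw [← Nat.card_coe_set_eq]
  apply Nat.card_congr
  exact Equiv.subtypeEquivRight fun s => by simp

/-- the products of weight `k` of the numbers `y j` of weight `d j` -/
noncomputable def VV (y : J → ℝ) (k : ℕ) : Submodule ℚ ℝ :=
  Submodule.span ℚ {x : ℝ | ∃ s : J →₀ ℕ, Finsupp.weight d s = k ∧ x = s.prod fun j n => y j ^ n}

theorem map_RR (y : J → ℝ) (k : ℕ) :
    (RR d k).map (MvPolynomial.aeval y : MvPolynomial J ℚ →ₐ[ℚ] ℝ).toLinearMap = VV d y k := by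
  unfold RR VV
  rw [Submodule.map_span, ← Set.range_comp]
  congr 1
  ext x
  simp only [Set.mem_range, Function.comp_apply, Subtype.exists, Set.mem_ofPred_eq]
  constructor
  · rintro ⟨s, hs, rfl⟩
    refine ⟨s, hs, ?_⟩
    rw [AlgHom.toLinearMap_apply, MvPolynomial.aeval_monomial, map_one, one_mul]
  · rintro ⟨s, hs, rfl⟩
    refine ⟨s, hs, ?_⟩
    rw [AlgHom.toLinearMap_apply, MvPolynomial.aeval_monomial, map_one, one_mul]

include hd hfin in
/-- **The zero-one law.** -/
theorem gen_zero_one [Infinite J] (C c : ℕ) (hg : ∀ n, {j | d j = n}.ncard ≤ C * (n + 1) ^ c)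
    (a b : J) (hda : d a = 2) (hdb : d b = 3) (y : J → ℝ) :
    (∀ k, finrank ℚ (VV d y k) = cnt d Set.univ k) ∨
      Tendsto (fun k : ℕ => (finrank ℚ (VV d y k) : ℝ) / (cnt d Set.univ k : ℝ)) atTop (𝓝 0) := by
  set φ := (MvPolynomial.aeval y : MvPolynomial J ℚ →ₐ[ℚ] ℝ) with hφ
  by_cases hinj : ∀ k, ∀ x ∈ RR d k, φ x = 0 → x = 0
  · left
    intro k
    rw [← map_RR d y k, ← finrank_RR d hd hfin k, ← LinearMap.range_domRestrict]
    apply LinearMap.finrank_range_of_inj
    rw [injective_iff_map_eq_zero]
    rintro ⟨x, hx⟩ h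
    exact Subtype.ext (hinj k x hx h)
  · right
    push Not at hinj
    obtain ⟨m, x, hx, hp, hx0⟩ := hinj
    have hm : m ≠ 1 := by
      rintro rfl
      apply hx0
      have h1 : RR d 1 = ⊥ := by
        unfold RR
        rw [Submodule.span_eq_bot]
        rintro _ ⟨⟨s, hs⟩, rfl⟩
        exfalso
        have hs0 : s ≠ 0 := by
          rintro rfl
          rw [map_zero] at hs
          omega
        obtain ⟨j, hj⟩ := Finsupp.support_nonempty_iff.2 hs0
        rw [Finsupp.mem_support_iff] at hj
        have hle : Finsupp.single j 1 ≤ s := by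
          rw [Finsupp.single_le_iff]
          omega
        obtain ⟨t, rfl⟩ := exists_add_of_le hle
        have h4 : Finsupp.weight d (Finsupp.single j 1) = d j := by
          simp [Finsupp.weight_single]
        rw [map_add, h4] at hs
        have := hd j
        omega
      rw [h1] at hx
      exact (Submodule.mem_bot ℚ).1 hx
    have hloss : ∀ k, finrank ℚ (VV d y (k + m)) + cnt d Set.univ k ≤ cnt d Set.univ (k + m) := by
      intro k
      have := RR_fin d hd hfin k
      have := RR_fin d hd hfin (k + m)
      have h1 := LinearMap.finrank_range_add_finrank_ker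
        (φ.toLinearMap.domRestrict (RR d (k + m)))
      rw [LinearMap.range_domRestrict, map_RR, finrank_RR d hd hfin] at h1
      have h2 : cnt d Set.univ k ≤
          finrank ℚ (LinearMap.ker (φ.toLinearMap.domRestrict (RR d (k + m)))) := by
        rw [← finrank_RR d hd hfin k]
        let f : RR d k →ₗ[ℚ] LinearMap.ker (φ.toLinearMap.domRestrict (RR d (k + m))) :=
          { toFun := fun z => ⟨⟨z * x, RR_mul d z.2 hx⟩, by
              rw [LinearMap.mem_ker]
              show φ (z * x) = 0
              rw [map_mul, hp, mul_zero]⟩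
            map_add' := fun z t => by
              apply Subtype.ext
              apply Subtype.ext
              exact add_mul _ _ _
            map_smul' := fun c z => by
              apply Subtype.ext
              apply Subtype.ext
              exact smul_mul_assoc _ _ _ }
        apply LinearMap.finrank_le_finrank_of_injective (f := f)
        intro z t hzt
        apply Subtype.ext
        have h3 : (z : MvPolynomial J ℚ) * x = t * x :=
          congrArg (fun t => ((t : RR d (k + m)) : MvPolynomial J ℚ)) (congrArg Subtype.val hzt)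
        exact mul_right_cancel₀ hx0 h3
      omega
    rw [← tendsto_add_atTop_iff_nat m]
    have h3 := (ratio d hd hfin C c hg a b hda hdb m hm).const_sub 1
    rw [sub_self] at h3
    refine squeeze_zero (fun k => by positivity) (fun k => ?_) h3
    have h5 : (finrank ℚ (VV d y (k + m)) : ℝ) + cnt d Set.univ k ≤ cnt d Set.univ (k + m) := by
      exact_mod_cast hloss k
    rcases Nat.eq_zero_or_pos (cnt d Set.univ (k + m)) with h6 | h6
    · rw [h6]
      simp
    · have h7 : (0 : ℝ) < cnt d Set.univ (k + m) := by exact_mod_cast h6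
      rw [div_le_iff₀ h7, sub_mul, div_mul_cancel₀ _ h7.ne']
      linarith

end

/-- the weights `2, 3, 5, 7, 9, …` of `π², ζ(3), ζ(5), ζ(7), …` -/
def wodd : ℕ → ℕ
  | 0 => 2
  | n + 1 => 2 * n + 3

/-- the numbers `π², ζ(3), ζ(5), ζ(7), …` -/
noncomputable def zodd : ℕ → ℝ
  | 0 => Real.pi ^ 2
  | n + 1 => ∑' k : ℕ, 1 / ((k : ℝ) + 1) ^ (2 * n + 3)

theorem wodd_inj : Function.Injective wodd := by
  intro m n h
  rcases m with _ | m <;> rcases n with _ | n
  · rfl
  · simp only [wodd] at h
    omega
  · simp only [wodd] at h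
    omega
  · simp only [wodd] at h
    omega

/-- **The zero-one law for the products of `π²` and odd zeta values.** -/
theorem odd_zero_one :
    (∀ k, finrank ℚ (VV wodd zodd k) = cnt wodd Set.univ k) ∨
      Tendsto (fun k : ℕ => (finrank ℚ (VV wodd zodd k) : ℝ) / (cnt wodd Set.univ k : ℝ))
        atTop (𝓝 0) := by
  have hfin : ∀ n, {j | wodd j = n}.Subsingleton := by
    intro n i hi j hj
    exact wodd_inj (hi.trans hj.symm)
  apply gen_zero_one wodd _ (fun n => (hfin n).finite) 1 0 _ 0 1 rfl rfl
  · rintro (_ | n) <;> simp [wodd]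
  · intro n
    rw [pow_zero, mul_one]
    have := (hfin n).finite.to_subtype
    exact Set.ncard_le_one_iff_subsingleton.2 (hfin n)

end Pool.Agent.K4H31.MZ
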