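import Pool.Agent.K4H31.MZ.UDim

/-! Zero-one laws for the values of the subalgebras generated in bounded length. -/

set_option autoImplicit false

open Finset Module Filter Topology

namespace Pool.Agent.K4H31.MZ

open Pool.Agent.K4H54.MZ H569R3.Hall

instance finite_U (r k : ℕ) : FiniteDimensional ℚ (U r k) :=
  Submodule.finiteDimensional_of_le (U_le_H r k)

/-- the ratios of the dimensions tend to `1` -/
theorem ratio_U (r : ℕ) (hr : 1 ≤ r) (m : ℕ) (hm : m ≠ 1) :
    Tendsto (fun k : ℕ => (finrank ℚ (U r k) : ℝ) / (finrank ℚ (U r (k + m)) : ℝ)) atTop (𝓝 1) := by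
  obtain ⟨T⟩ := exists_gens r
  have hsome : ∀ a : ℕ, ∃ j, T.d j = 2 * a + 3 := by
    intro a
    apply T.exists_deg (some a) (sg (0, [a]))
    · exact sg_mem_adjoin _ (by simpa using hr)
    · have := sg_mem (0, [a])
      have h2 : wt (0, [a]) = dw (some a) := by
        rw [dw_some]
        simp [wt]
      rwa [h2] at this
    · have h : der (some a) (sg (0, [a])) = inj 0 (rem a (e [a])) := by
        rw [sg_eq]
        exact dl_inj a 0 (e [a])
      rw [h]
      have h2 : (e [a] : V ℕ) = snoc a (e []) := by
        rw [snoc_e]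
        rfl
      rw [h2, rem_snoc, if_pos rfl, ← one_def']
      exact one_ne_zero
  have hnone : ∃ j, T.d j = 2 := by
    apply T.exists_deg none (sg (1, []))
    · exact sg_mem_adjoin _ (by simp)
    · have := sg_mem (1, [])
      rwa [wt_nil] at this
    · have h : der none (sg (1, [])) = (1 : ℕ) • inj 0 (e []) := by
        rw [sg_eq]
        have := dp_inj 1 (e [])
        rw [Nat.cast_one, one_smul] at this
        rw [one_smul]
        exact this
      rw [h, one_smul, ← one_def']
      exact one_ne_zero
  choose g hg using hsome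
  have hinf : Infinite T.J := by
    apply Infinite.of_injective g
    intro a b hab
    have h1 := hg a
    have h2 := hg b
    rw [hab] at h1
    omega
  obtain ⟨a, ha⟩ := hnone
  have h := ratio T.d T.two_le T.fin (2 ^ r) (r + 1) T.card a (g 0) ha (by simpa using hg 0) m hm
  simpa only [T.finrank_U] using h

section

variable {per : (Bas →₀ ℚ) →ₗ[ℚ] ℝ} (hper : IsPeriodMap per)

include hper in
/-- one relation has many consequences -/
theorem loss_U {r m : ℕ} {x : Bas →₀ ℚ} (hx : x ∈ U r m) (hx0 : x ≠ 0) (hp : per x = 0) (k : ℕ) :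
    finrank ℚ ((U r (k + m)).map per) + finrank ℚ (U r k) ≤ finrank ℚ (U r (k + m)) := by
  have h1 := LinearMap.finrank_range_add_finrank_ker (per.domRestrict (U r (k + m)))
  rw [LinearMap.range_domRestrict] at h1
  have h2 : finrank ℚ (U r k) ≤ finrank ℚ (LinearMap.ker (per.domRestrict (U r (k + m)))) := by
    let f : U r k →ₗ[ℚ] LinearMap.ker (per.domRestrict (U r (k + m))) :=
      { toFun := fun y => ⟨⟨mulL x y, by
            have := U_mul hx y.2
            rw [add_comm] at this
            exact this⟩, by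
          rw [LinearMap.mem_ker]
          show per (mulH x y) = 0
          rw [hper.2.1, hp, zero_mul]⟩
        map_add' := fun y z => by
          apply Subtype.ext
          apply Subtype.ext
          exact map_add (mulL x) (y : Bas →₀ ℚ) z
        map_smul' := fun c y => by
          apply Subtype.ext
          apply Subtype.ext
          exact map_smul (mulL x) c (y : Bas →₀ ℚ) }
    apply LinearMap.finrank_le_finrank_of_injective (f := f)
    intro y z hyz
    apply Subtype.ext
    apply mulL_injective hx0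
    exact congrArg (fun t => ((t : U r (k + m)) : Bas →₀ ℚ)) (congrArg Subtype.val hyz)
  omega

theorem U_one (r : ℕ) {x : Bas →₀ ℚ} (hx : x ∈ U r 1) : x = 0 := by
  have h := U_le_H r 1 hx
  ext p
  rw [Finsupp.zero_apply]
  by_contra hne
  have h2 := mem_H.1 h p (Finsupp.mem_support_iff.2 hne)
  have h3 : p ∈ B 1 := h2
  rw [B_one] at h3
  exact h3

include hper in
/-- **The zero-one law.** -/
theorem zero_one (r : ℕ) (hr : 1 ≤ r) :
    (∀ k, ∀ x ∈ U r k, per x = 0 → x = 0) ∨
      Tendsto (fun k : ℕ => (finrank ℚ ((U r k).map per) : ℝ) / (finrank ℚ (U r k) : ℝ))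
        atTop (𝓝 0) := by
  by_contra hcon
  push Not at hcon
  obtain ⟨⟨m, x, hx, hp, hx0⟩, h2⟩ := hcon
  apply h2
  have hm : m ≠ 1 := by
    rintro rfl
    exact hx0 (U_one r hx)
  rw [← tendsto_add_atTop_iff_nat m]
  have h3 := (ratio_U r hr m hm).const_sub 1
  rw [sub_self] at h3
  refine squeeze_zero (fun k => by positivity) (fun k => ?_) h3
  have h4 := loss_U hper hx hx0 hp k
  have h5 : (finrank ℚ ((U r (k + m)).map per) : ℝ) + finrank ℚ (U r k) ≤
      finrank ℚ (U r (k + m)) := by exact_mod_cast h4
  rcases Nat.eq_zero_or_pos (finrank ℚ (U r (k + m))) with h6 | h6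
  · rw [h6]
    simp
  · have h7 : (0 : ℝ) < finrank ℚ (U r (k + m)) := by exact_mod_cast h6
    rw [div_le_iff₀ h7, sub_mul, div_mul_cancel₀ _ h7.ne']
    linarith

include hper in
theorem map_ge_of_Q1 (hQ : Q1) (r k : ℕ) :
    finrank ℚ (U r k) ≤ finrank ℚ ((U r k).map per) := by
  obtain ⟨φ, _⟩ := hQ
  have h1 : finrank ℚ (Z k) = D k := by rw [(φ k).finrank_eq, finrank_H]
  have h2 := finrank_Z_add hper k
  have h3 : finrank ℚ (LinearMap.ker (perW hper k)) = 0 := by omega
  have h4 := Submodule.finrank_eq_zero.1 h3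
  have h5 := LinearMap.ker_eq_bot.1 h4
  have h6 : Function.Injective (per.domRestrict (U r k)) := by
    rw [injective_iff_map_eq_zero]
    rintro ⟨x, hx⟩ h7
    have h8 : perW hper k ⟨x, U_le_H r k hx⟩ = perW hper k 0 := by
      apply Subtype.ext
      rw [perW_apply, map_zero]
      exact h7
    have h9 := h5 h8
    exact Subtype.ext (show x = 0 from congrArg (fun t : H k => (t : Bas →₀ ℚ)) h9)
  have h7 := LinearMap.finrank_range_of_inj h6
  rw [LinearMap.range_domRestrict] at h7
  exact h7.ge

theorem length_le_wt (p : Bas) : p.2.length ≤ wt p := by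
  obtain ⟨i, w⟩ := p
  induction w with
  | nil => simp
  | cons a w ih =>
    rw [wt_cons']
    simp only [List.length_cons] at ih ⊢
    omega

theorem H_le_U (k : ℕ) : H k ≤ U k k := by
  unfold H
  rw [Finsupp.supported_eq_span_single, Submodule.span_le]
  rintro x ⟨p, hp, rfl⟩
  apply Submodule.subset_span
  have hp' : wt p = k := hp
  refine ⟨[p], ?_, by simpa using hp', ?_⟩
  · intro q hq
    rw [List.mem_singleton] at hq
    rw [hq, ← hp']
    exact length_le_wt p
  · have h : toHR (Finsupp.single p 1) = toHR (prodH [p]) := by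
      rw [prodH_eq]
      simp [sg, toHR]
    exact h

include hper in
/-- **Q1 and positive proportions in bounded length.** -/
theorem Q1_iff_prop : Q1 ↔ ∀ r : ℕ, 1 ≤ r → ∃ c : ℝ, 0 < c ∧ ∃ᶠ k : ℕ in atTop,
    0 < finrank ℚ (U r k) ∧
      c * (finrank ℚ (U r k) : ℝ) ≤ (finrank ℚ ((U r k).map per) : ℝ) := by
  constructor
  · intro hQ r hr
    refine ⟨1, one_pos, ?_⟩
    apply Eventually.frequently
    have h1 := ratio_U r hr 0 (by omega)
    have h2 := h1.eventually (lt_mem_nhds (show (0 : ℝ) < 1 by norm_num))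
    filter_upwards [h2] with k hk
    refine ⟨?_, ?_⟩
    · by_contra h
      have h3 : finrank ℚ (U r k) = 0 := by omega
      rw [h3] at hk
      simp at hk
    · rw [one_mul]
      exact_mod_cast map_ge_of_Q1 hper hQ r k
  · intro h
    apply Q1_of_injective hper
    intro w x hx hp
    by_contra hx0
    have hw : 1 ≤ max w 1 := le_max_right _ _
    have hxU : x ∈ U (max w 1) w := by
      have h1 := H_le_U w hx
      have h2 : U w w ≤ U (max w 1) w := by
        unfold U
        apply Submodule.span_mono
        rintro y ⟨l, hl, hl2, rfl⟩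
        exact ⟨l, fun p hp => (hl p hp).trans (le_max_left _ _), hl2, rfl⟩
      exact h2 h1
    rcases zero_one hper (max w 1) hw with h1 | h1
    · exact hx0 (h1 w x hxU hp)
    · obtain ⟨c, hc, hfreq⟩ := h (max w 1) hw
      have h2 := h1.eventually (gt_mem_nhds hc)
      obtain ⟨k, ⟨hk1, hk2⟩, hk3⟩ := (hfreq.and_eventually h2).exists
      have hk1' : (0 : ℝ) < finrank ℚ (U (max w 1) k) := by exact_mod_cast hk1
      rw [div_lt_iff₀ hk1'] at hk3
      linarith

end

end Pool.Agent.K4H31.MZ
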